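import Pool.Agent.LibNC27.Defs

set_option autoImplicit false

open Matrix MeasureTheory Topology Filter LibNC38

namespace LibNC27

/-- orthogonal matrices -/
def Ort {n : ℕ} (k : SL n) : Prop := k.1 * k.1ᵀ = 1

/-- diagonal matrix of a vector -/
def dM {n : ℕ} (z : V0 n) : Mt n := Matrix.diagonal fun i => z.1 i

/-- rotation matrix in the coordinates `i, j`: entries `(i,i) = (j,j) = cos t`, `(i,j) = sin t`,
`(j,i) = - sin t` -/
noncomputable def rotM {n : ℕ} (i j : Fin n) (t : ℝ) : Mt n := fun a b =>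
  if a = i then (if b = i then Real.cos t else if b = j then Real.sin t else 0)
  else if a = j then (if b = j then Real.cos t else if b = i then - Real.sin t else 0)
  else if a = b then 1 else 0

open Classical in
/-- the rotation as an element of `SL_n(ℝ)` -/
noncomputable def rot {n : ℕ} (i j : Fin n) (t : ℝ) : SL n :=
  if h : (rotM i j t).det = 1 then ⟨rotM i j t, h⟩ else 1

/-- the 2-jet of a tensor as functions on the group: `J v w g = κ_{g gᵀ}(g v gᵀ, g w gᵀ)`,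
`J1 x v w g` = derivative of `J v w` at `g` in the direction `g x`, `J2 x y v w g` = derivative of
`J1 y v w` at `g` in the direction `g x` -/
structure Jm {n : ℕ} (Γ : Subgroup (SL n)) (J : Mt n →ₗ[ℝ] Mt n →ₗ[ℝ] Fn n)
    (J1 : Mt n →ₗ[ℝ] Mt n →ₗ[ℝ] Mt n →ₗ[ℝ] Fn n)
    (J2 : Mt n →ₗ[ℝ] Mt n →ₗ[ℝ] Mt n →ₗ[ℝ] Mt n →ₗ[ℝ] Fn n) : Prop where
  cont0 : ∀ v w, Continuous (J v w)
  cont1 : ∀ x v w, Continuous (J1 x v w)
  cont2 : ∀ x y v w, Continuous (J2 x y v w)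
  sym0 : ∀ v w, J v w = J w v
  inv : ∀ γ ∈ Γ, ∀ v w : Mt n, vᵀ = v → v.trace = 0 → wᵀ = w → w.trace = 0 →
    ∀ g, J v w (γ * g) = J v w g
  ort0 : ∀ k : SL n, Ort k → ∀ v w g,
    J v w (g * k) = J (k.1 * v * k.1ᵀ) (k.1 * w * k.1ᵀ) g
  ort1 : ∀ k : SL n, Ort k → ∀ x v w g,
    J1 x v w (g * k) = J1 (k.1 * x * k.1ᵀ) (k.1 * v * k.1ᵀ) (k.1 * w * k.1ᵀ) g
  d1 : ∀ (x v w : Mt n) (c : ℝ → SL n),
    (∀ a b, HasDerivAt (fun s => (c s).1 a b) (((c 0).1 * x) a b) 0) →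
      HasDerivAt (fun s => J v w (c s)) (J1 x v w (c 0)) 0
  d2 : ∀ (x y v w : Mt n) (c : ℝ → SL n),
    (∀ a b, HasDerivAt (fun s => (c s).1 a b) (((c 0).1 * x) a b) 0) →
      HasDerivAt (fun s => J1 y v w (c s)) (J2 x y v w (c 0)) 0
  com2 : ∀ x y v w, x * y = y * x → J2 x y v w = J2 y x v w

end LibNC27
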