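import Pool.Agent.LibNG38.GK4
import Pool.Agent.LibNC27.RDefs

set_option autoImplicit false

open Matrix MeasureTheory Topology Filter LibNC38
open scoped Matrix.Norms.Elementwise

namespace LibNC27

/-- `κ` is a tensor of class `C²`: it extends to a tensor with `C²` coefficients on an open
neighbourhood of the space of positive definite matrices of determinant one in the space of all
matrices -/
def C2F {n : ℕ} (κ : PD n → Fm n) : Prop :=
  ∃ (U : Set (Mt n)) (κ' : Mt n → Fm n), IsOpen U ∧ (∀ p : PD n, p.1 ∈ U ∧ κ' p.1 = κ p) ∧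
    ∀ v w, ContDiffOn ℝ 2 (fun p => κ' p v w) U

private theorem N1a_entry {n : ℕ} (i j : Fin n) : ContDiff ℝ 2 (fun A : Mt n => A i j) :=
  (LinearMap.toContinuousLinearMap (Matrix.entryLinearMap ℝ ℝ i j)).contDiff

private theorem N1a_conj {n : ℕ} (v : Mt n) (a b : Fin n) :
    ContDiff ℝ 2 (fun A : Mt n => (A * v * Aᵀ) a b) := by
  have h : (fun A : Mt n => (A * v * Aᵀ) a b) =
      fun A : Mt n => ∑ d, (∑ c, A a c * v c d) * A b d := by
    funext A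
    simp only [Matrix.mul_apply, Matrix.transpose_apply]
  rw [h]
  refine ContDiff.sum fun d _ => ContDiff.mul (ContDiff.sum fun c _ => ?_) (N1a_entry b d)
  exact (N1a_entry a c).mul contDiff_const

private theorem N1a_gram {n : ℕ} : ContDiff ℝ 2 (fun A : Mt n => A * Aᵀ) := by
  have h : (fun A : Mt n => A * Aᵀ) =
      fun A : Mt n => ∑ a, ∑ b, (A * 1 * Aᵀ) a b • Matrix.single a b (1 : ℝ) := by
    funext A
    rw [mul_one]
    conv_lhs => rw [Matrix.matrix_eq_sum_single (A * Aᵀ)]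
    refine Finset.sum_congr rfl fun a _ => Finset.sum_congr rfl fun b _ => ?_
    rw [Matrix.smul_single, smul_eq_mul, mul_one]
  rw [h]
  refine ContDiff.sum fun a _ => ContDiff.sum fun b _ => ?_
  exact (N1a_conj 1 a b).smul contDiff_const

private theorem N1a_expand {n : ℕ} (B : Fm n) (x y : Mt n) :
    B x y = ∑ c, ∑ d, ∑ a, ∑ b, y c d * (x a b *
      B (Matrix.single a b (1 : ℝ)) (Matrix.single c d (1 : ℝ))) := by
  have hx : ∀ z : Mt n, z = ∑ a, ∑ b, z a b • Matrix.single a b (1 : ℝ) := by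
    intro z
    conv_lhs => rw [Matrix.matrix_eq_sum_single z]
    refine Finset.sum_congr rfl fun a _ => Finset.sum_congr rfl fun b _ => ?_
    rw [Matrix.smul_single, smul_eq_mul, mul_one]
  conv_lhs => rw [hx x, hx y]
  simp only [map_sum, LinearMap.sum_apply, map_smul, LinearMap.smul_apply, smul_eq_mul,
    Finset.mul_sum]

/-- Row N1a. `Jt v w A = κ' (A Aᵀ) (A v Aᵀ) (A w Aᵀ)` on `V = {A | A Aᵀ ∈ U}`. Smoothness: expand
`A v Aᵀ` in matrix units, `Jt v w A = ∑ (A v Aᵀ)_ab (A w Aᵀ)_cd κ' (A Aᵀ) E_ab E_cd`, polynomials in the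
entries times `C²` functions of `A Aᵀ`. -/
theorem amb_exists {n : ℕ} (κ : PD n → Fm n) (h : C2F κ) :
    ∃ (V : Set (Mt n)) (Jt : Mt n →ₗ[ℝ] Mt n →ₗ[ℝ] (Mt n → ℝ)), IsOpen V ∧
      (∀ g : SL n, g.1 ∈ V) ∧ (∀ A ∈ V, ∀ k : SL n, Ort k → A * k.1 ∈ V) ∧
      (∀ v w, ContDiffOn ℝ 2 (Jt v w) V) ∧ (∀ v w (g : SL n), Jt v w g.1 = Jf κ v w g) ∧
      ∀ k : SL n, Ort k → ∀ v w A, Jt v w (A * k.1) = Jt (k.1 * v * k.1ᵀ) (k.1 * w * k.1ᵀ) A := by
  obtain ⟨U, κ', hU, hκ, hC⟩ := h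
  have hort : ∀ k : SL n, Ort k → ∀ (x A : Mt n), A * k.1 * x * (A * k.1)ᵀ =
      A * (k.1 * x * k.1ᵀ) * Aᵀ := by
    intro k _ x A
    rw [Matrix.transpose_mul]
    simp only [Matrix.mul_assoc]
  have hort1 : ∀ k : SL n, Ort k → ∀ A : Mt n, A * k.1 * (A * k.1)ᵀ = A * Aᵀ := by
    intro k hk A
    have h1 : k.1 * k.1ᵀ = 1 := hk
    rw [Matrix.transpose_mul]
    calc A * k.1 * (k.1ᵀ * Aᵀ) = A * (k.1 * k.1ᵀ) * Aᵀ := by simp only [Matrix.mul_assoc]
      _ = A * Aᵀ := by rw [h1, mul_one]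
  have hg1 : ∀ g : SL n, g.1 * g.1ᵀ = (act g (o n)).1 := by
    intro g
    show g.1 * g.1ᵀ = g.1 * (1 : Mt n) * g.1ᵀ
    rw [mul_one]
  refine ⟨{A : Mt n | A * Aᵀ ∈ U},
    LinearMap.mk₂ ℝ (fun v w => fun A => κ' (A * Aᵀ) (A * v * Aᵀ) (A * w * Aᵀ))
      ?_ ?_ ?_ ?_, ?_, ?_, ?_, ?_, ?_, ?_⟩
  · intro v v' w
    funext A
    simp only [Matrix.mul_add, Matrix.add_mul, map_add, LinearMap.add_apply, Pi.add_apply]
  · intro c v w
    funext A
    simp only [Matrix.mul_smul, Matrix.smul_mul, map_smul, LinearMap.smul_apply, Pi.smul_apply]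
  · intro v w w'
    funext A
    simp only [Matrix.mul_add, Matrix.add_mul, map_add, Pi.add_apply]
  · intro c v w
    funext A
    simp only [Matrix.mul_smul, Matrix.smul_mul, map_smul, Pi.smul_apply]
  · exact hU.preimage N1a_gram.continuous
  · intro g
    show g.1 * g.1ᵀ ∈ U
    rw [hg1]
    exact (hκ _).1
  · intro A hA k hk
    show A * k.1 * (A * k.1)ᵀ ∈ U
    rw [hort1 k hk]
    exact hA
  · intro v w
    show ContDiffOn ℝ 2 (fun A : Mt n => κ' (A * Aᵀ) (A * v * Aᵀ) (A * w * Aᵀ))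
      {A : Mt n | A * Aᵀ ∈ U}
    have h1 : (fun A : Mt n => κ' (A * Aᵀ) (A * v * Aᵀ) (A * w * Aᵀ)) = fun A : Mt n =>
        ∑ c, ∑ d, ∑ a, ∑ b, (A * w * Aᵀ) c d * ((A * v * Aᵀ) a b *
          κ' (A * Aᵀ) (Matrix.single a b (1 : ℝ)) (Matrix.single c d (1 : ℝ))) := by
      funext A
      exact N1a_expand _ _ _
    rw [h1]
    refine ContDiffOn.sum fun c _ => ContDiffOn.sum fun d _ => ContDiffOn.sum fun a _ =>
      ContDiffOn.sum fun b _ => ?_
    refine (N1a_conj w c d).contDiffOn.mul ((N1a_conj v a b).contDiffOn.mul ?_)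
    exact (hC (Matrix.single a b (1 : ℝ)) (Matrix.single c d (1 : ℝ))).comp
      N1a_gram.contDiffOn (fun A hA => hA)
  · intro v w g
    show κ' (g.1 * g.1ᵀ) (g.1 * v * g.1ᵀ) (g.1 * w * g.1ᵀ) = Jf κ v w g
    rw [hg1, (hκ _).2]
    rfl
  · intro k hk v w A
    show κ' (A * k.1 * (A * k.1)ᵀ) (A * k.1 * v * (A * k.1)ᵀ) (A * k.1 * w * (A * k.1)ᵀ) =
      κ' (A * Aᵀ) (A * (k.1 * v * k.1ᵀ) * Aᵀ) (A * (k.1 * w * k.1ᵀ) * Aᵀ)
    rw [hort1 k hk, hort k hk, hort k hk]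

end LibNC27
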