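import Pool.Agent.LibNC27.Defs

set_option autoImplicit false

open Matrix MeasureTheory Topology Filter LibNC38

namespace LibNC27

private theorem A1a_tvval {n : ℕ} (i j : Fin n) (h : i ≠ j) (r : ℝ) (a b : Fin n) :
    (tv i j h r).1 a b = (if a = b then (1 : ℝ) else 0) + (if a = i ∧ b = j then r else 0) := by
  show (Matrix.transvection i j r) a b = _
  unfold Matrix.transvection
  rw [Matrix.add_apply, Matrix.one_apply, Matrix.single_apply]
  simp only [eq_comm]

private theorem A1a_dgmval {n : ℕ} (w : V0 n) (a b : Fin n) :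
    (dgm w).1 a b = if a = b then Real.exp (w.1 a) else 0 := by
  show (Matrix.diagonal fun i => Real.exp (w.1 i)) a b = _
  rw [Matrix.diagonal_apply]

private theorem A1a_ext {n : ℕ} {g g' : SL n} (h : ∀ a b, g.1 a b = g'.1 a b) : g = g' := by
  apply Subtype.ext
  ext a b
  exact h a b

private theorem A1a_mul_dgm {n : ℕ} (g : SL n) (w : V0 n) (a b : Fin n) :
    (g * dgm w).1 a b = g.1 a b * Real.exp (w.1 b) := by
  show (g.1 * Matrix.diagonal fun i => Real.exp (w.1 i)) a b = _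
  rw [Matrix.mul_diagonal]

private theorem A1a_dgm_mul {n : ℕ} (g : SL n) (w : V0 n) (a b : Fin n) :
    (dgm w * g).1 a b = Real.exp (w.1 a) * g.1 a b := by
  show ((Matrix.diagonal fun i => Real.exp (w.1 i)) * g.1) a b = _
  rw [Matrix.diagonal_mul]

private theorem A1a_one {n : ℕ} (i j : Fin n) (h : i ≠ j) (r : ℝ) (w : V0 n) :
    tv i j h r * dgm w = dgm w * tv i j h (Real.exp (-(w.1 i - w.1 j)) * r) := by
  apply A1a_ext
  intro a b
  rw [A1a_mul_dgm, A1a_dgm_mul, A1a_tvval, A1a_tvval]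
  by_cases hab : a = b
  · subst hab
    have h1 : ¬ (a = i ∧ a = j) := fun hh => h (hh.1.symm.trans hh.2)
    rw [if_neg h1, if_neg h1]
    ring
  · rw [if_neg hab]
    by_cases h2 : a = i ∧ b = j
    · rw [if_pos h2, if_pos h2, h2.1, h2.2, zero_add, zero_add, ← mul_assoc, ← Real.exp_add]
      have : w.1 i + -(w.1 i - w.1 j) = w.1 j := by ring
      rw [this, mul_comm]
    · rw [if_neg h2, if_neg h2]
      ring

/-- Row A1a. Relations between root groups and the diagonal group. Entries: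
`(tv r * dgm w) i j = r e^(w j)`, `(dgm w * tv r') i j = e^(w i) r'`. -/
theorem tv_facts {n : ℕ} (i j : Fin n) (h : i ≠ j) :
    (∀ (r : ℝ) (w : V0 n), tv i j h r * dgm w = dgm w * tv i j h (Real.exp (-(w.1 i - w.1 j)) * r)) ∧
    (∀ (r : ℝ) (w : V0 n), w.1 i = w.1 j → tv i j h r * dgm w = dgm w * tv i j h r) ∧
    (∀ r s : ℝ, tv i j h (r + s) = tv i j h r * tv i j h s) ∧ tv i j h 0 = 1 ∧
    (∀ (r s : ℝ), tv i j h r * dgm (s • Hv i j) =
      dgm (s • Hv i j) * tv i j h (Real.exp (-(2 * s)) * r)) ∧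
    (Continuous fun r : ℝ => tv i j h r) := by
  refine ⟨A1a_one i j h, ?_, ?_, ?_, ?_, ?_⟩
  · intro r w hw
    rw [A1a_one, hw, sub_self, neg_zero, Real.exp_zero, one_mul]
  · intro r s
    apply Subtype.ext
    exact (Matrix.transvection_mul_transvection_same i j h r s).symm
  · apply Subtype.ext
    exact Matrix.transvection_zero i j
  · intro r s
    rw [A1a_one]
    have h1 : (s • Hv i j).1 i - (s • Hv i j).1 j = 2 * s := by
      have e1 : (s • Hv i j).1 i = s * ((if i = i then (1 : ℝ) else 0) - (if i = j then 1 else 0)) := rfl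
      have e2 : (s • Hv i j).1 j = s * ((if j = i then (1 : ℝ) else 0) - (if j = j then 1 else 0)) := rfl
      rw [e1, e2, if_pos rfl, if_neg h, if_neg (Ne.symm h), if_pos rfl]
      ring
    rw [h1]
  · apply continuous_induced_rng.mpr
    apply continuous_matrix
    intro a b
    have : (fun r : ℝ => (tv i j h r).1 a b) =
        fun r => (if a = b then (1 : ℝ) else 0) + (if a = i ∧ b = j then r else 0) :=
      funext fun r => A1a_tvval i j h r a b
    show Continuous (fun r : ℝ => (tv i j h r).1 a b)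
    rw [this]
    split_ifs <;> fun_prop

private theorem A1a_add {n : ℕ} (v w : V0 n) : dgm (v + w) = dgm v * dgm w := by
  apply A1a_ext
  intro a b
  rw [A1a_mul_dgm, A1a_dgmval, A1a_dgmval]
  by_cases hab : a = b
  · subst hab
    rw [if_pos rfl, if_pos rfl, ← Real.exp_add]
    rfl
  · rw [if_neg hab, if_neg hab, zero_mul]

private theorem A1a_zero {n : ℕ} : dgm (0 : V0 n) = 1 := by
  apply A1a_ext
  intro a b
  rw [A1a_dgmval]
  show _ = (1 : Matrix (Fin n) (Fin n) ℝ) a b
  rw [Matrix.one_apply]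
  have : (0 : V0 n).1 a = 0 := rfl
  rw [this, Real.exp_zero]

/-- Row A1a. Multiplicativity and continuity of `dgm`. -/
theorem dgm_facts {n : ℕ} :
    (∀ v w : V0 n, dgm (v + w) = dgm v * dgm w) ∧ (∀ v w : V0 n, dgm v * dgm w = dgm w * dgm v) ∧
    (∀ v : V0 n, dgm ((0 : ℝ) • v) = 1) ∧ dgm (0 : V0 n) = 1 ∧
    (∀ (s t : ℝ) (v : V0 n), dgm ((s + t) • v) = dgm (s • v) * dgm (t • v)) ∧
    (Continuous fun v : V0 n => dgm v) := by
  refine ⟨A1a_add, ?_, ?_, A1a_zero, ?_, ?_⟩
  · intro v w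
    rw [← A1a_add, ← A1a_add, add_comm]
  · intro v
    rw [zero_smul]
    exact A1a_zero
  · intro s t v
    rw [add_smul, A1a_add]
  · apply continuous_induced_rng.mpr
    apply continuous_matrix
    intro a b
    have : (fun v : V0 n => (dgm v).1 a b) = fun v => if a = b then Real.exp (v.1 a) else 0 :=
      funext fun v => A1a_dgmval v a b
    show Continuous (fun v : V0 n => (dgm v).1 a b)
    rw [this]
    split_ifs
    · apply Real.continuous_exp.comp
      exact (EuclideanSpace.proj (𝕜 := ℝ) a).continuous.comp continuous_subtype_val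
    · exact continuous_const

private theorem A1a_Hv {n : ℕ} (i j a : Fin n) :
    (Hv i j).1 a = (if a = i then (1 : ℝ) else 0) - (if a = j then 1 else 0) := rfl

private theorem A1a_extV {n : ℕ} {v w : V0 n} (h : ∀ a, v.1 a = w.1 a) : v = w := by
  apply Subtype.ext
  ext a
  exact h a

/-- Row A1a. The coroots. -/
theorem Hv_facts {n : ℕ} (i j : Fin n) (h : i ≠ j) :
    (∀ a, (Hv i j).1 a = (if a = i then (1 : ℝ) else 0) - (if a = j then 1 else 0)) ∧
    (∀ v : V0 n, inner ℝ v (Hv i j) = v.1 i - v.1 j) ∧ Hv j i = - Hv i j ∧ Hv i j ≠ 0 ∧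
    (∀ v : V0 n, ∃ v' : V0 n, v'.1 i = v'.1 j ∧ v = v' + ((v.1 i - v.1 j) / 2) • Hv i j) ∧
    (3 ≤ n → ∃ v : V0 n, v ≠ 0 ∧ v.1 i = v.1 j) := by
  refine ⟨fun a => rfl, ?_, ?_, ?_, ?_, ?_⟩
  · intro v
    have h1 : inner ℝ v (Hv i j) = inner ℝ v.1 (Hv i j).1 := rfl
    rw [h1, PiLp.inner_apply]
    simp only [A1a_Hv, RCLike.inner_apply, conj_trivial, sub_mul, ite_mul, one_mul, zero_mul,
      Finset.sum_sub_distrib, Finset.sum_ite_eq', Finset.mem_univ, if_true]
  · apply A1a_extV
    intro a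
    have : (-Hv i j).1 a = -((Hv i j).1 a) := rfl
    rw [this, A1a_Hv, A1a_Hv]
    ring
  · intro h0
    have h1 : (Hv i j).1 i = (0 : V0 n).1 i := by rw [h0]
    rw [A1a_Hv, if_pos rfl, if_neg h] at h1
    have h2 : (0 : V0 n).1 i = (0 : ℝ) := rfl
    rw [h2] at h1
    norm_num at h1
  · intro v
    refine ⟨v - ((v.1 i - v.1 j) / 2) • Hv i j, ?_, (sub_add_cancel _ _).symm⟩
    have e : ∀ a, (v - ((v.1 i - v.1 j) / 2) • Hv i j).1 a =
        v.1 a - (v.1 i - v.1 j) / 2 * ((if a = i then (1 : ℝ) else 0) - (if a = j then 1 else 0)) :=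
      fun a => rfl
    rw [e, e, if_pos rfl, if_neg h, if_neg (Ne.symm h), if_pos rfl]
    ring
  · intro hn
    obtain ⟨k, hki, hkj⟩ : ∃ k : Fin n, k ≠ i ∧ k ≠ j := by
      by_contra hcon
      push Not at hcon
      have h1 : (Finset.univ : Finset (Fin n)) ⊆ {i, j} := by
        intro k _
        by_cases hk : k = i
        · simp [hk]
        · simp [hcon k hk]
      have h2 := Finset.card_le_card h1
      rw [Finset.card_univ, Fintype.card_fin] at h2
      have h3 := Finset.card_le_two (a := i) (b := j)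
      omega
    refine ⟨Hv k i + Hv k j, ?_, ?_⟩
    · intro h0
      have h1 : (Hv k i + Hv k j).1 k = (0 : V0 n).1 k := by rw [h0]
      have h2 : (0 : V0 n).1 k = (0 : ℝ) := rfl
      have h3 : (Hv k i + Hv k j).1 k = (Hv k i).1 k + (Hv k j).1 k := rfl
      rw [h2, h3, A1a_Hv, A1a_Hv, if_pos rfl, if_neg hki, if_neg hkj] at h1
      norm_num at h1
    · have h3 : ∀ a, (Hv k i + Hv k j).1 a = (Hv k i).1 a + (Hv k j).1 a := fun a => rfl
      rw [h3, h3, A1a_Hv, A1a_Hv, A1a_Hv, A1a_Hv, if_neg (Ne.symm hki), if_pos rfl, if_neg h,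
        if_neg (Ne.symm hkj), if_neg (Ne.symm h), if_pos rfl]
      ring

end LibNC27
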