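import Pool.Agent.LibNC27.A1a

set_option autoImplicit false

open Matrix MeasureTheory Topology Filter LibNC38

namespace LibNC27

private theorem P1_first (n : ℕ) : FirstCountableTopology (SL n) := by
  have : FirstCountableTopology (Matrix (Fin n) (Fin n) ℝ) :=
    inferInstanceAs (FirstCountableTopology (Fin n → Fin n → ℝ))
  have h : Topology.IsInducing (fun w : SL n => (w.1 : Matrix (Fin n) (Fin n) ℝ)) := ⟨rfl⟩
  exact h.firstCountableTopology

/-- Row P1. The functional `Pf`. By A1a `g * tv r * dgm (s • H) = g * dgm (s • H) * tv (e^(-2s) r)`,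
so the integrand is at most `C |r| e^(-2s)` in absolute value: integrable on `Ioi 0`, continuous in
`g` by dominated convergence (`MeasureTheory.continuous_of_dominated`), left invariant. -/
theorem Pf_facts {n : ℕ} (Γ : Subgroup (SL n)) (i j : Fin n) (h : i ≠ j) (f : Fn n)
    (hf : Inv Γ f) (C : ℝ) (hC : ∀ (g : SL n) (r : ℝ), |f (g * tv i j h r) - f g| ≤ C * |r|) :
    (∀ (g : SL n) (r s : ℝ), |f (g * tv i j h r * dgm (s • Hv i j)) - f (g * dgm (s • Hv i j))| ≤
      C * |r| * Real.exp (-(2 * s))) ∧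
    (∀ (g : SL n) (r : ℝ), IntegrableOn (fun s : ℝ => f (g * tv i j h r * dgm (s • Hv i j)) -
      f (g * dgm (s • Hv i j))) (Set.Ioi 0)) ∧
    (∀ r : ℝ, Inv Γ fun g => Pf i j h f g r) ∧
    (∀ (g : SL n) (r : ℝ), |Pf i j h f g r| ≤ C * |r| / 2) ∧
    (∀ (g : SL n) (r : ℝ), Tendsto (fun T : ℝ => - ∫ s in (0 : ℝ)..T,
      (f (g * tv i j h r * dgm (s • Hv i j)) - f (g * dgm (s • Hv i j)))) atTop
      (𝓝 (Pf i j h f g r))) := by
  have := P1_first n
  obtain ⟨_, _, _, _, htv, _⟩ := tv_facts i j h
  obtain ⟨_, _, _, _, _, hdc⟩ := dgm_facts (n := n)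
  have h1 : ∀ (g : SL n) (r s : ℝ),
      |f (g * tv i j h r * dgm (s • Hv i j)) - f (g * dgm (s • Hv i j))| ≤
        C * |r| * Real.exp (-(2 * s)) := by
    intro g r s
    have e : g * tv i j h r * dgm (s • Hv i j) =
        g * dgm (s • Hv i j) * tv i j h (Real.exp (-(2 * s)) * r) := by
      rw [mul_assoc, htv, mul_assoc]
    rw [e]
    refine (hC _ _).trans (le_of_eq ?_)
    rw [abs_mul, abs_of_pos (Real.exp_pos _)]
    ring
  have hcs : Continuous fun s : ℝ => dgm (s • Hv (n := n) i j) :=
    hdc.comp (continuous_id.smul continuous_const)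
  have hcont : ∀ (g : SL n) (r : ℝ), Continuous fun s : ℝ =>
      f (g * tv i j h r * dgm (s • Hv i j)) - f (g * dgm (s • Hv i j)) := by
    intro g r
    exact (hf.cont.comp (continuous_const.mul hcs)).sub (hf.cont.comp (continuous_const.mul hcs))
  have hexp : IntegrableOn (fun s : ℝ => Real.exp (-(2 * s))) (Set.Ioi 0) := by
    have h2 := exp_neg_integrableOn_Ioi 0 (b := 2) (by norm_num)
    refine h2.congr_fun (fun s _ => ?_) measurableSet_Ioi
    simp only [neg_mul]
  have hbd : ∀ r : ℝ, IntegrableOn (fun s : ℝ => C * |r| * Real.exp (-(2 * s))) (Set.Ioi 0) :=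
    fun r => hexp.const_mul _
  have h2 : ∀ (g : SL n) (r : ℝ), IntegrableOn (fun s : ℝ =>
      f (g * tv i j h r * dgm (s • Hv i j)) - f (g * dgm (s • Hv i j))) (Set.Ioi 0) := by
    intro g r
    refine Integrable.mono' (hbd r) (hcont g r).aestronglyMeasurable ?_
    exact Filter.Eventually.of_forall fun s => h1 g r s
  refine ⟨h1, h2, fun r => ⟨?_, ?_⟩, fun g r => ?_, fun g r => ?_⟩
  · unfold Pf
    refine Continuous.neg ?_
    refine continuous_of_dominated (bound := fun s : ℝ => C * |r| * Real.exp (-(2 * s)))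
      (fun g => (hcont g r).aestronglyMeasurable) (fun g => ?_) (hbd r) ?_
    · exact Filter.Eventually.of_forall fun s => h1 g r s
    · refine Filter.Eventually.of_forall fun s => ?_
      exact (hf.cont.comp ((continuous_id.mul continuous_const).mul continuous_const)).sub
        (hf.cont.comp (continuous_id.mul continuous_const))
  · intro γ hγ g
    simp only [Pf]
    congr 1
    refine integral_congr_ae (Filter.Eventually.of_forall fun s => ?_)
    simp only [mul_assoc]
    rw [hf.inv γ hγ, hf.inv γ hγ]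
  · unfold Pf
    rw [abs_neg]
    have h3 := norm_integral_le_of_norm_le (μ := volume.restrict (Set.Ioi (0 : ℝ)))
      (f := fun s : ℝ => f (g * tv i j h r * dgm (s • Hv i j)) - f (g * dgm (s • Hv i j)))
      (hbd r) (Filter.Eventually.of_forall fun s => h1 g r s)
    refine h3.trans (le_of_eq ?_)
    rw [integral_const_mul]
    have h4 : ∫ s in Set.Ioi (0 : ℝ), Real.exp (-(2 * s)) = 1 / 2 := by
      have h5 := integral_exp_mul_Ioi (a := -2) (by norm_num) 0
      simp only [neg_mul, mul_zero, Real.exp_zero] at h5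
      rw [h5]
      norm_num
    rw [h4]
    ring
  · unfold Pf
    exact (intervalIntegral_tendsto_integral_Ioi 0 (h2 g r) tendsto_id).neg

end LibNC27
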