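import Pool.Agent.LibNC27.A1b

set_option autoImplicit false

open Matrix MeasureTheory Topology Filter LibNC38

namespace LibNC27

/-- matrices with entries in `{-1, 0, 1}` -/
private def R0_W (n : ℕ) : Set (SL n) := {g | ∀ a b, g.1 a b ∈ ({-1, 0, 1} : Set ℝ)}

private theorem R0_fin (n : ℕ) : (R0_W n).Finite := by
  have hS : (Set.pi Set.univ (fun _ : Fin n => Set.pi Set.univ
      (fun _ : Fin n => ({-1, 0, 1} : Set ℝ)))).Finite :=
    Set.Finite.pi fun _ => Set.Finite.pi fun _ => Set.toFinite _
  have hinj : Function.Injective (fun g : SL n => (fun a b => g.1 a b : Fin n → Fin n → ℝ)) := by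
    intro g g' hg
    apply Subtype.ext
    ext a b
    exact congrFun (congrFun hg a) b
  refine (hS.preimage hinj.injOn).subset ?_
  intro g hg
  simp only [Set.mem_preimage, Set.mem_pi, Set.mem_univ, forall_true_left]
  exact fun a b => hg a b

private theorem R0_one (n : ℕ) : (1 : SL n) ∈ R0_W n := by
  intro a b
  show (1 : Matrix (Fin n) (Fin n) ℝ) a b ∈ ({-1, 0, 1} : Set ℝ)
  rw [Matrix.one_apply]
  split_ifs <;> simp

private theorem R0_neg {x : ℝ} (hx : x ∈ ({-1, 0, 1} : Set ℝ)) : -x ∈ ({-1, 0, 1} : Set ℝ) := by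
  rcases hx with h3 | h3 | h3
  · rw [h3]; simp
  · rw [h3]; simp
  · rw [Set.mem_singleton_iff] at h3
    rw [h3]; simp

private theorem R0_mul {n : ℕ} (i j : Fin n) (h : i ≠ j) (w : SL n) (hw : w ∈ R0_W n) :
    w * kk i j h ∈ R0_W n := by
  have e : (w * kk i j h).1 = w.1 * Matrix.transvection i j 1 * Matrix.transvection j i (-1) *
      Matrix.transvection i j 1 := by
    have : w * kk i j h = w * tv i j h 1 * tv j i h.symm (-1) * tv i j h 1 := by
      simp only [kk, mul_assoc]
    rw [this]
    rfl
  intro a b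
  rw [e]
  set M0 := w.1 with hM0
  set M1 := M0 * Matrix.transvection i j 1 with hM1
  set M2 := M1 * Matrix.transvection j i (-1) with hM2
  have h1j : M1 a j = M0 a j + 1 * M0 a i := by
    rw [hM1, Matrix.mul_transvection_apply_same]
  have h1i : M1 a i = M0 a i := by
    rw [hM1, Matrix.mul_transvection_apply_of_ne _ _ _ _ h]
  have h2i : M2 a i = M1 a i + (-1) * M1 a j := by
    rw [hM2, Matrix.mul_transvection_apply_same]
  have h2j : M2 a j = M1 a j := by
    rw [hM2, Matrix.mul_transvection_apply_of_ne _ _ _ _ h.symm]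
  by_cases hb : b = j
  · subst hb
    rw [Matrix.mul_transvection_apply_same, h2j, h2i, h1j, h1i]
    have : M0 a b + 1 * M0 a i + 1 * (M0 a i + -1 * (M0 a b + 1 * M0 a i)) = M0 a i := by ring
    rw [this]
    exact hw a i
  · rw [Matrix.mul_transvection_apply_of_ne _ _ _ _ hb]
    by_cases hb' : b = i
    · subst hb'
      rw [h2i, h1j, h1i]
      have : M0 a b + -1 * (M0 a j + 1 * M0 a b) = -M0 a j := by ring
      rw [this]
      exact R0_neg (hw a j)
    · rw [hM2, Matrix.mul_transvection_apply_of_ne _ _ _ _ hb', hM1,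
        Matrix.mul_transvection_apply_of_ne _ _ _ _ hb]
      exact hw a b

/-- Row R0 (finite averages). The set `W` of the matrices in `SL n` with entries in `{-1, 0, 1}` and
`g gᵀ = 1` is finite, contains `1`, and `w * kk i j h ∈ W` for `w ∈ W` (the entries of the product are
integers, the rows are orthonormal, so the entries are in `{-1, 0, 1}`). If every `F a` is
antisymmetric under some `kk` then `∑ w ∈ W, F a w = 0` (reindex by right multiplication), so a
constant finite sum of such functions is zero. -/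
theorem avg_zero {n : ℕ} {ι : Type*} [Fintype ι] (F : ι → Fn n) (i j : ι → Fin n)
    (h : ∀ a, i a ≠ j a) (hF : ∀ a g, F a (g * kk (i a) (j a) (h a)) = - F a g) (c : ℝ)
    (hc : ∀ g, ∑ a, F a g = c) : c = 0 := by
  classical
  let W : Finset (SL n) := (R0_fin n).toFinset
  have hmem : ∀ g, g ∈ W ↔ g ∈ R0_W n := fun g => (R0_fin n).mem_toFinset
  have h1 : ∀ a, ∑ w ∈ W, F a w = 0 := by
    intro a
    have hinj : Function.Injective (fun w : SL n => w * kk (i a) (j a) (h a)) :=
      mul_left_injective _
    have himg : W.image (fun w => w * kk (i a) (j a) (h a)) = W := by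
      apply Finset.eq_of_subset_of_card_le
      · intro x hx
        obtain ⟨w, hw, rfl⟩ := Finset.mem_image.mp hx
        rw [hmem] at hw ⊢
        exact R0_mul _ _ _ w hw
      · rw [Finset.card_image_of_injective _ hinj]
    have h2 : ∑ w ∈ W, F a w = ∑ w ∈ W, F a (w * kk (i a) (j a) (h a)) := by
      conv_lhs => rw [← himg]
      rw [Finset.sum_image (fun x _ y _ hxy => hinj hxy)]
    have h3 : ∑ w ∈ W, F a (w * kk (i a) (j a) (h a)) = - ∑ w ∈ W, F a w := by
      rw [← Finset.sum_neg_distrib]
      exact Finset.sum_congr rfl fun w _ => hF a w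
    linarith
  have h4 : ∑ w ∈ W, ∑ a, F a w = (W.card : ℝ) * c := by
    rw [Finset.sum_congr rfl fun w _ => hc w, Finset.sum_const, nsmul_eq_mul]
  rw [Finset.sum_comm, Finset.sum_eq_zero fun a _ => h1 a] at h4
  have hcard : (0 : ℝ) < W.card := by
    exact_mod_cast Finset.card_pos.mpr ⟨1, (hmem 1).mpr (R0_one n)⟩
  rcases mul_eq_zero.mp h4.symm with h5 | h5
  · linarith
  · exact h5

end LibNC27
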