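import Pool.Agent.LibNC27.Defs

set_option autoImplicit false

open Matrix MeasureTheory Topology Filter LibNC38

namespace LibNC27

/-- the sign of the row `a` -/
private def A1b_eps {n : ℕ} (j a : Fin n) : ℝ := if a = j then -1 else 1

private theorem A1b_eps_mul {n : ℕ} (j a : Fin n) : A1b_eps j a * A1b_eps j a = 1 := by
  unfold A1b_eps; split_ifs <;> norm_num

private theorem A1b_mul_tv {n : ℕ} (i j : Fin n) (c : ℝ) (M : Matrix (Fin n) (Fin n) ℝ)
    (a b : Fin n) : (M * Matrix.transvection i j c) a b = M a b + if b = j then c * M a i else 0 := by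
  split_ifs with hb
  · subst hb
    exact Matrix.mul_transvection_apply_same _ _ _ _ _
  · rw [Matrix.mul_transvection_apply_of_ne _ _ _ _ hb, add_zero]

private theorem A1b_K {n : ℕ} (i j : Fin n) (h : i ≠ j) (a b : Fin n) :
    (kk i j h).1 a b = if b = Equiv.swap i j a then A1b_eps j a else 0 := by
  have e : (kk i j h).1 = 1 * Matrix.transvection i j (1 : ℝ) * Matrix.transvection j i (-1) *
      Matrix.transvection i j 1 := by
    rw [one_mul]; rfl
  rw [e, A1b_mul_tv, A1b_mul_tv, A1b_mul_tv, A1b_mul_tv, A1b_mul_tv, A1b_mul_tv]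
  have h' := h.symm
  simp only [Matrix.one_apply, Equiv.swap_apply_def, A1b_eps]
  by_cases ha : a = i
  · subst ha
    by_cases hb : b = a
    · subst hb; simp [h, h']
    · by_cases hb' : b = j
      · subst hb'; simp [h, h']
      · simp [h, h', hb, hb', Ne.symm hb]
  · by_cases ha' : a = j
    · subst ha'
      by_cases hb : b = i
      · subst hb; simp [h, h']
      · by_cases hb' : b = a
        · subst hb'; simp [h, h']
        · simp [h, h', hb, hb', Ne.symm hb']
    · by_cases hb : b = i
      · subst hb; simp [ha, ha', h, h', Ne.symm ha, Ne.symm ha']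
      · by_cases hb' : b = j
        · subst hb'; simp [ha, ha', h, h', Ne.symm ha, Ne.symm ha']
        · simp [ha, ha', h, h', hb, hb', eq_comm]

private theorem A1b_mulT {n : ℕ} (i j : Fin n) (h : i ≠ j) (M : Matrix (Fin n) (Fin n) ℝ)
    (a c : Fin n) : (M * (kk i j h).1ᵀ) a c = M a (Equiv.swap i j c) * A1b_eps j c := by
  rw [Matrix.mul_apply]
  simp only [Matrix.transpose_apply, A1b_K]
  rw [Finset.sum_eq_single (Equiv.swap i j c)]
  · rw [if_pos rfl]
  · intro b _ hb; rw [if_neg hb, mul_zero]
  · intro hb; exact absurd (Finset.mem_univ _) hb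

/-- Row A1b. The Weyl elements. `kk i j h` is the signed permutation matrix with entries
`(i, j) = 1`, `(j, i) = -1`, `(a, a) = 1` for `a ≠ i, j`, and `0` elsewhere. -/
theorem kk_facts {n : ℕ} (i j : Fin n) (h : i ≠ j) :
    (∀ a b, (kk i j h).1 a b = if a = i then (if b = j then 1 else 0) else
      if a = j then (if b = i then -1 else 0) else if a = b then 1 else 0) ∧
    (kk i j h).1 * (kk i j h).1ᵀ = 1 ∧
    (∀ w : V0 n, kk i j h * dgm w = dgm (sw i j w) * kk i j h) ∧
    (∀ w : V0 n, dgm w * kk i j h = kk i j h * dgm (sw i j w)) := by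
  refine ⟨fun a b => ?_, ?_, fun w => ?_, fun w => ?_⟩
  · rw [A1b_K]
    have h' := h.symm
    simp only [Equiv.swap_apply_def, A1b_eps]
    by_cases ha : a = i
    · subst ha; simp [h]
    · by_cases ha' : a = j
      · subst ha'; simp [h']
      · simp [ha, ha', eq_comm]
  · ext a c
    rw [A1b_mulT, A1b_K, Matrix.one_apply]
    by_cases hac : a = c
    · subst hac; rw [if_pos rfl, if_pos rfl, A1b_eps_mul]
    · rw [if_neg (fun e => hac ((Equiv.swap i j).injective e).symm), if_neg hac, zero_mul]
  · apply Subtype.ext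
    ext a c
    show ((kk i j h).1 * Matrix.diagonal fun i => Real.exp (w.1 i)) a c =
      ((Matrix.diagonal fun b => Real.exp (w.1 (Equiv.swap i j b))) * (kk i j h).1) a c
    rw [Matrix.mul_diagonal, Matrix.diagonal_mul, A1b_K]
    split_ifs with hc
    · rw [hc, mul_comm]
    · rw [zero_mul, mul_zero]
  · apply Subtype.ext
    ext a c
    show ((Matrix.diagonal fun i => Real.exp (w.1 i)) * (kk i j h).1) a c =
      ((kk i j h).1 * Matrix.diagonal fun b => Real.exp (w.1 (Equiv.swap i j b))) a c
    rw [Matrix.mul_diagonal, Matrix.diagonal_mul, A1b_K]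
    split_ifs with hc
    · rw [hc, Equiv.swap_apply_self, mul_comm]
    · rw [zero_mul, mul_zero]

/-- Row A1b. The reflections. -/
theorem sw_facts {n : ℕ} (i j : Fin n) (h : i ≠ j) :
    (∀ v w : V0 n, sw i j (v + w) = sw i j v + sw i j w) ∧
    (∀ (c : ℝ) (v : V0 n), sw i j (c • v) = c • sw i j v) ∧
    (∀ v : V0 n, v.1 i = v.1 j → sw i j v = v) ∧ sw i j (Hv i j) = - Hv i j ∧
    (∀ v : V0 n, sw i j (sw i j v) = v) ∧
    (∀ v : V0 n, (kk i j h).1 * Matrix.diagonal (fun a => v.1 a) * (kk i j h).1ᵀ =
      Matrix.diagonal (fun a => (sw i j v).1 a)) := by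
  refine ⟨fun v w => rfl, fun c v => rfl, fun v hv => ?_, ?_, fun v => ?_, fun v => ?_⟩
  · apply Subtype.ext
    ext a
    show v.1 (Equiv.swap i j a) = v.1 a
    rw [Equiv.swap_apply_def]
    by_cases h1 : a = i
    · subst h1; rw [if_pos rfl, hv]
    · by_cases h2 : a = j
      · subst h2; rw [if_neg h1, if_pos rfl, hv]
      · rw [if_neg h1, if_neg h2]
  · apply Subtype.ext
    ext a
    show ((if Equiv.swap i j a = i then (1 : ℝ) else 0) - (if Equiv.swap i j a = j then 1 else 0)) =
      -((if a = i then (1 : ℝ) else 0) - (if a = j then 1 else 0))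
    have h' := h.symm
    rw [Equiv.swap_apply_def]
    by_cases h1 : a = i
    · subst h1; simp [h, h']
    · by_cases h2 : a = j
      · subst h2; simp [h, h']
      · simp [h1, h2]
  · apply Subtype.ext
    ext a
    show v.1 (Equiv.swap i j (Equiv.swap i j a)) = v.1 a
    rw [Equiv.swap_apply_self]
  · ext a c
    rw [A1b_mulT, Matrix.mul_diagonal, A1b_K, Matrix.diagonal_apply]
    by_cases hac : a = c
    · subst hac
      rw [if_pos rfl, if_pos rfl]
      show A1b_eps j a * v.1 (Equiv.swap i j a) * A1b_eps j a = v.1 (Equiv.swap i j a)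
      rw [mul_right_comm, A1b_eps_mul, one_mul]
    · rw [if_neg (fun e => hac ((Equiv.swap i j).injective e).symm), if_neg hac, zero_mul, zero_mul]

end LibNC27
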