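import Pool.Agent.LibNC27.RDefs
import Pool.Agent.LibNC27.A1b

set_option autoImplicit false

open Matrix MeasureTheory Topology Filter LibNC38

namespace LibNC27

private theorem V12_sign {n : ℕ} (U : Mt n) :
    (∏ i : Fin n, (if i.val = 0 then U.det else 1)) = U.det := by
  cases n with
  | zero => simp [Matrix.det_fin_zero]
  | succ m =>
    rw [Fin.prod_univ_succ]
    simp

/-- spectral theorem with a matrix in `SO(n)` -/
private theorem V12_spec {n : ℕ} (w : Mt n) (hw : wᵀ = w) (ht : w.trace = 0) :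
    ∃ (k : SL n) (v : V0 n), Ort k ∧ w = k.1 * dM v * k.1ᵀ := by
  classical
  have hq : w.IsHermitian := by
    rw [Matrix.IsHermitian, Matrix.conjTranspose_eq_transpose_of_trivial, hw]
  set lam : Fin n → ℝ := hq.eigenvalues with hlam
  set U : Mt n := (hq.eigenvectorUnitary : Matrix (Fin n) (Fin n) ℝ) with hU
  have hst : star U = Uᵀ := by
    rw [Matrix.star_eq_conjTranspose, Matrix.conjTranspose_eq_transpose_of_trivial]
  have hUU : U * Uᵀ = 1 := by
    rw [← hst]; exact Unitary.coe_mul_star_self hq.eigenvectorUnitary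
  have hUU' : Uᵀ * U = 1 := by
    rw [← hst]; exact Unitary.coe_star_mul_self hq.eigenvectorUnitary
  have hspec : w = U * Matrix.diagonal lam * Uᵀ := by
    have h := hq.spectral_theorem
    rw [Unitary.conjStarAlgAut_apply] at h
    rw [← hst]
    exact h
  have hdU : U.det * U.det = 1 := by
    have := congrArg Matrix.det hUU
    rwa [Matrix.det_mul, Matrix.det_transpose, Matrix.det_one] at this
  set e : Fin n → ℝ := fun i => if i.val = 0 then U.det else 1 with he
  have hee : ∀ i, e i * e i = 1 := by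
    intro i
    simp only [he]
    split_ifs
    · exact hdU
    · norm_num
  have hde : (U * Matrix.diagonal e).det = 1 := by
    rw [Matrix.det_mul, Matrix.det_diagonal, V12_sign U, hdU]
  have hsum : ∑ i, lam i = 0 := by
    have h1 : w.trace = (Matrix.diagonal lam).trace := by
      rw [hspec, Matrix.trace_mul_comm, ← Matrix.mul_assoc, hUU', Matrix.one_mul]
    rw [ht, Matrix.trace_diagonal] at h1
    exact h1.symm
  refine ⟨⟨U * Matrix.diagonal e, hde⟩, ⟨WithLp.toLp 2 lam, hsum⟩, ?_, ?_⟩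
  · change U * Matrix.diagonal e * (U * Matrix.diagonal e)ᵀ = 1
    rw [Matrix.transpose_mul, Matrix.diagonal_transpose, Matrix.mul_assoc,
      ← Matrix.mul_assoc (Matrix.diagonal e), Matrix.diagonal_mul_diagonal]
    have : (fun i => e i * e i) = fun _ => (1 : ℝ) := funext hee
    rw [this, Matrix.diagonal_one, Matrix.one_mul, hUU]
  · change w = U * Matrix.diagonal e * Matrix.diagonal lam * (U * Matrix.diagonal e)ᵀ
    rw [Matrix.transpose_mul, Matrix.diagonal_transpose]
    have h2 : U * Matrix.diagonal e * Matrix.diagonal lam * (Matrix.diagonal e * Uᵀ)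
        = U * (Matrix.diagonal e * Matrix.diagonal lam * Matrix.diagonal e) * Uᵀ := by
      simp only [Matrix.mul_assoc]
    rw [h2, Matrix.diagonal_mul_diagonal, Matrix.diagonal_mul_diagonal]
    have h3 : (fun i => e i * lam i * e i) = lam := by
      funext i
      rw [mul_right_comm, hee, one_mul]
    rw [h3, ← hspec]

/-- the symmetric traceless matrix which picks the entry `a, b` -/
private noncomputable def V12_w {n : ℕ} (a b : Fin n) : Mt n :=
  (1 / 2 : ℝ) • (Matrix.single a b 1 + Matrix.single b a 1) -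
    (if a = b then (n : ℝ)⁻¹ else 0) • (1 : Mt n)

private theorem V12_w_symm {n : ℕ} (a b : Fin n) : (V12_w a b)ᵀ = V12_w a b := by
  unfold V12_w
  rw [Matrix.transpose_sub, Matrix.transpose_smul, Matrix.transpose_smul, Matrix.transpose_add,
    Matrix.transpose_single, Matrix.transpose_single, Matrix.transpose_one, add_comm]

private theorem V12_w_trace {n : ℕ} (a b : Fin n) : (V12_w a b).trace = 0 := by
  have hn : (n : ℝ) ≠ 0 := by
    have : n ≠ 0 := fun h => by
      subst h
      exact a.elim0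
    exact_mod_cast this
  unfold V12_w
  rw [Matrix.trace_sub, Matrix.trace_smul, Matrix.trace_smul, Matrix.trace_add, Matrix.trace_one,
    Fintype.card_fin]
  by_cases hab : a = b
  · subst hab
    rw [if_pos rfl, Matrix.trace_single_eq_same, smul_eq_mul, smul_eq_mul, inv_mul_cancel₀ hn]
    norm_num
  · rw [if_neg hab, Matrix.trace_single_eq_of_ne _ _ _ hab,
      Matrix.trace_single_eq_of_ne _ _ _ (Ne.symm hab), smul_eq_mul, smul_eq_mul]
    norm_num

private theorem V12_entry {n : ℕ} (A : Mt n) (hA : Aᵀ = A) (ht : A.trace = 0) (a b : Fin n) :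
    (A * V12_w a b).trace = A a b := by
  unfold V12_w
  have h1 : A b a = A a b := by
    conv_lhs => rw [← hA]
    rfl
  rw [Matrix.mul_sub, Matrix.mul_smul, Matrix.mul_smul, Matrix.mul_add, Matrix.mul_one,
    Matrix.trace_sub, Matrix.trace_smul, Matrix.trace_smul, Matrix.trace_add, ht,
    Matrix.trace_mul_single, Matrix.trace_mul_single, smul_zero, sub_zero]
  simp only [MulOpposite.op_one, one_smul, smul_eq_mul]
  rw [h1]
  ring

private theorem V12_dgm_add {n : ℕ} (y z : V0 n) : dgm (y + z) = dgm y * dgm z := by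
  apply Subtype.ext
  change Matrix.diagonal (fun i => Real.exp (y.1 i + z.1 i)) =
    Matrix.diagonal (fun i => Real.exp (y.1 i)) * Matrix.diagonal (fun i => Real.exp (z.1 i))
  rw [Matrix.diagonal_mul_diagonal]
  congr 1
  funext i
  exact Real.exp_add _ _

/-- Row V12. Every symmetric matrix of trace zero is `k dM v kᵀ` with `k` orthogonal of determinant one
(spectral theorem; compare `LibNC38.polar`, change the sign of one column), so a symmetric traceless
`S g` is determined by the numbers `tr (S g * (k dM v kᵀ)) = u v (g * k)`, `S` is continuous (for every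
symmetric traceless `w` the function `tr (S g * w)` is continuous; the entries of `S` are such),
invariant, and `S (g * k) = kᵀ S g k`. The derivative: `tr (S g * dM v) = u v g` (`k = 1`) and `du` with
`x = v`, `T v v = 0`, `⟪v, v⟫ = ‖v‖²`. -/
theorem S_facts {n : ℕ} (Γ : Subgroup (SL n))
    (A : V0 n →ₗ[ℝ] V0 n →ₗ[ℝ] Fn n) (A1 : V0 n →ₗ[ℝ] V0 n →ₗ[ℝ] V0 n →ₗ[ℝ] Fn n)
    (u : V0 n →ₗ[ℝ] Fn n) (T : V0 n →ₗ[ℝ] V0 n →ₗ[ℝ] Fn n) (c : ℝ) (P : Pot Γ A A1 u T c)
    (S : SL n → Mt n) (hS : ∀ g, (S g)ᵀ = S g ∧ (S g).trace = 0)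
    (hSu : ∀ g k, Ort k → ∀ v, u v (g * k) = (S g * (k.1 * dM v * k.1ᵀ)).trace) :
    (∀ a b, Continuous fun g => S g a b) ∧ (∀ γ ∈ Γ, ∀ g, S (γ * g) = S g) ∧
    (∀ g k, Ort k → S (g * k) = k.1ᵀ * S g * k.1) ∧
    (∀ (g : SL n) (v : V0 n) (t : ℝ),
      HasDerivAt (fun t : ℝ => (S (g * dgm (t • v)) * dM v).trace)
        (A v v (g * dgm (t • v)) - c * ‖v‖ ^ 2) t) := by
  have hent : ∀ a b, ∃ (k : SL n) (v : V0 n), Ort k ∧ (∀ g, S g a b = u v (g * k)) := by
    intro a b
    obtain ⟨k, v, hk, hw⟩ := V12_spec (V12_w a b) (V12_w_symm a b) (V12_w_trace a b)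
    refine ⟨k, v, hk, fun g => ?_⟩
    rw [hSu g k hk v, ← hw, V12_entry (S g) (hS g).1 (hS g).2]
  have hone : Ort (1 : SL n) := by
    change (1 : Mt n) * (1 : Mt n)ᵀ = 1
    rw [Matrix.transpose_one, Matrix.one_mul]
  have hu1 : ∀ (g : SL n) (v : V0 n), (S g * dM v).trace = u v g := by
    intro g v
    have h := hSu g 1 hone v
    rw [mul_one] at h
    have h1 : ((1 : SL n).1 * dM v * (1 : SL n).1ᵀ : Mt n) = dM v := by
      change (1 : Mt n) * dM v * (1 : Mt n)ᵀ = dM v
      rw [Matrix.transpose_one, Matrix.one_mul, Matrix.mul_one]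
    rw [h1] at h
    exact h.symm
  refine ⟨?_, ?_, ?_, ?_⟩
  · intro a b
    obtain ⟨k, v, -, h⟩ := hent a b
    have h1 : (fun g => S g a b) = fun g => u v (g * k) := funext h
    rw [h1]
    exact (P.invu v).cont.comp (continuous_id.mul continuous_const)
  · intro γ hγ g
    ext a b
    obtain ⟨k, v, -, h⟩ := hent a b
    rw [h, h, mul_assoc]
    exact (P.invu v).inv γ hγ (g * k)
  · intro g k hk
    have hk' : k.1 * k.1ᵀ = 1 := hk
    have hsy : (k.1ᵀ * S g * k.1)ᵀ = k.1ᵀ * S g * k.1 := by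
      rw [Matrix.transpose_mul, Matrix.transpose_mul, Matrix.transpose_transpose, (hS g).1,
        Matrix.mul_assoc]
    have htr : (k.1ᵀ * S g * k.1).trace = 0 := by
      rw [Matrix.mul_assoc, Matrix.trace_mul_comm, Matrix.mul_assoc, hk', Matrix.mul_one]
      exact (hS g).2
    ext a b
    rw [← V12_entry (S (g * k)) (hS _).1 (hS _).2 a b, ← V12_entry (k.1ᵀ * S g * k.1) hsy htr a b]
    obtain ⟨k', v, hk2, hw⟩ := V12_spec (V12_w a b) (V12_w_symm a b) (V12_w_trace a b)
    have hk2' : k'.1 * k'.1ᵀ = 1 := hk2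
    have hkk : Ort (k * k') := by
      change (k.1 * k'.1) * (k.1 * k'.1)ᵀ = 1
      rw [Matrix.transpose_mul, Matrix.mul_assoc, ← Matrix.mul_assoc k'.1, hk2', Matrix.one_mul, hk']
    rw [hw, ← hSu (g * k) k' hk2 v, mul_assoc, hSu g (k * k') hkk v]
    have h1 : ((k * k' : SL n).1 * dM v * (k * k' : SL n).1ᵀ : Mt n) =
        k.1 * (k'.1 * dM v * k'.1ᵀ) * k.1ᵀ := by
      change (k.1 * k'.1) * dM v * (k.1 * k'.1)ᵀ = _
      rw [Matrix.transpose_mul]
      simp only [Matrix.mul_assoc]
    rw [h1, ← hw]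
    have h2 : S g * (k.1 * V12_w a b * k.1ᵀ) = (S g * k.1 * V12_w a b) * k.1ᵀ := by
      simp only [Matrix.mul_assoc]
    rw [h2, Matrix.trace_mul_comm]
    simp only [Matrix.mul_assoc]
  · intro g v t
    have h1 : (fun t : ℝ => (S (g * dgm (t • v)) * dM v).trace) = fun t : ℝ => u v (g * dgm (t • v)) :=
      funext fun t => hu1 _ v
    rw [h1]
    have h2 := P.du v v (g * dgm (t • v))
    have h3 : (fun g => A v v g + T v v g - c * inner ℝ v v) (g * dgm (t • v)) =
        A v v (g * dgm (t • v)) - c * ‖v‖ ^ 2 := by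
      change A v v (g * dgm (t • v)) + T v v (g * dgm (t • v)) - c * inner ℝ v v = _
      rw [P.diag, add_zero, real_inner_self_eq_norm_sq]
    rw [h3] at h2
    have h4 : HasDerivAt (fun s : ℝ => u v (g * dgm (t • v) * dgm (s • v)))
        (A v v (g * dgm (t • v)) - c * ‖v‖ ^ 2) (t - t) := by
      rw [sub_self]
      exact h2
    have h5 := h4.comp_sub_const t t
    have h6 : (fun x : ℝ => u v (g * dgm (t • v) * dgm ((x - t) • v))) =
        fun t : ℝ => u v (g * dgm (t • v)) := by
      funext x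
      rw [mul_assoc, ← V12_dgm_add, ← add_smul, add_sub_cancel]
    rw [h6] at h5
    exact h5

end LibNC27
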