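import Pool.Agent.LibNC27.RDefs
import Pool.Agent.LibNC27.A1b

set_option autoImplicit false

open Matrix MeasureTheory Topology Filter LibNC38

namespace LibNC27

private theorem V1_mul {n : ℕ} (i j : Fin n) (h : i ≠ j) (t : ℝ) (M : Mt n) (a b : Fin n) :
    (rotM i j t * M) a b = if a = i then Real.cos t * M i b + Real.sin t * M j b
      else if a = j then - Real.sin t * M i b + Real.cos t * M j b else M a b := by
  rw [Matrix.mul_apply]
  by_cases ha : a = i
  · subst ha
    rw [if_pos rfl, Fintype.sum_eq_add a j h]
    · simp [rotM, h.symm]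
    · intro x hx
      simp [rotM, hx.1, hx.2]
  · rw [if_neg ha]
    by_cases hb : a = j
    · subst hb
      rw [if_pos rfl, Fintype.sum_eq_add i a h]
      · simp [rotM, h, h.symm]
      · intro x hx
        simp [rotM, hx.1, hx.2, h.symm]
    · rw [if_neg hb, Fintype.sum_eq_single a]
      · simp [rotM, ha, hb]
      · intro x hx
        simp [rotM, ha, hb, hx.symm]

private theorem V1_transpose {n : ℕ} (i j : Fin n) (h : i ≠ j) (t : ℝ) :
    (rotM i j t)ᵀ = rotM i j (-t) := by
  ext a b
  rw [Matrix.transpose_apply]
  unfold rotM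
  rw [Real.cos_neg, Real.sin_neg, neg_neg]
  by_cases ha : a = i
  · subst ha
    by_cases hb : b = a
    · simp [hb]
    · by_cases hb' : b = j
      · subst hb'
        simp [h, h.symm]
      · simp [hb, hb']
  · by_cases ha' : a = j
    · subst ha'
      by_cases hb : b = i
      · subst hb
        simp [h, h.symm]
      · by_cases hb' : b = a
        · simp [hb', h.symm]
        · simp [hb, hb', ha]
    · by_cases hb : b = i
      · subst hb
        simp [ha, ha']
      · by_cases hb' : b = j
        · subst hb'
          simp [ha, ha', h.symm]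
        · simp [ha, ha', hb, hb', eq_comm]

private theorem V1_zero {n : ℕ} (i j : Fin n) : rotM i j 0 = 1 := by
  ext a b
  unfold rotM
  rw [Real.cos_zero, Real.sin_zero, neg_zero, Matrix.one_apply]
  by_cases ha : a = i
  · subst ha
    by_cases hb : b = a
    · simp [hb]
    · simp [hb, Ne.symm hb]
  · by_cases ha' : a = j
    · subst ha'
      by_cases hb : b = a
      · simp [hb, ha]
      · simp [hb, ha, Ne.symm hb]
    · simp [ha, ha']

private theorem V1_add {n : ℕ} (i j : Fin n) (h : i ≠ j) (s t : ℝ) :
    rotM i j (s + t) = rotM i j s * rotM i j t := by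
  ext a b
  rw [V1_mul i j h]
  unfold rotM
  rw [Real.cos_add, Real.sin_add]
  by_cases ha : a = i
  · subst ha
    by_cases hb : b = a
    · subst hb
      simp [h, h.symm]; ring
    · by_cases hb' : b = j
      · subst hb'
        simp [h.symm]; ring
      · simp [hb, hb', h.symm]
  · by_cases ha' : a = j
    · subst ha'
      by_cases hb : b = i
      · subst hb
        simp [h, h.symm]; ring
      · by_cases hb' : b = a
        · subst hb'
          simp [h.symm]; ring
        · simp [hb, hb', h.symm]
    · simp [ha, ha']

private theorem V1_ort {n : ℕ} (i j : Fin n) (h : i ≠ j) (t : ℝ) :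
    rotM i j t * (rotM i j t)ᵀ = 1 := by
  rw [V1_transpose i j h, ← V1_add i j h, add_neg_cancel, V1_zero]

private theorem V1_det {n : ℕ} (i j : Fin n) (h : i ≠ j) (t : ℝ) : (rotM i j t).det = 1 := by
  have h1 : (rotM i j (t / 2)).det * (rotM i j (t / 2)).det = 1 := by
    have := congrArg Matrix.det (V1_ort i j h (t / 2))
    rwa [Matrix.det_mul, Matrix.det_transpose, Matrix.det_one] at this
  have h2 : rotM i j t = rotM i j (t / 2) * rotM i j (t / 2) := by
    rw [← V1_add i j h, add_halves]
  rw [h2, Matrix.det_mul, h1]

private theorem V1_val {n : ℕ} (i j : Fin n) (h : i ≠ j) (t : ℝ) : (rot i j t).1 = rotM i j t := by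
  have h1 : rot i j t = ⟨rotM i j t, V1_det i j h t⟩ := dif_pos (V1_det i j h t)
  rw [h1]

private theorem V1_comm {n : ℕ} (i j : Fin n) (h : i ≠ j) (t : ℝ) (d : Fin n → ℝ)
    (hd : d i = d j) : rotM i j t * Matrix.diagonal d = Matrix.diagonal d * rotM i j t := by
  ext a b
  rw [Matrix.mul_diagonal, Matrix.diagonal_mul]
  unfold rotM
  by_cases ha : a = i
  · subst ha
    by_cases hb : b = a
    · subst hb
      simp [mul_comm]
    · by_cases hb' : b = j
      · subst hb'
        simp [h.symm, hd, mul_comm]
      · simp [hb, hb']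
  · by_cases ha' : a = j
    · subst ha'
      by_cases hb : b = i
      · subst hb
        simp [h, h.symm, hd, mul_comm]
      · by_cases hb' : b = a
        · subst hb'
          simp [h.symm, mul_comm]
        · simp [hb, hb', ha]
    · by_cases hb : a = b
      · subst hb
        simp [ha, ha']
      · simp [ha, ha', hb]

private theorem V1_conj {n : ℕ} (i j : Fin n) (h : i ≠ j) (t : ℝ) (M : Mt n) (a b : Fin n) :
    (M * (rotM i j t)ᵀ) a b = if b = i then Real.cos t * M a i + Real.sin t * M a j
      else if b = j then - Real.sin t * M a i + Real.cos t * M a j else M a b := by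
  have h1 : M * (rotM i j t)ᵀ = (rotM i j t * Mᵀ)ᵀ := by
    rw [Matrix.transpose_mul, Matrix.transpose_transpose]
  rw [h1, Matrix.transpose_apply, V1_mul i j h]
  rfl

private theorem V1_H {n : ℕ} (i j : Fin n) (h : i ≠ j) (t : ℝ) :
    rotM i j t * dM (Hv i j) * (rotM i j t)ᵀ = Real.cos (2 * t) • dM (Hv i j) -
      Real.sin (2 * t) • (Matrix.single i j (1 : ℝ) + Matrix.single j i (1 : ℝ)) := by
  have hH : ∀ a b, dM (Hv i j) a b = if a = b then ((if a = i then (1 : ℝ) else 0) -
      (if a = j then 1 else 0)) else 0 := by
    intro a b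
    unfold dM
    rw [Matrix.diagonal_apply]
    rfl
  ext a b
  rw [V1_conj i j h]
  simp only [V1_mul i j h, Matrix.sub_apply, Matrix.smul_apply, Matrix.add_apply, hH,
    Matrix.single_apply, smul_eq_mul]
  rw [Real.cos_two_mul, Real.sin_two_mul]
  have hcs := Real.sin_sq_add_cos_sq t
  by_cases ha : a = i
  · subst ha
    by_cases hb : b = a
    · subst hb
      simp [h, h.symm]; nlinarith
    · by_cases hb' : b = j
      · subst hb'
        simp [h, h.symm]; nlinarith
      · simp [hb, hb', h.symm, Ne.symm hb, Ne.symm hb']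
  · by_cases ha' : a = j
    · subst ha'
      by_cases hb : b = i
      · subst hb
        simp [h, h.symm]; nlinarith
      · by_cases hb' : b = a
        · subst hb'
          simp [h, h.symm]; nlinarith
        · simp [hb, hb', h, h.symm, Ne.symm hb, Ne.symm hb']
    · by_cases hb : b = i
      · subst hb
        simp [ha, ha', Ne.symm ha, Ne.symm ha']
      · by_cases hb' : b = j
        · subst hb'
          simp [ha, ha', Ne.symm ha, Ne.symm ha']
        · simp [ha, ha', hb, hb', Ne.symm ha, Ne.symm ha']

/-- Row V1. Rotations. The determinant is one: for instance `rotM i j t = 1 + (c-1)(E_ii+E_jj) +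
s (E_ij - E_ji)`; for `c = cos t ≠ 0` it is `transvection j i (-s/c) * diagonal (c at i, 1/c at j) *
transvection i j (s/c)`, and both sides are continuous in `t`; or `rotM` is orthogonal, so the
determinant is `±1`, continuous in `t`, and `1` at `t = 0`. `rot (π/2) = kk` entrywise. -/
theorem rot_facts {n : ℕ} (i j : Fin n) (h : i ≠ j) :
    (∀ t, (rot i j t).1 = rotM i j t) ∧ (∀ t, Ort (rot i j t)) ∧
    (∀ s t, rot i j (s + t) = rot i j s * rot i j t) ∧ rot i j 0 = 1 ∧
    rot i j (Real.pi / 2) = kk i j h ∧ (Continuous fun t => rot i j t) ∧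
    (∀ (t : ℝ) (w : V0 n), w.1 i = w.1 j → rot i j t * dgm w = dgm w * rot i j t) ∧
    (∀ (t : ℝ) (v : V0 n), v.1 i = v.1 j →
      (rot i j t).1 * dM v * (rot i j t).1ᵀ = dM v) ∧
    (∀ t : ℝ, (rot i j t).1 * dM (Hv i j) * (rot i j t).1ᵀ =
      Real.cos (2 * t) • dM (Hv i j) -
        Real.sin (2 * t) • (Matrix.single i j (1 : ℝ) + Matrix.single j i (1 : ℝ))) := by
  refine ⟨V1_val i j h, ?_, ?_, ?_, ?_, ?_, ?_, ?_, ?_⟩
  · intro t
    unfold Ort
    rw [V1_val i j h]
    exact V1_ort i j h t
  · intro s t
    apply Subtype.ext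
    show (rot i j (s + t)).1 = (rot i j s).1 * (rot i j t).1
    rw [V1_val i j h, V1_val i j h, V1_val i j h]
    exact V1_add i j h s t
  · apply Subtype.ext
    show (rot i j 0).1 = 1
    rw [V1_val i j h]
    exact V1_zero i j
  · apply Subtype.ext
    show (rot i j (Real.pi / 2)).1 = (kk i j h).1
    rw [V1_val i j h]
    ext a b
    rw [(kk_facts i j h).1 a b]
    unfold rotM
    rw [Real.cos_pi_div_two, Real.sin_pi_div_two]
    by_cases ha : a = i
    · subst ha
      by_cases hb : b = a
      · subst hb
        simp [h]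
      · simp [hb]
    · by_cases ha' : a = j
      · subst ha'
        by_cases hb : b = a
        · subst hb
          simp [h.symm]
        · simp [ha, hb]
      · simp [ha, ha']
  · refine Continuous.subtype_mk (f := fun t => (rot i j t).1) ?_ (fun t => (rot i j t).2)
    have h1 : (fun t => (rot i j t).1) = rotM i j := funext (V1_val i j h)
    rw [h1]
    refine continuous_matrix fun a b => ?_
    unfold rotM
    split_ifs
    · exact Real.continuous_cos
    · exact Real.continuous_sin
    · exact continuous_const
    · exact Real.continuous_cos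
    · exact Real.continuous_sin.neg
    · exact continuous_const
    · exact continuous_const
    · exact continuous_const
  · intro t w hw
    apply Subtype.ext
    show (rot i j t).1 * (dgm w).1 = (dgm w).1 * (rot i j t).1
    rw [V1_val i j h]
    exact V1_comm i j h t _ (by show Real.exp (w.1 i) = Real.exp (w.1 j); rw [hw])
  · intro t v hv
    rw [V1_val i j h]
    have h1 : rotM i j t * dM v = dM v * rotM i j t := V1_comm i j h t _ hv
    rw [h1, Matrix.mul_assoc, V1_ort i j h, Matrix.mul_one]
  · intro t
    rw [V1_val i j h]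
    exact V1_H i j h t

end LibNC27
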