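import Pool.Agent.LibNG38.GK4
import Pool.Agent.LibNC27.N1a
import Pool.Agent.LibNC27.A1a
import Pool.Agent.LibNC27.A1b

set_option autoImplicit false

open Matrix MeasureTheory Topology Filter LibNC38
open scoped Matrix.Norms.Elementwise

namespace LibNC27

private theorem N1b_mk3 {E F : Type} [AddCommGroup E] [Module ℝ E] [AddCommGroup F] [Module ℝ F]
    (f : E → E → E → F)
    (h1 : ∀ x x' v w, f (x + x') v w = f x v w + f x' v w)
    (s1 : ∀ (c : ℝ) x v w, f (c • x) v w = c • f x v w)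
    (h2 : ∀ x v v' w, f x (v + v') w = f x v w + f x v' w)
    (s2 : ∀ (c : ℝ) x v w, f x (c • v) w = c • f x v w)
    (h3 : ∀ x v w w', f x v (w + w') = f x v w + f x v w')
    (s3 : ∀ (c : ℝ) x v w, f x v (c • w) = c • f x v w) :
    ∃ J : E →ₗ[ℝ] E →ₗ[ℝ] E →ₗ[ℝ] F, ∀ x v w, J x v w = f x v w := by
  let L : E → E → (E →ₗ[ℝ] F) := fun x v =>
    { toFun := f x v, map_add' := h3 x v, map_smul' := fun c w => s3 c x v w }
  refine ⟨LinearMap.mk₂ ℝ L ?_ ?_ ?_ ?_, fun x v w => rfl⟩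
  · intro x x' v
    exact LinearMap.ext fun w => h1 x x' v w
  · intro c x v
    exact LinearMap.ext fun w => s1 c x v w
  · intro x v v'
    exact LinearMap.ext fun w => h2 x v v' w
  · intro c x v
    exact LinearMap.ext fun w => s2 c x v w

private theorem N1b_mk4 {E F : Type} [AddCommGroup E] [Module ℝ E] [AddCommGroup F] [Module ℝ F]
    (f : E → E → E → E → F)
    (h0 : ∀ x x' y v w, f (x + x') y v w = f x y v w + f x' y v w)
    (s0 : ∀ (c : ℝ) x y v w, f (c • x) y v w = c • f x y v w)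
    (h1 : ∀ x y y' v w, f x (y + y') v w = f x y v w + f x y' v w)
    (s1 : ∀ (c : ℝ) x y v w, f x (c • y) v w = c • f x y v w)
    (h2 : ∀ x y v v' w, f x y (v + v') w = f x y v w + f x y v' w)
    (s2 : ∀ (c : ℝ) x y v w, f x y (c • v) w = c • f x y v w)
    (h3 : ∀ x y v w w', f x y v (w + w') = f x y v w + f x y v w')
    (s3 : ∀ (c : ℝ) x y v w, f x y v (c • w) = c • f x y v w) :
    ∃ J : E →ₗ[ℝ] E →ₗ[ℝ] E →ₗ[ℝ] E →ₗ[ℝ] F, ∀ x y v w, J x y v w = f x y v w := by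
  have h := fun x => N1b_mk3 (f x) (h1 x) (fun c => s1 c x) (h2 x) (fun c => s2 c x) (h3 x)
    (fun c => s3 c x)
  choose L hL using h
  refine ⟨{ toFun := L, map_add' := ?_, map_smul' := ?_ }, fun x y v w => hL x y v w⟩
  · intro x x'
    refine LinearMap.ext fun y => LinearMap.ext fun v => LinearMap.ext fun w => ?_
    simp only [LinearMap.add_apply]
    rw [hL, hL, hL, h0]
  · intro c x
    refine LinearMap.ext fun y => LinearMap.ext fun v => LinearMap.ext fun w => ?_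
    simp only [LinearMap.smul_apply, RingHom.id_apply]
    rw [hL, hL, s0]

private theorem N1b_curve {n : ℕ} (c : ℝ → Mt n) (c' : Mt n) (t : ℝ)
    (h : ∀ a b, HasDerivAt (fun s => c s a b) (c' a b) t) : HasDerivAt c c' t := by
  apply hasDerivAt_pi.2
  intro a
  apply hasDerivAt_pi.2
  intro b
  exact h a b

private theorem N1b_val {n : ℕ} : Continuous fun g : SL n => g.1 := continuous_subtype_val

/-- right multiplication as a continuous linear map -/
private noncomputable def N1bR {n : ℕ} (y : Mt n) : Mt n →L[ℝ] Mt n :=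
  LinearMap.toContinuousLinearMap (LinearMap.mulRight ℝ y)

private theorem N1bR_apply {n : ℕ} (y A : Mt n) : N1bR y A = A * y := rfl

private theorem N1b_tan {n : ℕ} (g : SL n) (v : Mt n) (hv : vᵀ = v) (ht : v.trace = 0) :
    IsTan (act g (o n)) (g.1 * v * g.1ᵀ) := by
  constructor
  · rw [Matrix.transpose_mul, Matrix.transpose_mul, Matrix.transpose_transpose, hv,
      Matrix.mul_assoc]
  · have hdet : IsUnit g.1.det := by rw [g.2]; exact isUnit_one
    have hdetT : IsUnit g.1ᵀ.det := by rw [Matrix.det_transpose]; exact hdet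
    have h1 : (act g (o n)).1 = g.1 * g.1ᵀ := by
      show g.1 * (1 : Mt n) * g.1ᵀ = g.1 * g.1ᵀ
      rw [Matrix.mul_one]
    rw [h1, Matrix.mul_inv_rev]
    have h2 : (g.1ᵀ)⁻¹ * g.1⁻¹ * (g.1 * v * g.1ᵀ) = (g.1ᵀ)⁻¹ * v * g.1ᵀ := by
      calc (g.1ᵀ)⁻¹ * g.1⁻¹ * (g.1 * v * g.1ᵀ) = (g.1ᵀ)⁻¹ * (g.1⁻¹ * g.1) * v * g.1ᵀ := by
            simp only [Matrix.mul_assoc]
        _ = (g.1ᵀ)⁻¹ * v * g.1ᵀ := by rw [Matrix.nonsing_inv_mul _ hdet, Matrix.mul_one]
    rw [h2, Matrix.trace_mul_comm, ← Matrix.mul_assoc, Matrix.mul_nonsing_inv _ hdetT,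
      Matrix.one_mul, ht]

private theorem N1b_inv {n : ℕ} (Γ : Subgroup (SL n)) (κ : PD n → Fm n) (hκ : FmOK Γ κ)
    (γ : SL n) (hγ : γ ∈ Γ) (v w : Mt n) (hv : vᵀ = v) (tv : v.trace = 0) (hw : wᵀ = w)
    (tw : w.trace = 0) (g : SL n) : Jf κ v w (γ * g) = Jf κ v w g := by
  have hact : act (γ * g) (o n) = act γ (act g (o n)) := by
    apply Subtype.ext
    show (γ.1 * g.1) * (1 : Mt n) * (γ.1 * g.1)ᵀ = γ.1 * (g.1 * (1 : Mt n) * g.1ᵀ) * γ.1ᵀ
    rw [Matrix.transpose_mul]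
    simp only [Matrix.mul_assoc]
  have hmul : ∀ u : Mt n, (γ * g).1 * u * (γ * g).1ᵀ = γ.1 * (g.1 * u * g.1ᵀ) * γ.1ᵀ := by
    intro u
    show (γ.1 * g.1) * u * (γ.1 * g.1)ᵀ = γ.1 * (g.1 * u * g.1ᵀ) * γ.1ᵀ
    rw [Matrix.transpose_mul]
    simp only [Matrix.mul_assoc]
  unfold Jf
  rw [hact, hmul, hmul]
  have h1 := hκ.inv γ hγ (act g (o n)) _ (N1b_tan g v hv tv)
  have h2 := hκ.inv γ hγ (act g (o n)) _ (N1b_tan g w hw tw)
  have h3 := hκ.inv γ hγ (act g (o n)) _ (N1b_tan g (v + w)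
    (by rw [Matrix.transpose_add, hv, hw]) (by rw [Matrix.trace_add, tv, tw, add_zero]))
  have e1 : g.1 * (v + w) * g.1ᵀ = g.1 * v * g.1ᵀ + g.1 * w * g.1ᵀ := by
    rw [Matrix.mul_add, Matrix.add_mul]
  have e2 : γ.1 * (g.1 * v * g.1ᵀ + g.1 * w * g.1ᵀ) * γ.1ᵀ =
      γ.1 * (g.1 * v * g.1ᵀ) * γ.1ᵀ + γ.1 * (g.1 * w * g.1ᵀ) * γ.1ᵀ := by
    rw [Matrix.mul_add, Matrix.add_mul]
  rw [e1, e2] at h3
  simp only [map_add, LinearMap.add_apply] at h3
  have s1 := hκ.symm (act γ (act g (o n))) (γ.1 * (g.1 * w * g.1ᵀ) * γ.1ᵀ)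
    (γ.1 * (g.1 * v * g.1ᵀ) * γ.1ᵀ)
  have s2 := hκ.symm (act g (o n)) (g.1 * w * g.1ᵀ) (g.1 * v * g.1ᵀ)
  linarith

/-- Row N1b. The jet. `J v w g = Jt v w g.1`, `J1 x v w g = fderiv ℝ (Jt v w) g.1 (g.1 * x)`,
`J2 x y v w g = fderiv ℝ (fun A => fderiv ℝ (Jt v w) A (A * y)) g.1 (g.1 * x)`. Linear in all arguments
(`Jt v w` is differentiable at `g.1`, so `fderiv` is additive in `Jt`). `d1`, `d2`: chain rule
(`HasFDerivAt.comp_hasDerivAt`; the curve is differentiable entrywise, hence as a curve of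
matrices). `ort1`: differentiate `Jt v w (A k) = Jt (k v kᵀ) (k w kᵀ) A` at `A = g` in the direction
`g k x kᵀ`. `com2`: `J2 x y = D² Jt (g x, g y) + D Jt (g x y)`, symmetric second derivative
(`ContDiffAt.isSymmSndFDerivAt`). `sym0`: `Jf κ v w = Jf κ w v` by the symmetry of `κ`. `inv`: `g v gᵀ` is
tangent at `act g (o n)`, `γ` acts, and polarization of `FmOK.inv` with `FmOK.symm`. -/
theorem jm_exists {n : ℕ} (Γ : Subgroup (SL n)) (κ : PD n → Fm n) (hκ : FmOK Γ κ)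
    (V : Set (Mt n)) (Jt : Mt n →ₗ[ℝ] Mt n →ₗ[ℝ] (Mt n → ℝ)) (hV : IsOpen V)
    (hg : ∀ g : SL n, g.1 ∈ V) (hk : ∀ A ∈ V, ∀ k : SL n, Ort k → A * k.1 ∈ V)
    (hs : ∀ v w, ContDiffOn ℝ 2 (Jt v w) V) (hJ : ∀ v w (g : SL n), Jt v w g.1 = Jf κ v w g)
    (ho : ∀ k : SL n, Ort k → ∀ v w A,
      Jt v w (A * k.1) = Jt (k.1 * v * k.1ᵀ) (k.1 * w * k.1ᵀ) A) :
    ∃ (J : Mt n →ₗ[ℝ] Mt n →ₗ[ℝ] Fn n) (J1 : Mt n →ₗ[ℝ] Mt n →ₗ[ℝ] Mt n →ₗ[ℝ] Fn n)
      (J2 : Mt n →ₗ[ℝ] Mt n →ₗ[ℝ] Mt n →ₗ[ℝ] Mt n →ₗ[ℝ] Fn n),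
      (∀ v w g, J v w g = Jf κ v w g) ∧ Jm Γ J J1 J2 := by
  have hcd : ∀ v w, ∀ A ∈ V, ContDiffAt ℝ 2 (Jt v w) A :=
    fun v w A hA => (hs v w).contDiffAt (hV.mem_nhds hA)
  have hdiff : ∀ v w, ∀ A ∈ V, DifferentiableAt ℝ (Jt v w) A :=
    fun v w A hA => (hcd v w A hA).differentiableAt (by norm_num)
  let G : Mt n → Mt n → Mt n → Mt n → ℝ := fun y v w A => fderiv ℝ (Jt v w) A (A * y)
  have hGcd : ∀ y v w, ContDiffOn ℝ 1 (G y v w) V := fun y v w =>
    ((hs v w).fderiv_of_isOpen hV (by norm_num)).clm_apply (N1bR y).contDiff.contDiffOn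
  have hGdiff : ∀ y v w, ∀ A ∈ V, DifferentiableAt ℝ (G y v w) A :=
    fun y v w A hA => ((hGcd y v w).contDiffAt (hV.mem_nhds hA)).differentiableAt (by norm_num)
  -- additivity of the first derivative
  have a1 : ∀ v v' w, ∀ A ∈ V, fderiv ℝ (Jt (v + v') w) A =
      fderiv ℝ (Jt v w) A + fderiv ℝ (Jt v' w) A := by
    intro v v' w A hA
    have h : Jt (v + v') w = Jt v w + Jt v' w := by rw [map_add, LinearMap.add_apply]
    rw [h]
    exact fderiv_add (hdiff v w A hA) (hdiff v' w A hA)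
  have a2 : ∀ (c : ℝ) v w, ∀ A ∈ V, fderiv ℝ (Jt (c • v) w) A = c • fderiv ℝ (Jt v w) A := by
    intro c v w A hA
    have h : Jt (c • v) w = c • Jt v w := by rw [map_smul, LinearMap.smul_apply]
    rw [h]
    exact fderiv_const_smul (hdiff v w A hA) c
  have a3 : ∀ v w w', ∀ A ∈ V, fderiv ℝ (Jt v (w + w')) A =
      fderiv ℝ (Jt v w) A + fderiv ℝ (Jt v w') A := by
    intro v w w' A hA
    have h : Jt v (w + w') = Jt v w + Jt v w' := by rw [map_add]
    rw [h]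
    exact fderiv_add (hdiff v w A hA) (hdiff v w' A hA)
  have a4 : ∀ (c : ℝ) v w, ∀ A ∈ V, fderiv ℝ (Jt v (c • w)) A = c • fderiv ℝ (Jt v w) A := by
    intro c v w A hA
    have h : Jt v (c • w) = c • Jt v w := by rw [map_smul]
    rw [h]
    exact fderiv_const_smul (hdiff v w A hA) c
  -- additivity of the second derivative
  have b0 : ∀ y y' v w, ∀ A ∈ V, fderiv ℝ (G (y + y') v w) A =
      fderiv ℝ (G y v w) A + fderiv ℝ (G y' v w) A := by
    intro y y' v w A hA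
    have h : G (y + y') v w = G y v w + G y' v w := by
      funext B
      show fderiv ℝ (Jt v w) B (B * (y + y')) = fderiv ℝ (Jt v w) B (B * y) +
        fderiv ℝ (Jt v w) B (B * y')
      rw [Matrix.mul_add, map_add]
    rw [h]
    exact fderiv_add (hGdiff y v w A hA) (hGdiff y' v w A hA)
  have b0' : ∀ (c : ℝ) y v w, ∀ A ∈ V, fderiv ℝ (G (c • y) v w) A = c • fderiv ℝ (G y v w) A := by
    intro c y v w A hA
    have h : G (c • y) v w = c • G y v w := by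
      funext B
      show fderiv ℝ (Jt v w) B (B * (c • y)) = c • fderiv ℝ (Jt v w) B (B * y)
      rw [Matrix.mul_smul, map_smul]
    rw [h]
    exact fderiv_const_smul (hGdiff y v w A hA) c
  have b1 : ∀ y v v' w, ∀ A ∈ V, fderiv ℝ (G y (v + v') w) A =
      fderiv ℝ (G y v w) A + fderiv ℝ (G y v' w) A := by
    intro y v v' w A hA
    have h : G y (v + v') w =ᶠ[𝓝 A] G y v w + G y v' w := by
      filter_upwards [hV.mem_nhds hA] with B hB
      show fderiv ℝ (Jt (v + v') w) B (B * y) = fderiv ℝ (Jt v w) B (B * y) +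
        fderiv ℝ (Jt v' w) B (B * y)
      rw [a1 v v' w B hB]; rfl
    rw [h.fderiv_eq]
    exact fderiv_add (hGdiff y v w A hA) (hGdiff y v' w A hA)
  have b1' : ∀ (c : ℝ) y v w, ∀ A ∈ V, fderiv ℝ (G y (c • v) w) A = c • fderiv ℝ (G y v w) A := by
    intro c y v w A hA
    have h : G y (c • v) w =ᶠ[𝓝 A] c • G y v w := by
      filter_upwards [hV.mem_nhds hA] with B hB
      show fderiv ℝ (Jt (c • v) w) B (B * y) = c • fderiv ℝ (Jt v w) B (B * y)
      rw [a2 c v w B hB]; rfl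
    rw [h.fderiv_eq]
    exact fderiv_const_smul (hGdiff y v w A hA) c
  have b2 : ∀ y v w w', ∀ A ∈ V, fderiv ℝ (G y v (w + w')) A =
      fderiv ℝ (G y v w) A + fderiv ℝ (G y v w') A := by
    intro y v w w' A hA
    have h : G y v (w + w') =ᶠ[𝓝 A] G y v w + G y v w' := by
      filter_upwards [hV.mem_nhds hA] with B hB
      show fderiv ℝ (Jt v (w + w')) B (B * y) = fderiv ℝ (Jt v w) B (B * y) +
        fderiv ℝ (Jt v w') B (B * y)
      rw [a3 v w w' B hB]; rfl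
    rw [h.fderiv_eq]
    exact fderiv_add (hGdiff y v w A hA) (hGdiff y v w' A hA)
  have b2' : ∀ (c : ℝ) y v w, ∀ A ∈ V, fderiv ℝ (G y v (c • w)) A = c • fderiv ℝ (G y v w) A := by
    intro c y v w A hA
    have h : G y v (c • w) =ᶠ[𝓝 A] c • G y v w := by
      filter_upwards [hV.mem_nhds hA] with B hB
      show fderiv ℝ (Jt v (c • w)) B (B * y) = c • fderiv ℝ (Jt v w) B (B * y)
      rw [a4 c v w B hB]; rfl
    rw [h.fderiv_eq]
    exact fderiv_const_smul (hGdiff y v w A hA) c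
  -- the three jets
  let J : Mt n →ₗ[ℝ] Mt n →ₗ[ℝ] Fn n := LinearMap.mk₂ ℝ (fun v w => fun g : SL n => Jt v w g.1)
    (fun v v' w => by funext g; simp) (fun c v w => by funext g; simp)
    (fun v w w' => by funext g; simp) (fun c v w => by funext g; simp)
  have hJa : ∀ v w (g : SL n), J v w g = Jt v w g.1 := fun v w g => rfl
  obtain ⟨J1, hJ1⟩ := N1b_mk3 (E := Mt n) (F := Fn n)
    (fun x v w g => fderiv ℝ (Jt v w) g.1 (g.1 * x))
    (fun x x' v w => by funext g; simp [Matrix.mul_add])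
    (fun c x v w => by funext g; simp)
    (fun x v v' w => by
      funext g
      show fderiv ℝ (Jt (v + v') w) g.1 (g.1 * x) = _
      rw [a1 v v' w g.1 (hg g)]; rfl)
    (fun c x v w => by
      funext g
      show fderiv ℝ (Jt (c • v) w) g.1 (g.1 * x) = _
      rw [a2 c v w g.1 (hg g)]; rfl)
    (fun x v w w' => by
      funext g
      show fderiv ℝ (Jt v (w + w')) g.1 (g.1 * x) = _
      rw [a3 v w w' g.1 (hg g)]; rfl)
    (fun c x v w => by
      funext g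
      show fderiv ℝ (Jt v (c • w)) g.1 (g.1 * x) = _
      rw [a4 c v w g.1 (hg g)]; rfl)
  obtain ⟨J2, hJ2⟩ := N1b_mk4 (E := Mt n) (F := Fn n)
    (fun x y v w g => fderiv ℝ (G y v w) g.1 (g.1 * x))
    (fun x x' y v w => by funext g; simp [Matrix.mul_add])
    (fun c x y v w => by funext g; simp)
    (fun x y y' v w => by funext g; simp [b0 y y' v w g.1 (hg g)])
    (fun c x y v w => by funext g; simp [b0' c y v w g.1 (hg g)])
    (fun x y v v' w => by funext g; simp [b1 y v v' w g.1 (hg g)])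
    (fun c x y v w => by funext g; simp [b1' c y v w g.1 (hg g)])
    (fun x y v w w' => by funext g; simp [b2 y v w w' g.1 (hg g)])
    (fun c x y v w => by funext g; simp [b2' c y v w g.1 (hg g)])
  have hR : ∀ y : Mt n, Continuous fun g : SL n => g.1 * y := fun y =>
    (N1bR y).continuous.comp N1b_val
  refine ⟨J, J1, J2, fun v w g => hJ v w g, ?_⟩
  refine
    { cont0 := ?_
      cont1 := ?_
      cont2 := ?_
      sym0 := ?_
      inv := ?_
      ort0 := ?_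
      ort1 := ?_
      d1 := ?_
      d2 := ?_
      com2 := ?_ }
  · intro v w
    exact (hs v w).continuousOn.comp_continuous N1b_val hg
  · intro x v w
    rw [hJ1]
    have h : Continuous fun g : SL n => fderiv ℝ (Jt v w) g.1 :=
      ((hs v w).continuousOn_fderiv_of_isOpen hV (by norm_num)).comp_continuous N1b_val hg
    exact h.clm_apply (hR x)
  · intro x y v w
    rw [hJ2]
    have h : Continuous fun g : SL n => fderiv ℝ (G y v w) g.1 :=
      ((hGcd y v w).continuousOn_fderiv_of_isOpen hV le_rfl).comp_continuous N1b_val hg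
    exact h.clm_apply (hR x)
  · intro v w
    funext g
    rw [hJa, hJa, hJ, hJ]
    exact hκ.symm _ _ _
  · intro γ hγ v w hv tv hw tw g
    rw [hJa, hJa, hJ, hJ]
    exact N1b_inv Γ κ hκ γ hγ v w hv tv hw tw g
  · intro k hk' v w g
    rw [hJa, hJa]
    exact ho k hk' v w g.1
  · intro k hk' x v w g
    rw [hJ1, hJ1]
    show fderiv ℝ (Jt v w) (g.1 * k.1) (g.1 * k.1 * x) =
      fderiv ℝ (Jt (k.1 * v * k.1ᵀ) (k.1 * w * k.1ᵀ)) g.1 (g.1 * (k.1 * x * k.1ᵀ))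
    have e : Jt (k.1 * v * k.1ᵀ) (k.1 * w * k.1ᵀ) = fun A => Jt v w (N1bR k.1 A) := by
      funext A
      exact (ho k hk' v w A).symm
    have hd : HasFDerivAt (fun A => Jt v w (N1bR k.1 A))
        ((fderiv ℝ (Jt v w) (g.1 * k.1)).comp (N1bR k.1)) g.1 := by
      have h1 : HasFDerivAt (Jt v w) (fderiv ℝ (Jt v w) (g.1 * k.1)) (N1bR k.1 g.1) :=
        (hdiff v w _ (hk g.1 (hg g) k hk')).hasFDerivAt
      exact h1.comp g.1 (N1bR k.1).hasFDerivAt
    rw [e, hd.fderiv]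
    show _ = fderiv ℝ (Jt v w) (g.1 * k.1) (g.1 * (k.1 * x * k.1ᵀ) * k.1)
    have hkT : k.1ᵀ * k.1 = 1 := mul_eq_one_comm.1 hk'
    congr 1
    calc g.1 * k.1 * x = g.1 * k.1 * x * (k.1ᵀ * k.1) := by rw [hkT, Matrix.mul_one]
      _ = g.1 * (k.1 * x * k.1ᵀ) * k.1 := by simp only [Matrix.mul_assoc]
  · intro x v w c hc
    rw [hJ1]
    have h1 : HasDerivAt (fun s => (c s).1) ((c 0).1 * x) 0 := N1b_curve _ _ _ hc
    exact (hdiff v w _ (hg (c 0))).hasFDerivAt.comp_hasDerivAt (0 : ℝ) h1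
  · intro x y v w c hc
    rw [hJ2]
    simp only [hJ1]
    have h1 : HasDerivAt (fun s => (c s).1) ((c 0).1 * x) 0 := N1b_curve _ _ _ hc
    exact (hGdiff y v w _ (hg (c 0))).hasFDerivAt.comp_hasDerivAt (0 : ℝ) h1
  · intro x y v w hxy
    funext g
    rw [hJ2, hJ2]
    have hD : ∀ y : Mt n, ∀ h : Mt n, fderiv ℝ (G y v w) g.1 h =
        fderiv ℝ (fderiv ℝ (Jt v w)) g.1 h (g.1 * y) + fderiv ℝ (Jt v w) g.1 (h * y) := by
      intro y h
      have h1 : HasFDerivAt (fderiv ℝ (Jt v w)) (fderiv ℝ (fderiv ℝ (Jt v w)) g.1) g.1 :=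
        (((hcd v w g.1 (hg g)).fderiv_right (m := 1) (by norm_num)).differentiableAt
          (by norm_num)).hasFDerivAt
      have h2 : HasFDerivAt (fun A : Mt n => A * y) (N1bR y) g.1 := (N1bR y).hasFDerivAt
      have h3 := h1.clm_apply h2
      have h4 : fderiv ℝ (G y v w) g.1 = _ := h3.fderiv
      rw [h4]
      show fderiv ℝ (Jt v w) g.1 (h * y) + fderiv ℝ (fderiv ℝ (Jt v w)) g.1 h (g.1 * y) = _
      ring
    have hsym := (hcd v w g.1 (hg g)).isSymmSndFDerivAt (by simp)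
    show fderiv ℝ (G y v w) g.1 (g.1 * x) = fderiv ℝ (G x v w) g.1 (g.1 * y)
    have e1 := hsym.eq (g.1 * x) (g.1 * y)
    have e2 : g.1 * x * y = g.1 * y * x := by rw [Matrix.mul_assoc, Matrix.mul_assoc, hxy]
    have e3 := congrArg (fderiv ℝ (Jt v w) g.1) e2
    rw [hD, hD]
    exact congrArg₂ (fun a b : ℝ => a + b) e1 e3

end LibNC27
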