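import Pool.Agent.LibNC27.Defs
import Pool.Agent.LibNC38.B1

set_option autoImplicit false

open Matrix MeasureTheory Topology Filter LibNC38

namespace LibNC27

private theorem A3_add {n : ℕ} (y z : V0 n) : dgm (y + z) = dgm y * dgm z := flat_facts.2.1 y z

private theorem A3_zero {n : ℕ} : dgm (0 : V0 n) = 1 := flat_facts.2.2.2.2.2.2.2.2.2.2.2

private theorem A3_cont {n : ℕ} : Continuous (dgm : V0 n → SL n) :=
  flat_facts.2.2.2.2.2.2.2.2.2.1

private theorem A3_path {n : ℕ} (F : Fn n) (hF : Continuous F) (g : SL n) (w : V0 n) :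
    Continuous fun s : ℝ => F (g * dgm (s • w)) := by
  have h1 : Continuous fun s : ℝ => dgm (s • w) :=
    A3_cont.comp (continuous_id.smul continuous_const)
  exact hF.comp (continuous_const.mul h1)

/-- Row A3. Calculus with `Rd`: derivative at every time, fundamental theorem of calculus, linear
combinations of functions, derivative along a linear combination of directions
(`F (g e^((s+h)(x+y))) - F (g e^(s(x+y)))` is the sum of two increments along `x` and along `y`; each is
an integral of the continuous functions `F', F''`; divide by `h`), uniqueness. -/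
theorem Rd_at {n : ℕ} (w : V0 n) (F F' : Fn n) (h : Rd w F F') (g : SL n) (t : ℝ) :
    HasDerivAt (fun t : ℝ => F (g * dgm (t • w))) (F' (g * dgm (t • w))) t := by
  have h1 := h (g * dgm (t • w))
  have h2 : HasDerivAt (fun s : ℝ => F (g * dgm (t • w) * dgm (s • w)))
      (F' (g * dgm (t • w))) (t - t) := by
    rw [sub_self]; exact h1
  have h3 := HasDerivAt.comp_sub_const t t h2
  have e : (fun s : ℝ => F (g * dgm (t • w) * dgm ((s - t) • w)))
      = fun s : ℝ => F (g * dgm (s • w)) := by
    funext s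
    rw [mul_assoc, ← A3_add, ← add_smul]
    congr 3
    ring_nf
  rw [e] at h3
  exact h3

theorem Rd_ftc {n : ℕ} (w : V0 n) (F F' : Fn n) (h : Rd w F F') (hF' : Continuous F') (g : SL n)
    (t : ℝ) : ∫ s in (0 : ℝ)..t, F' (g * dgm (s • w)) = F (g * dgm (t • w)) - F g := by
  have h1 := intervalIntegral.integral_eq_sub_of_hasDerivAt
    (f := fun s : ℝ => F (g * dgm (s • w))) (f' := fun s : ℝ => F' (g * dgm (s • w)))
    (a := 0) (b := t) (fun s _ => Rd_at w F F' h g s)
    ((A3_path F' hF' g w).intervalIntegrable _ _)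
  rw [h1, zero_smul, A3_zero, mul_one]

/-- conversely an integral formula gives the derivative -/
theorem Rd_of_int {n : ℕ} (w : V0 n) (F F' : Fn n) (hF' : Continuous F')
    (h : ∀ g (t : ℝ), F (g * dgm (t • w)) - F g = ∫ s in (0 : ℝ)..t, F' (g * dgm (s • w))) :
    Rd w F F' := by
  intro g
  have h1 := ((A3_path F' hF' g w).integral_hasStrictDerivAt 0 0).hasDerivAt
  have h2 := h1.const_add (F g)
  have e : (fun t : ℝ => F g + ∫ s in (0 : ℝ)..t, F' (g * dgm (s • w)))
      = fun t : ℝ => F (g * dgm (t • w)) := by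
    funext t
    rw [← h g t]; ring
  rw [e, zero_smul, A3_zero, mul_one] at h2
  exact h2

theorem Rd_uniq {n : ℕ} (w : V0 n) (F F' F'' : Fn n) (h : Rd w F F') (h' : Rd w F F'') :
    F' = F'' := by
  funext g
  exact (h g).unique (h' g)

theorem Rd_add {n : ℕ} (w : V0 n) (F G F' G' : Fn n) (h : Rd w F F') (h' : Rd w G G') :
    Rd w (F + G) (F' + G') := by
  intro g
  exact (h g).add (h' g)

theorem Rd_smul {n : ℕ} (w : V0 n) (F F' : Fn n) (c : ℝ) (h : Rd w F F') :
    Rd w (c • F) (c • F') := by
  intro g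
  exact (h g).const_mul c

private theorem A3_mul (ψ : ℝ → ℝ) (hψ : ContinuousAt ψ 0) :
    HasDerivAt (fun t : ℝ => t * ψ t) (ψ 0) 0 := by
  rw [hasDerivAt_iff_tendsto_slope_zero]
  have h1 : Tendsto ψ (𝓝[≠] 0) (𝓝 (ψ 0)) := hψ.tendsto.mono_left nhdsWithin_le_nhds
  refine h1.congr' ?_
  filter_upwards [self_mem_nhdsWithin] with t ht
  have ht' : t ≠ 0 := ht
  rw [zero_add, zero_mul, sub_zero, smul_eq_mul, ← mul_assoc, inv_mul_cancel₀ ht', one_mul]

theorem Rd_dir {n : ℕ} (x y : V0 n) (F F' F'' : Fn n) (h : Rd x F F') (h' : Rd y F F'')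
    (hF' : Continuous F') (hF'' : Continuous F'') (a b : ℝ) :
    Rd (a • x + b • y) F (a • F' + b • F'') := by
  intro g
  set ψ1 : ℝ → ℝ := fun t => ∫ s in (0 : ℝ)..1, F' (g * dgm ((t * a * s) • x)) with hψ1
  set ψ2 : ℝ → ℝ := fun t =>
    ∫ s in (0 : ℝ)..1, F'' (g * dgm ((t * a) • x) * dgm ((t * b * s) • y)) with hψ2
  have c1 : Continuous ψ1 := by
    refine intervalIntegral.continuous_parametric_intervalIntegral_of_continuous' ?_ 0 1
    have h1 : Continuous fun p : ℝ × ℝ => dgm ((p.1 * a * p.2) • x) :=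
      A3_cont.comp (((continuous_fst.mul continuous_const).mul continuous_snd).smul
        continuous_const)
    exact hF'.comp (continuous_const.mul h1)
  have c2 : Continuous ψ2 := by
    refine intervalIntegral.continuous_parametric_intervalIntegral_of_continuous' ?_ 0 1
    have h1 : Continuous fun p : ℝ × ℝ => dgm ((p.1 * a) • x) :=
      A3_cont.comp ((continuous_fst.mul continuous_const).smul continuous_const)
    have h2 : Continuous fun p : ℝ × ℝ => dgm ((p.1 * b * p.2) • y) :=
      A3_cont.comp (((continuous_fst.mul continuous_const).mul continuous_snd).smul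
        continuous_const)
    exact hF''.comp ((continuous_const.mul h1).mul h2)
  have e1 : ∀ t : ℝ, F (g * dgm ((t * a) • x)) - F g = t * (a * ψ1 t) := by
    intro t
    rw [← Rd_ftc x F F' h hF' g (t * a)]
    have h1 := intervalIntegral.smul_integral_comp_mul_left
      (a := 0) (b := 1) (fun s : ℝ => F' (g * dgm (s • x))) (t * a)
    rw [mul_zero, mul_one] at h1
    rw [← h1, smul_eq_mul, mul_assoc]
  have e2 : ∀ t : ℝ, F (g * dgm ((t * a) • x) * dgm ((t * b) • y)) - F (g * dgm ((t * a) • x))
      = t * (b * ψ2 t) := by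
    intro t
    rw [← Rd_ftc y F F'' h' hF'' (g * dgm ((t * a) • x)) (t * b)]
    have h1 := intervalIntegral.smul_integral_comp_mul_left
      (a := 0) (b := 1) (fun s : ℝ => F'' (g * dgm ((t * a) • x) * dgm (s • y))) (t * b)
    rw [mul_zero, mul_one] at h1
    rw [← h1, smul_eq_mul, mul_assoc]
  have e3 : (fun t : ℝ => F (g * dgm (t • (a • x + b • y))))
      = fun t : ℝ => F g + t * (a * ψ1 t + b * ψ2 t) := by
    funext t
    have h1 : dgm (t • (a • x + b • y)) = dgm ((t * a) • x) * dgm ((t * b) • y) := by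
      rw [← A3_add, smul_add, smul_smul, smul_smul]
    rw [h1, ← mul_assoc]
    have h2 := e1 t
    have h3 := e2 t
    linear_combination h2 + h3
  rw [e3]
  have hψ : ContinuousAt (fun t : ℝ => a * ψ1 t + b * ψ2 t) 0 :=
    ((continuous_const.mul c1).add (continuous_const.mul c2)).continuousAt
  have h4 := (A3_mul _ hψ).const_add (F g)
  have e4 : a * ψ1 0 + b * ψ2 0 = (a • F' + b • F'') g := by
    have h5 : ψ1 0 = F' g := by
      simp only [hψ1, zero_mul, zero_smul, A3_zero, mul_one]
      rw [intervalIntegral.integral_const]; simp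
    have h6 : ψ2 0 = F'' g := by
      simp only [hψ2, zero_mul, zero_smul, A3_zero, mul_one]
      rw [intervalIntegral.integral_const]; simp
    rw [h5, h6]
    rfl
  rw [← e4]
  exact h4

end LibNC27
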