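import Pool.Agent.LibNC27.RDefs
import Pool.Agent.LibNC27.A1a
import Pool.Agent.LibNC27.A1b
import Pool.Agent.LibNC27.A3

set_option autoImplicit false

open Matrix MeasureTheory Topology Filter LibNC38

namespace LibNC27

private theorem N2_curve {n : ℕ} {x : Mt n} {c : ℝ → SL n} (h0 : c 0 = 1)
    (hc : ∀ a b, HasDerivAt (fun s => (c s).1 a b) (x a b) 0) (g : SL n) :
    ∀ a b, HasDerivAt (fun s => (g * c s).1 a b) (((g * c 0).1 * x) a b) 0 := by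
  intro a b
  rw [h0, mul_one]
  have h1 : (fun s => (g * c s).1 a b) = fun s => ∑ k, g.1 a k * (c s).1 k b := by
    funext s
    rw [Matrix.SpecialLinearGroup.coe_mul, Matrix.mul_apply]
  rw [h1, Matrix.mul_apply]
  exact HasDerivAt.fun_sum fun k _ => (hc k b).const_mul (g.1 a k)

private theorem N2_tvc {n : ℕ} (i j : Fin n) (h : i ≠ j) (a b : Fin n) :
    HasDerivAt (fun s : ℝ => (tv i j h s).1 a b) ((Matrix.single i j (1 : ℝ) : Mt n) a b) 0 := by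
  have h1 : (fun s : ℝ => (tv i j h s).1 a b) =
      fun s => (1 : Mt n) a b + s * (Matrix.single i j (1 : ℝ) : Mt n) a b := by
    funext s
    change (Matrix.transvection i j s) a b = _
    unfold Matrix.transvection
    rw [Matrix.add_apply, Matrix.single_apply, Matrix.single_apply]
    split_ifs
    · rw [mul_one]
    · rw [mul_zero]
  rw [h1]
  have h2 := ((hasDerivAt_id (0 : ℝ)).mul_const ((Matrix.single i j (1 : ℝ) : Mt n) a b)).const_add
    ((1 : Mt n) a b)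
  simpa using h2

private theorem N2_dgc {n : ℕ} (z : V0 n) (a b : Fin n) :
    HasDerivAt (fun s : ℝ => (dgm (s • z)).1 a b) (dM z a b) 0 := by
  have h1 : (fun s : ℝ => (dgm (s • z)).1 a b) =
      fun s => if a = b then Real.exp (s * z.1 a) else 0 := by
    funext s
    change (Matrix.diagonal fun i => Real.exp ((s • z).1 i)) a b = _
    rw [Matrix.diagonal_apply]
    rfl
  rw [h1]
  unfold dM
  rw [Matrix.diagonal_apply]
  by_cases hab : a = b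
  · simp only [hab, if_true]
    have h2 := ((hasDerivAt_id (0 : ℝ)).mul_const (z.1 b)).exp
    simpa using h2
  · simp only [hab, if_false]
    exact hasDerivAt_const _ _

/-- derivative along left translates of a curve through `1` -/
private def N2_D {n : ℕ} (x : Mt n) (F F' : Fn n) : Prop :=
  ∀ c : ℝ → SL n, (∀ a b, HasDerivAt (fun s => (c s).1 a b) (((c 0).1 * x) a b) 0) →
    HasDerivAt (fun s => F (c s)) (F' (c 0)) 0

private theorem N2_at {n : ℕ} {x : Mt n} {F F' : Fn n} (hd : N2_D x F F') {c : ℝ → SL n}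
    (h0 : c 0 = 1) (hc : ∀ a b, HasDerivAt (fun s => (c s).1 a b) (x a b) 0) (g : SL n) :
    HasDerivAt (fun s => F (g * c s)) (F' g) 0 := by
  have h1 := hd (fun s => g * c s) (N2_curve h0 hc g)
  rw [h0, mul_one] at h1
  exact h1

private theorem N2_inv {n : ℕ} {x : Mt n} {F F' : Fn n} (hd : N2_D x F F') {c : ℝ → SL n}
    (h0 : c 0 = 1) (hc : ∀ a b, HasDerivAt (fun s => (c s).1 a b) (x a b) 0) (γ : SL n)
    (hi : ∀ g, F (γ * g) = F g) (g : SL n) : F' (γ * g) = F' g := by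
  have h1 := N2_at hd h0 hc g
  have h2 := N2_at hd h0 hc (γ * g)
  have h3 : (fun s => F (γ * g * c s)) = fun s => F (g * c s) := by
    funext s
    rw [mul_assoc, hi]
  rw [h3] at h2
  exact h2.unique h1

private theorem N2_uniq {n : ℕ} {x : Mt n} {F F' G' : Fn n} (hd : N2_D x F F') (hd' : N2_D x F G')
    {c : ℝ → SL n} (h0 : c 0 = 1) (hc : ∀ a b, HasDerivAt (fun s => (c s).1 a b) (x a b) 0) :
    F' = G' := by
  funext g
  exact (N2_at hd h0 hc g).unique (N2_at hd' h0 hc g)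

private theorem N2_tv0 {n : ℕ} (i j : Fin n) (h : i ≠ j) : tv i j h 0 = 1 := (tv_facts i j h).2.2.2.1

private theorem N2_dg0 {n : ℕ} (z : V0 n) : dgm ((0 : ℝ) • z) = 1 := (dgm_facts (n := n)).2.2.1 z

private theorem N2_lip {n : ℕ} (Γ : Subgroup (SL n)) (hc : Coc Γ) {i j : Fin n} (h : i ≠ j)
    {F F' : Fn n} (hd : N2_D (Matrix.single i j 1) F F') (hF' : Continuous F')
    (hi : ∀ γ ∈ Γ, ∀ g, F' (γ * g) = F' g) :
    ∃ C : ℝ, ∀ (g : SL n) (r : ℝ), |F (g * tv i j h r) - F g| ≤ C * |r| := by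
  obtain ⟨⟨B, hB⟩, -⟩ := unif Γ hc F' hF' hi
  refine ⟨B, fun g r => ?_⟩
  have hder : ∀ s : ℝ, HasDerivAt (fun t => F (g * tv i j h t)) (F' (g * tv i j h s)) s := by
    intro s
    have h1 := N2_at hd (N2_tv0 i j h) (N2_tvc i j h) (g * tv i j h s)
    have h2 : HasDerivAt (fun s' => F (g * tv i j h s * tv i j h s')) (F' (g * tv i j h s))
        (s + -s) := by
      rw [add_neg_cancel]
      exact h1
    have h3 := HasDerivAt.comp_add_const s (-s) h2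
    have h4 : (fun x => F (g * tv i j h s * tv i j h (x + -s))) = fun t => F (g * tv i j h t) := by
      funext t
      rw [mul_assoc, ← (tv_facts i j h).2.2.1]
      congr 3
      ring
    rw [h4] at h3
    exact h3
  have h1 := Convex.norm_image_sub_le_of_norm_hasDerivWithin_le
    (f := fun t => F (g * tv i j h t)) (f' := fun s => F' (g * tv i j h s)) (C := B)
    (s := Set.univ) (x := 0) (y := r) (fun s _ => (hder s).hasDerivWithinAt)
    (fun s _ => by rw [Real.norm_eq_abs]; exact hB _) convex_univ (Set.mem_univ _) (Set.mem_univ _)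
  rw [Real.norm_eq_abs, Real.norm_eq_abs, sub_zero, N2_tv0, mul_one] at h1
  exact h1

/-- the linear map `dM` -/
private def N2_L (n : ℕ) : V0 n →ₗ[ℝ] Mt n where
  toFun := dM
  map_add' := by
    intro v w
    unfold dM
    rw [Matrix.diagonal_add]
    rfl
  map_smul' := by
    intro c v
    unfold dM
    rw [RingHom.id_apply, ← Matrix.diagonal_smul]
    rfl

private theorem N2_tr {n : ℕ} (v : V0 n) : (dM v)ᵀ = dM v ∧ (dM v).trace = 0 := by
  unfold dM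
  refine ⟨Matrix.diagonal_transpose _, ?_⟩
  rw [Matrix.trace_diagonal]
  exact sum_V0 v

private theorem N2_comm {n : ℕ} (v w : V0 n) : dM v * dM w = dM w * dM v := by
  unfold dM
  rw [Matrix.diagonal_mul_diagonal, Matrix.diagonal_mul_diagonal]
  congr 1
  funext i
  ring

/-- restriction of a trilinear map -/
private def N2_T {n : ℕ} (J : Mt n →ₗ[ℝ] Mt n →ₗ[ℝ] Mt n →ₗ[ℝ] Fn n) :
    V0 n →ₗ[ℝ] V0 n →ₗ[ℝ] V0 n →ₗ[ℝ] Fn n where
  toFun x := (J (N2_L n x)).compl₁₂ (N2_L n) (N2_L n)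
  map_add' := by
    intro x y
    ext v w g
    simp
  map_smul' := by
    intro c x
    ext v w g
    simp

/-- restriction of a quadrilinear map -/
private def N2_Q {n : ℕ} (J : Mt n →ₗ[ℝ] Mt n →ₗ[ℝ] Mt n →ₗ[ℝ] Mt n →ₗ[ℝ] Fn n) :
    V0 n →ₗ[ℝ] V0 n →ₗ[ℝ] V0 n →ₗ[ℝ] V0 n →ₗ[ℝ] Fn n where
  toFun x := N2_T (J (N2_L n x))
  map_add' := by
    intro x y
    ext z v w g
    simp [N2_T]
  map_smul' := by
    intro c x
    ext z v w g
    simp [N2_T]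

/-- Row N2a. Left invariance of the derivatives. `J1 x v w (γ g)` is the derivative of
`J v w (γ c(s)) = J v w (c(s))` along any curve `c` with `c' (0) = g x`: such curves exist for `x = dM z`
(`g * dgm (s • z)`) and for `x = single i j 1`, `i ≠ j` (`g * tv i j h s`). Same for `J2`. -/
theorem jm_inv {n : ℕ} (Γ : Subgroup (SL n)) (J : Mt n →ₗ[ℝ] Mt n →ₗ[ℝ] Fn n)
    (J1 : Mt n →ₗ[ℝ] Mt n →ₗ[ℝ] Mt n →ₗ[ℝ] Fn n)
    (J2 : Mt n →ₗ[ℝ] Mt n →ₗ[ℝ] Mt n →ₗ[ℝ] Mt n →ₗ[ℝ] Fn n) (HJ : Jm Γ J J1 J2)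
    (v w : Mt n) (hv : vᵀ = v) (hv0 : v.trace = 0) (hw : wᵀ = w) (hw0 : w.trace = 0) :
    (∀ x : V0 n, ∀ γ ∈ Γ, ∀ g, J1 (dM x) v w (γ * g) = J1 (dM x) v w g) ∧
    (∀ i j : Fin n, i ≠ j → ∀ γ ∈ Γ, ∀ g,
      J1 (Matrix.single i j 1) v w (γ * g) = J1 (Matrix.single i j 1) v w g) ∧
    (∀ x y : V0 n, ∀ γ ∈ Γ, ∀ g, J2 (dM x) (dM y) v w (γ * g) = J2 (dM x) (dM y) v w g) ∧
    (∀ (y : V0 n) (i j : Fin n), i ≠ j → ∀ γ ∈ Γ, ∀ g,
      J2 (Matrix.single i j 1) (dM y) v w (γ * g) = J2 (Matrix.single i j 1) (dM y) v w g) := by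
  have hi0 : ∀ γ ∈ Γ, ∀ g, J v w (γ * g) = J v w g := fun γ hγ g =>
    HJ.inv γ hγ v w hv hv0 hw hw0 g
  have h1 : ∀ x : V0 n, ∀ γ ∈ Γ, ∀ g, J1 (dM x) v w (γ * g) = J1 (dM x) v w g :=
    fun x γ hγ g => N2_inv (HJ.d1 (dM x) v w) (c := fun s => dgm (s • x)) (N2_dg0 x) (N2_dgc x) γ
      (hi0 γ hγ) g
  refine ⟨h1, fun i j h γ hγ g => N2_inv (HJ.d1 (Matrix.single i j 1) v w)
    (c := fun s => tv i j h s) (N2_tv0 i j h) (N2_tvc i j h) γ (hi0 γ hγ) g,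
    fun x y γ hγ g => N2_inv (HJ.d2 (dM x) (dM y) v w) (c := fun s => dgm (s • x)) (N2_dg0 x)
      (N2_dgc x) γ (h1 y γ hγ) g,
    fun y i j h γ hγ g => N2_inv (HJ.d2 (Matrix.single i j 1) (dM y) v w)
      (c := fun s => tv i j h s) (N2_tv0 i j h) (N2_tvc i j h) γ (h1 y γ hγ) g⟩

/-- Row N2b. Restriction to the diagonal matrices. The linear maps: compose with the linear map `dM`
(`LinearMap.lcomp`, or `LinearMap.mk₂`, or by hand). `k0`, `k1`: `ort0`, `ort1` and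
`kk dM v kkᵀ = dM (sw v)` (A1b). `lip0`: `s ↦ J v w (g * tv i j h s)` has derivative
`J1 (single i j 1) v w (g * tv i j h s)` (`d1` with the curve `s' ↦ g * tv (s + s')`), bounded because
it is continuous and invariant (`LibNC38.unif`); mean value inequality. `lip1` the same with `J2`.
`com2`: diagonal matrices commute. -/
theorem ab_of_jm {n : ℕ} (Γ : Subgroup (SL n)) (hc : Coc Γ) (J : Mt n →ₗ[ℝ] Mt n →ₗ[ℝ] Fn n)
    (J1 : Mt n →ₗ[ℝ] Mt n →ₗ[ℝ] Mt n →ₗ[ℝ] Fn n)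
    (J2 : Mt n →ₗ[ℝ] Mt n →ₗ[ℝ] Mt n →ₗ[ℝ] Mt n →ₗ[ℝ] Fn n) (HJ : Jm Γ J J1 J2) :
    ∃ (A : V0 n →ₗ[ℝ] V0 n →ₗ[ℝ] Fn n) (A1 : V0 n →ₗ[ℝ] V0 n →ₗ[ℝ] V0 n →ₗ[ℝ] Fn n)
      (A2 : V0 n →ₗ[ℝ] V0 n →ₗ[ℝ] V0 n →ₗ[ℝ] V0 n →ₗ[ℝ] Fn n),
      (∀ v w, A v w = J (dM v) (dM w)) ∧ (∀ x v w, A1 x v w = J1 (dM x) (dM v) (dM w)) ∧
      (∀ x y v w, A2 x y v w = J2 (dM x) (dM y) (dM v) (dM w)) ∧ Ab Γ A A1 A2 := by
  have hinv := fun v w : V0 n => jm_inv Γ J J1 J2 HJ (dM v) (dM w) (N2_tr v).1 (N2_tr v).2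
    (N2_tr w).1 (N2_tr w).2
  have hs1 : ∀ x v w : V0 n, J1 (dM x) (dM v) (dM w) = J1 (dM x) (dM w) (dM v) := by
    intro x v w
    have h1 : N2_D (dM x) (J (dM v) (dM w)) (J1 (dM x) (dM w) (dM v)) := by
      rw [HJ.sym0]
      exact HJ.d1 (dM x) (dM w) (dM v)
    exact N2_uniq (HJ.d1 (dM x) (dM v) (dM w)) h1 (c := fun s => dgm (s • x)) (N2_dg0 x) (N2_dgc x)
  have hs2 : ∀ x y v w : V0 n, J2 (dM x) (dM y) (dM v) (dM w) = J2 (dM x) (dM y) (dM w) (dM v) := by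
    intro x y v w
    have h1 : N2_D (dM x) (J1 (dM y) (dM v) (dM w)) (J2 (dM x) (dM y) (dM w) (dM v)) := by
      rw [hs1]
      exact HJ.d2 (dM x) (dM y) (dM w) (dM v)
    exact N2_uniq (HJ.d2 (dM x) (dM y) (dM v) (dM w)) h1 (c := fun s => dgm (s • x)) (N2_dg0 x)
      (N2_dgc x)
  have hk : ∀ (i j : Fin n) (h : i ≠ j) (v : V0 n),
      (kk i j h).1 * dM v * (kk i j h).1ᵀ = dM (sw i j v) := fun i j h v =>
    (sw_facts i j h).2.2.2.2.2 v
  have hort : ∀ (i j : Fin n) (h : i ≠ j), Ort (kk i j h) := fun i j h => (kk_facts i j h).2.1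
  refine ⟨J.compl₁₂ (N2_L n) (N2_L n), N2_T J1, N2_Q J2, fun v w => rfl, fun x v w => rfl,
    fun x y v w => rfl, ?_⟩
  refine
    { inv0 := fun v w => ⟨HJ.cont0 _ _, fun γ hγ g =>
        HJ.inv γ hγ (dM v) (dM w) (N2_tr v).1 (N2_tr v).2 (N2_tr w).1 (N2_tr w).2 g⟩
      inv1 := fun x v w => ⟨HJ.cont1 _ _ _, (hinv v w).1 x⟩
      inv2 := fun x y v w => ⟨HJ.cont2 _ _ _ _, (hinv v w).2.2.1 x y⟩
      sym0 := fun v w => HJ.sym0 (dM v) (dM w)
      sym1 := hs1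
      sym2 := hs2
      com2 := fun x y v w => HJ.com2 (dM x) (dM y) (dM v) (dM w) (N2_comm x y)
      d1 := fun x v w g => N2_at (HJ.d1 (dM x) (dM v) (dM w)) (c := fun s => dgm (s • x)) (N2_dg0 x)
        (N2_dgc x) g
      d2 := fun x y v w g => N2_at (HJ.d2 (dM x) (dM y) (dM v) (dM w)) (c := fun s => dgm (s • x))
        (N2_dg0 x) (N2_dgc x) g
      k0 := ?_
      k1 := ?_
      lip0 := fun v w i j h => N2_lip Γ hc h (HJ.d1 (Matrix.single i j 1) (dM v) (dM w))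
        (HJ.cont1 _ _ _) ((hinv v w).2.1 i j h)
      lip1 := fun x v w i j h => N2_lip Γ hc h (HJ.d2 (Matrix.single i j 1) (dM x) (dM v) (dM w))
        (HJ.cont2 _ _ _ _) ((hinv v w).2.2.2 x i j h) }
  · intro i j h v w g
    have h1 := HJ.ort0 (kk i j h) (hort i j h) (dM v) (dM w) g
    rw [hk, hk] at h1
    exact h1
  · intro i j h x v w g
    have h1 := HJ.ort1 (kk i j h) (hort i j h) (dM x) (dM v) (dM w) g
    rw [hk, hk, hk] at h1
    exact h1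

end LibNC27
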