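import Pool.Agent.LibNC27.P7
import Pool.Agent.LibNC27.A1b
import Pool.Agent.LibNC27.A3

set_option autoImplicit false

open Matrix MeasureTheory Topology Filter LibNC38

namespace LibNC27

/-- Row L2a. `e l = J l H + θ l`, `H = Hv i j`, satisfies `Clo`: `E x l = J1 x l H + om J1 l H x`
`= J1 x l H + J1 l x H - J1 H x l`, which is symmetric in `x, l` (`sym1`). Lipschitz: `e H = J H H`
(`θ H = 0`), `lip0`. `anti`: `k0` and `hk`. -/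
theorem clo_u {n : ℕ} (Γ : Subgroup (SL n)) (J : V0 n →ₗ[ℝ] V0 n →ₗ[ℝ] Fn n)
    (J1 : V0 n →ₗ[ℝ] V0 n →ₗ[ℝ] V0 n →ₗ[ℝ] Fn n)
    (J2 : V0 n →ₗ[ℝ] V0 n →ₗ[ℝ] V0 n →ₗ[ℝ] V0 n →ₗ[ℝ] Fn n) (A : Ab Γ J J1 J2)
    (i j : Fin n) (h : i ≠ j) (θ : V0 n →ₗ[ℝ] Fn n) (hi : ∀ v, Inv Γ (θ v))
    (hd : ∀ v l, Rd l (θ v) (om J1 v (Hv i j) l)) (hk : ∀ v g, θ v (g * kk i j h) = - θ v g)
    (h0 : θ (Hv i j) = 0) : Clo Γ i j h (J.flip (Hv i j) + θ) := by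
  have he : ∀ v g, (J.flip (Hv i j) + θ) v g = J v (Hv i j) g + θ v g := fun v g => rfl
  have heH : ∀ g, (J.flip (Hv i j) + θ) (Hv i j) g = J (Hv i j) (Hv i j) g := by
    intro g
    rw [he, h0]
    simp
  refine ⟨?_, ?_, ?_, ?_, ?_⟩
  · intro v
    refine ⟨(A.inv0 v (Hv i j)).cont.add (hi v).cont, ?_⟩
    intro γ hγ g
    rw [he, he, (A.inv0 v (Hv i j)).inv γ hγ g, (hi v).inv γ hγ g]
  · refine ⟨fun x v => J1 x v (Hv i j) + om J1 v (Hv i j) x, ?_, ?_, ?_⟩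
    · intro x v
      exact (A.inv1 x v (Hv i j)).cont.add
        ((A.inv1 v x (Hv i j)).cont.sub (A.inv1 (Hv i j) x v).cont)
    · intro x v
      exact Rd_add x (J v (Hv i j)) (θ v) (J1 x v (Hv i j)) (om J1 v (Hv i j) x)
        (A.d1 x v (Hv i j)) (hd v x)
    · intro x v
      funext g
      have h1 : J1 (Hv i j) x v g = J1 (Hv i j) v x g := congrFun (A.sym1 (Hv i j) x v) g
      show J1 x v (Hv i j) g + om J1 v (Hv i j) x g = J1 v x (Hv i j) g + om J1 x (Hv i j) v g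
      rw [om_apply, om_apply, h1]
      ring
  · obtain ⟨C, hC⟩ := A.lip0 (Hv i j) (Hv i j) i j h
    refine ⟨C, fun g r => ?_⟩
    rw [heH, heH]
    exact hC g r
  · obtain ⟨C, hC⟩ := A.lip0 (Hv i j) (Hv i j) j i h.symm
    refine ⟨C, fun g r => ?_⟩
    rw [heH, heH]
    exact hC g r
  · intro v hv g
    obtain ⟨-, -, hs, hH, -, -⟩ := sw_facts i j h
    rw [he, he, A.k0 i j h v (Hv i j) g, hs v hv, hH, map_neg, hk v g]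
    simp only [Pi.neg_apply]
    ring

/-- Row L2b. The second potentials: `potential_all` for L2a. -/
theorem u_exists {n : ℕ} (hn : 3 ≤ n) (Γ : Subgroup (SL n)) (hc : Coc Γ)
    (J : V0 n →ₗ[ℝ] V0 n →ₗ[ℝ] Fn n)
    (J1 : V0 n →ₗ[ℝ] V0 n →ₗ[ℝ] V0 n →ₗ[ℝ] Fn n)
    (J2 : V0 n →ₗ[ℝ] V0 n →ₗ[ℝ] V0 n →ₗ[ℝ] V0 n →ₗ[ℝ] Fn n) (A : Ab Γ J J1 J2)
    (i j : Fin n) (h : i ≠ j) (θ : V0 n →ₗ[ℝ] Fn n) (hi : ∀ v, Inv Γ (θ v))
    (hd : ∀ v l, Rd l (θ v) (om J1 v (Hv i j) l)) (hk : ∀ v g, θ v (g * kk i j h) = - θ v g)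
    (h0 : θ (Hv i j) = 0) :
    ∃ (u : Fn n) (m : ℝ), Inv Γ u ∧
      (∀ l, Rd l u (fun g => J l (Hv i j) g + θ l g - m * (l.1 i - l.1 j))) ∧
      ∀ g, u (g * kk i j h) = - u g := by
  obtain ⟨u, m, hu, hr, ha⟩ := potential_all hn Γ hc i j h (J.flip (Hv i j) + θ)
    (clo_u Γ J J1 J2 A i j h θ hi hd hk h0)
  exact ⟨u, m, hu, fun l => hr l, ha⟩

end LibNC27
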