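import Pool.Agent.LibNC27.Defs

set_option autoImplicit false

open Matrix MeasureTheory Topology Filter LibNC38

namespace LibNC27

private theorem A2a_add {n : ℕ} (y z : V0 n) : (dgm (y + z) : SL n) = dgm y * dgm z :=
  flat_facts.2.1 y z

private theorem A2a_zero {n : ℕ} : (dgm (0 : V0 n) : SL n) = 1 :=
  flat_facts.2.2.2.2.2.2.2.2.2.2.2

private theorem A2a_der {n : ℕ} (F F' : Fn n) (w : V0 n) (h : Rd w F F') (g : SL n) (t : ℝ) :
    HasDerivAt (fun t : ℝ => F (g * dgm (t • w))) (F' (g * dgm (t • w))) t := by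
  have h1 := h (g * dgm (t • w))
  have h2 : HasDerivAt (fun s : ℝ => F (g * dgm (t • w) * dgm ((s - t) • w)))
      (F' (g * dgm (t • w))) t := by
    have h3 : HasDerivAt (fun s : ℝ => F (g * dgm (t • w) * dgm (s • w)))
        (F' (g * dgm (t • w))) (t - t) := by
      rw [sub_self]; exact h1
    exact h3.comp_sub_const t t
  have h4 : (fun s : ℝ => F (g * dgm (t • w) * dgm ((s - t) • w))) =
      fun s : ℝ => F (g * dgm (s • w)) := by
    funext s
    rw [mul_assoc, ← A2a_add, ← add_smul]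
    congr 4
    ring
  rw [h4] at h2
  exact h2

/-- Row A2a. A function with zero derivative along one direction is constant: the function
`t ↦ F (g * dgm (t • w))` has derivative `0` everywhere (`dgm ((s + t) • w) = dgm (s • w) *
dgm (t • w)`), so `F (g * dgm w) = F g`, and `LibNC38.const_of_inv`. -/
theorem const_of_Rd {n : ℕ} (Γ : Subgroup (SL n)) (hc : Coc Γ) (F : Fn n) (hF : Inv Γ F)
    (w : V0 n) (hw : w ≠ 0) (h : Rd w F (fun _ => 0)) (g : SL n) : F g = F 1 := by
  refine const_of_inv Γ hc F hF.cont hF.inv w (fun g => ?_) hw g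
  have h1 := is_const_of_deriv_eq_zero (f := fun t : ℝ => F (g * dgm (t • w)))
    (fun t => (A2a_der F _ w h g t).differentiableAt)
    (fun t => (A2a_der F _ w h g t).deriv) 1 0
  simpa [A2a_zero] using h1

/-- Row A2a. If moreover `F (g k) = - F g` for one `k` then `F = 0`. -/
theorem zero_of_anti {n : ℕ} (Γ : Subgroup (SL n)) (hc : Coc Γ) (F : Fn n) (hF : Inv Γ F)
    (w : V0 n) (hw : w ≠ 0) (h : Rd w F (fun _ => 0)) (k : SL n) (hk : ∀ g, F (g * k) = - F g)
    (g : SL n) : F g = 0 := by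
  have h1 := const_of_Rd Γ hc F hF w hw h g
  have h2 := const_of_Rd Γ hc F hF w hw h (g * k)
  have h3 := hk g
  linarith

/-- Row A2a. The derivative of a bounded function is not a nonzero constant
(`LibNC38.unif`: `F` is bounded; `F (g * dgm (t • w)) = F g + t c`). -/
theorem zero_of_const_der {n : ℕ} (Γ : Subgroup (SL n)) (hc : Coc Γ) (F : Fn n) (hF : Inv Γ F)
    (w : V0 n) (c : ℝ) (h : Rd w F (fun _ => c)) : c = 0 := by
  obtain ⟨⟨B, hB⟩, -⟩ := unif Γ hc F hF.cont hF.inv
  have h0 : ∀ t : ℝ, HasDerivAt (fun t : ℝ => F (1 * dgm (t • w)) - t * c) 0 t := by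
    intro t
    have h1 : HasDerivAt ((fun t : ℝ => F (1 * dgm (t • w))) - fun t : ℝ => t * c)
        (c - 1 * c) t :=
      (A2a_der F _ w h 1 t).sub ((hasDerivAt_id t).mul_const c)
    rw [one_mul, sub_self] at h1
    exact h1
  have h2 : ∀ t : ℝ, F (1 * dgm (t • w)) - t * c = F 1 := by
    intro t
    have h3 := is_const_of_deriv_eq_zero (f := fun t : ℝ => F (1 * dgm (t • w)) - t * c)
      (fun t => (h0 t).differentiableAt) (fun t => (h0 t).deriv) t 0
    simpa [A2a_zero] using h3
  by_contra hne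
  have hB0 : 0 ≤ B := (abs_nonneg _).trans (hB 1)
  have h3 := h2 ((2 * B + 1) / c)
  rw [div_mul_cancel₀ _ hne] at h3
  have h4 := hB (1 * dgm (((2 * B + 1) / c) • w))
  have h5 := hB 1
  rw [abs_le] at h4 h5
  linarith [h4.1, h4.2, h5.1, h5.2]

end LibNC27
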