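import Pool.Agent.LibNC27.R0
import Pool.Agent.LibNC27.A2a
import Pool.Agent.LibNC27.A3
import Pool.Agent.LibNC27.A1a

set_option autoImplicit false

open Matrix MeasureTheory Topology Filter LibNC38

namespace LibNC27

/-- derivative of a finite linear combination -/
private theorem R1_sum {n : ℕ} {ι : Type*} [Fintype ι] (w : V0 n) (c : ι → ℝ) (F F' : ι → Fn n)
    (h : ∀ a, Rd w (F a) (F' a)) : Rd w (∑ a, c a • F a) (∑ a, c a • F' a) := by
  intro g
  have h1 : HasDerivAt (fun t : ℝ => ∑ a, c a * F a (g * dgm (t • w))) (∑ a, c a * F' a g) 0 := by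
    refine HasDerivAt.fun_sum (fun a _ => ?_)
    exact (h a g).const_mul (c a)
  have e1 : (fun t : ℝ => (∑ a, c a • F a) (g * dgm (t • w))) =
      fun t : ℝ => ∑ a, c a * F a (g * dgm (t • w)) := by
    ext t
    simp [Finset.sum_apply]
  have e2 : (∑ a, c a • F' a) g = ∑ a, c a * F' a g := by
    simp [Finset.sum_apply]
  rw [e1, e2]
  exact h1

private theorem R1_inv {n : ℕ} {ι : Type*} [Fintype ι] (Γ : Subgroup (SL n)) (c : ι → ℝ) (F : ι → Fn n)
    (h : ∀ a, Inv Γ (F a)) : Inv Γ (∑ a, c a • F a) := by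
  constructor
  · have e1 : (∑ a, c a • F a) = fun g => ∑ a, c a * F a g := by
      ext g
      simp [Finset.sum_apply]
    rw [e1]
    exact continuous_finsetSum _ (fun a _ => continuous_const.mul (h a).cont)
  · intro γ hγ g
    simp only [Finset.sum_apply, Pi.smul_apply, smul_eq_mul]
    exact Finset.sum_congr rfl (fun a _ => by rw [(h a).inv γ hγ g])

/-- a constant combination of antisymmetric functions vanishes -/
private theorem R1_zero {n : ℕ} (hn : 3 ≤ n) {ι : Type*} [Fintype ι] (Γ : Subgroup (SL n)) (hc : Coc Γ)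
    (i j : ι → Fin n) (h : ∀ a, i a ≠ j a) (c : ι → ℝ) (F : ι → Fn n) (hF : ∀ a, Inv Γ (F a))
    (hk : ∀ a g, F a (g * kk (i a) (j a) (h a)) = - F a g)
    (hd : ∀ l : V0 n, Rd l (∑ a, c a • F a) (fun _ => 0)) : ∑ a, c a • F a = 0 := by
  have h01 : (⟨0, by omega⟩ : Fin n) ≠ ⟨1, by omega⟩ := by
    intro h
    simp [Fin.ext_iff] at h
  have hl : (Hv (⟨0, by omega⟩ : Fin n) ⟨1, by omega⟩ : V0 n) ≠ 0 := (Hv_facts _ _ h01).2.2.2.1
  have hconst := const_of_Rd Γ hc (∑ a, c a • F a) (R1_inv Γ c F hF) _ hl (hd _)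
  have h0 : (∑ a, c a • F a) 1 = 0 := by
    refine avg_zero (fun a => c a • F a) i j h ?_ _ ?_
    · intro a g
      simp only [Pi.smul_apply, smul_eq_mul, hk a g, mul_neg]
    · intro g
      rw [← hconst g, Finset.sum_apply]
  ext g
  rw [hconst g, h0]
  rfl

/-- Row R1 (relations). The `θ a`, `u a`, `m a` belong to the roots `(i a, j a)` and
`∑ c a • Hv (i a) (j a) = 0`. (1) `F = ∑ c a • θ a v` has derivative
`om J1 v (∑ c a • H_a) l = 0` along every `l` (`om` is linear in the second argument), so it is constant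
(A2a, some `l ≠ 0`), and zero by R0. (2) `∑ c a • u a` has derivative
`J l (∑ c a • H_a) + ∑ c a • θ a l - ∑ c a m a (l i_a - l j_a) = - const`, so the constant is zero
(A2a `zero_of_const_der`), then (3) it is constant and zero by R0. (`hn : 3 ≤ n` for some `l ≠ 0`.) -/
theorem relations {n : ℕ} (hn : 3 ≤ n) (Γ : Subgroup (SL n)) (hc : Coc Γ)
    (J : V0 n →ₗ[ℝ] V0 n →ₗ[ℝ] Fn n) (J1 : V0 n →ₗ[ℝ] V0 n →ₗ[ℝ] V0 n →ₗ[ℝ] Fn n)
    {ι : Type*} [Fintype ι] (i j : ι → Fin n) (h : ∀ a, i a ≠ j a) (c : ι → ℝ)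
    (hrel : ∑ a, c a • (Hv (i a) (j a) : V0 n) = 0)
    (θ : ι → V0 n →ₗ[ℝ] Fn n) (hi : ∀ a v, Inv Γ (θ a v))
    (hd : ∀ a v l, Rd l (θ a v) (om J1 v (Hv (i a) (j a)) l))
    (hk : ∀ a v g, θ a v (g * kk (i a) (j a) (h a)) = - θ a v g)
    (u : ι → Fn n) (m : ι → ℝ) (hui : ∀ a, Inv Γ (u a))
    (hud : ∀ a l, Rd l (u a) (fun g => J l (Hv (i a) (j a)) g + θ a l g -
      m a * (l.1 (i a) - l.1 (j a))))
    (huk : ∀ a g, u a (g * kk (i a) (j a) (h a)) = - u a g) :
    (∑ a, c a • θ a = 0) ∧ (∀ l : V0 n, ∑ a, c a * (m a * (l.1 (i a) - l.1 (j a))) = 0) ∧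
      ∑ a, c a • u a = 0 := by
  have h1 : ∀ v : V0 n, ∑ a, c a • θ a v = 0 := by
    intro v
    refine R1_zero hn Γ hc i j h c (fun a => θ a v) (fun a => hi a v) (fun a g => hk a v g) ?_
    intro l
    have h2 := R1_sum l c (fun a => θ a v) (fun a => om J1 v (Hv (i a) (j a)) l) (fun a => hd a v l)
    have h3 : ∑ a, c a • om J1 v (Hv (i a) (j a)) l = fun _ => (0 : ℝ) := by
      have h4 : ∑ a, c a • om J1 v (Hv (i a) (j a)) l =
          J1 v l (∑ a, c a • Hv (i a) (j a)) - J1 (∑ a, c a • Hv (i a) (j a)) l v := by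
        rw [map_sum, map_sum]
        simp only [map_smul, LinearMap.sum_apply, LinearMap.smul_apply]
        rw [← Finset.sum_sub_distrib]
        refine Finset.sum_congr rfl (fun a _ => ?_)
        rw [← smul_sub]
        rfl
      rw [h4, hrel]
      simp
      rfl
    rw [← h3]
    exact h2
  have h1' : ∑ a, c a • θ a = 0 := by
    ext v g
    have := congrFun (h1 v) g
    simpa using this
  have h5 : ∀ l : V0 n, Rd l (∑ a, c a • u a)
      (fun _ => -∑ a, c a * (m a * (l.1 (i a) - l.1 (j a)))) := by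
    intro l
    have h2 := R1_sum l c u _ (fun a => hud a l)
    have h3 : (∑ a, c a • fun g => J l (Hv (i a) (j a)) g + θ a l g - m a * (l.1 (i a) - l.1 (j a))) =
        fun _ => -∑ a, c a * (m a * (l.1 (i a) - l.1 (j a))) := by
      ext g
      have hJ : ∑ a, c a * J l (Hv (i a) (j a)) g = 0 := by
        have : J l (∑ a, c a • Hv (i a) (j a)) g = ∑ a, c a * J l (Hv (i a) (j a)) g := by
          rw [map_sum]
          simp [Finset.sum_apply]
        rw [← this, hrel]
        simp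
      have hθ : ∑ a, c a * θ a l g = 0 := by
        have := congrFun (h1 l) g
        simpa [Finset.sum_apply] using this
      simp only [Finset.sum_apply, Pi.smul_apply, smul_eq_mul]
      have : ∀ a, c a * (J l (Hv (i a) (j a)) g + θ a l g - m a * (l.1 (i a) - l.1 (j a))) =
          c a * J l (Hv (i a) (j a)) g + c a * θ a l g - c a * (m a * (l.1 (i a) - l.1 (j a))) := by
        intro a
        ring
      simp only [this]
      rw [Finset.sum_sub_distrib, Finset.sum_add_distrib, hJ, hθ]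
      ring
    rw [← h3]
    exact h2
  have h6 : ∀ l : V0 n, ∑ a, c a * (m a * (l.1 (i a) - l.1 (j a))) = 0 := by
    intro l
    have := zero_of_const_der Γ hc (∑ a, c a • u a) (R1_inv Γ c u hui) l _ (h5 l)
    linarith
  refine ⟨h1', h6, ?_⟩
  refine R1_zero hn Γ hc i j h c u hui huk ?_
  intro l
  have := h5 l
  rw [h6 l, neg_zero] at this
  exact this

end LibNC27
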