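import Pool.Agent.LibNC27.A1a

set_option autoImplicit false

open Matrix MeasureTheory Topology Filter LibNC38

namespace LibNC27

private theorem R2a_val {n : ℕ} (i j a : Fin n) :
    (Hv i j : V0 n).1 a = (if a = i then (1 : ℝ) else 0) - (if a = j then 1 else 0) := rfl

private theorem R2a_sum {n : ℕ} {W : Type*} [AddCommGroup W] [Module ℝ W] (F : Fin n → W)
    (i j : Fin n) : ∑ a, (Hv i j : V0 n).1 a • F a = F i - F j := by
  simp only [R2a_val, sub_smul, ite_smul, one_smul, zero_smul, Finset.sum_sub_distrib,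
    Finset.sum_ite_eq', Finset.mem_univ, if_true]

private theorem R2a_rel3 {n : ℕ} (i j k : Fin n) :
    (1 : ℝ) • (Hv i k : V0 n) + (-1 : ℝ) • Hv j k + (-1 : ℝ) • Hv i j = 0 := by
  apply Subtype.ext
  ext a
  show (1 : ℝ) * (Hv i k : V0 n).1 a + (-1 : ℝ) * (Hv j k : V0 n).1 a +
    (-1 : ℝ) * (Hv i j : V0 n).1 a = 0
  rw [R2a_val, R2a_val, R2a_val]
  ring

private theorem R2a_rel2 {n : ℕ} (i j : Fin n) :
    (1 : ℝ) • (Hv i j : V0 n) + (1 : ℝ) • Hv j i = 0 := by
  apply Subtype.ext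
  ext a
  show (1 : ℝ) * (Hv i j : V0 n).1 a + (1 : ℝ) * (Hv j i : V0 n).1 a = 0
  rw [R2a_val, R2a_val]
  ring

/-- Row R2 (linear algebra). A function on the roots that respects all linear relations between the
coroots extends to a linear map: `L v = (1/n) ∑ l, ∑ l' ≠ l, v l • f l l'`, and
`n • Hv i j = ∑ l ≠ i, Hv i l - ∑ l ≠ j, Hv j l`. (Or: the `Hv i j` span, `Finsupp.linearCombination`
and lifting to the quotient.) -/
theorem ext_roots {n : ℕ} (hn : 2 ≤ n) {W : Type*} [AddCommGroup W] [Module ℝ W]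
    (f : (i j : Fin n) → i ≠ j → W)
    (hf : ∀ (N : ℕ) (i j : Fin N → Fin n) (h : ∀ a, i a ≠ j a) (c : Fin N → ℝ),
      ∑ a, c a • (Hv (i a) (j a) : V0 n) = 0 → ∑ a, c a • f (i a) (j a) (h a) = 0) :
    ∃ L : V0 n →ₗ[ℝ] W, ∀ i j h, L (Hv i j) = f i j h := by
  have hn0 : 0 < n := by omega
  obtain ⟨k, -⟩ : ∃ k : Fin n, k = ⟨0, hn0⟩ := ⟨_, rfl⟩
  obtain ⟨F, hF⟩ : ∃ F : Fin n → W, F = fun i => if h : i ≠ k then f i k h else 0 := ⟨_, rfl⟩
  have hF1 : ∀ i (h : i ≠ k), F i = f i k h := fun i h => by rw [hF]; exact dif_pos h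
  have hF0 : F k = 0 := by rw [hF]; exact dif_neg (by simp)
  have h3 : ∀ (i j : Fin n) (h : i ≠ j) (hi : i ≠ k) (hj : j ≠ k),
      f i k hi - f j k hj = f i j h := by
    intro i j h hi hj
    have h' : ∀ a : Fin 3, (![i, j, i] : Fin 3 → Fin n) a ≠ (![k, k, j] : Fin 3 → Fin n) a := by
      intro a
      fin_cases a
      · exact hi
      · exact hj
      · exact h
    have e := hf 3 ![i, j, i] ![k, k, j] h' ![1, -1, -1]
      (by rw [Fin.sum_univ_three]; exact R2a_rel3 i j k)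
    rw [Fin.sum_univ_three] at e
    have e' : (1 : ℝ) • f i k hi + (-1 : ℝ) • f j k hj + (-1 : ℝ) • f i j h = 0 := e
    rw [one_smul, neg_one_smul, neg_one_smul] at e'
    rw [← sub_eq_zero, ← e']
    abel
  have h2 : ∀ (i j : Fin n) (h : i ≠ j), f i j h + f j i h.symm = 0 := by
    intro i j h
    have h' : ∀ a : Fin 2, (![i, j] : Fin 2 → Fin n) a ≠ (![j, i] : Fin 2 → Fin n) a := by
      intro a
      fin_cases a
      · exact h
      · exact h.symm
    have e := hf 2 ![i, j] ![j, i] h' ![1, 1]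
      (by rw [Fin.sum_univ_two]; exact R2a_rel2 i j)
    rw [Fin.sum_univ_two] at e
    have e' : (1 : ℝ) • f i j h + (1 : ℝ) • f j i h.symm = 0 := e
    rwa [one_smul, one_smul] at e'
  refine ⟨{ toFun := fun v => ∑ a, v.1 a • F a, map_add' := ?_, map_smul' := ?_ }, ?_⟩
  · intro v w
    rw [← Finset.sum_add_distrib]
    refine Finset.sum_congr rfl fun a _ => ?_
    have e : (v + w).1 a = v.1 a + w.1 a := rfl
    rw [e, add_smul]
  · intro c v
    rw [RingHom.id_apply, Finset.smul_sum]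
    refine Finset.sum_congr rfl fun a _ => ?_
    have e : (c • v).1 a = c * v.1 a := rfl
    rw [e, mul_smul]
  · intro i j h
    show ∑ a, (Hv i j : V0 n).1 a • F a = f i j h
    rw [R2a_sum]
    by_cases hj : j = k
    · subst hj
      rw [hF0, sub_zero, hF1 i h]
    · by_cases hi : i = k
      · subst hi
        rw [hF0, zero_sub, hF1 j hj]
        exact (eq_neg_of_add_eq_zero_left (h2 _ _ h)).symm
      · rw [hF1 i hi, hF1 j hj]
        exact h3 i j h hi hj

end LibNC27
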