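import Pool.Agent.LibNC27.A1a

set_option autoImplicit false

open Matrix MeasureTheory Topology Filter LibNC38

namespace LibNC27

private theorem R2b_Hv {n : ℕ} (i j a : Fin n) :
    (Hv i j : V0 n).1 a = (if a = i then (1 : ℝ) else 0) - (if a = j then 1 else 0) := rfl

private theorem R2b_ext {n : ℕ} (v w : V0 n) (h : ∀ a, v.1 a = w.1 a) : v = w := by
  apply Subtype.ext
  ext a
  exact h a

/-- Row R2b. Multipliers of the roots that respect all relations are all equal (triangle
`Hv i j + Hv j l + Hv l i = 0` evaluated at suitable `l`; `Hv i j + Hv j i = 0`). -/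
theorem mult_eq {n : ℕ} (hn : 3 ≤ n) (m : (i j : Fin n) → i ≠ j → ℝ)
    (hm : ∀ (N : ℕ) (i j : Fin N → Fin n) (h : ∀ a, i a ≠ j a) (c : Fin N → ℝ),
      ∑ a, c a • (Hv (i a) (j a) : V0 n) = 0 →
        ∀ l : V0 n, ∑ a, c a * (m (i a) (j a) (h a) * (l.1 (i a) - l.1 (j a))) = 0) :
    ∃ c : ℝ, ∀ i j h, m i j h = c := by
  -- triangle
  have htri : ∀ (i j k : Fin n) (hij : i ≠ j) (hjk : j ≠ k) (hki : k ≠ i),
      m i j hij = m j k hjk := by
    intro i j k hij hjk hki
    have h1 := hm 3 ![i, j, k] ![j, k, i] (by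
      intro a
      fin_cases a
      · exact hij
      · exact hjk
      · exact hki) ![1, 1, 1] (by
      rw [Fin.sum_univ_three]
      apply R2b_ext
      intro a
      simp [R2b_Hv]) (Hv j i)
    have h2 := hm 3 ![i, j, k] ![j, k, i] (by
      intro a
      fin_cases a
      · exact hij
      · exact hjk
      · exact hki) ![1, 1, 1] (by
      rw [Fin.sum_univ_three]
      apply R2b_ext
      intro a
      simp [R2b_Hv]) (Hv j k)
    rw [Fin.sum_univ_three] at h1 h2
    simp [R2b_Hv, hij, hjk, hki, hij.symm, hjk.symm, hki.symm] at h1 h2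
    linarith
  -- opposite
  have hopp : ∀ (i j : Fin n) (hij : i ≠ j), m i j hij = m j i hij.symm := by
    intro i j hij
    have h1 := hm 2 ![i, j] ![j, i] (by
      intro a
      fin_cases a
      · exact hij
      · exact hij.symm) ![1, 1] (by
      rw [Fin.sum_univ_two]
      apply R2b_ext
      intro a
      simp [R2b_Hv]) (Hv i j)
    rw [Fin.sum_univ_two] at h1
    simp [R2b_Hv, hij, hij.symm] at h1
    linarith
  have hthird : ∀ i j : Fin n, ∃ k : Fin n, k ≠ i ∧ k ≠ j := by
    intro i j
    have hcard : (({i, j} : Finset (Fin n))).card < (Finset.univ : Finset (Fin n)).card := by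
      have := Finset.card_le_two (a := i) (b := j)
      rw [Finset.card_univ, Fintype.card_fin]
      omega
    obtain ⟨k, -, hk⟩ := Finset.exists_mem_notMem_of_card_lt_card hcard
    simp only [Finset.mem_insert, Finset.mem_singleton, not_or] at hk
    exact ⟨k, hk.1, hk.2⟩
  -- same first index
  have hfirst : ∀ (i j k : Fin n) (hij : i ≠ j) (hik : i ≠ k), m i j hij = m i k hik := by
    intro i j k hij hik
    by_cases hjk : j = k
    · subst hjk
      rfl
    · rw [hopp i j hij, htri j i k hij.symm hik (fun h => hjk h.symm)]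
  have h0 : (⟨0, by omega⟩ : Fin n) ≠ ⟨1, by omega⟩ := by
    intro h
    simp [Fin.ext_iff] at h
  refine ⟨m _ _ h0, ?_⟩
  intro i j hij
  by_cases hi : i = ⟨0, by omega⟩
  · subst hi
    exact hfirst _ _ _ _ _
  · rw [hfirst i j ⟨0, by omega⟩ hij hi, hopp]
    exact hfirst _ _ _ _ _

end LibNC27
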