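import Pool.Agent.LibNC27.A1a

set_option autoImplicit false

open Matrix MeasureTheory Topology Filter LibNC38

namespace LibNC27

private theorem R2c_self {n : ℕ} (i : Fin n) : (Hv i i : V0 n) = 0 := by
  apply Subtype.ext
  ext a
  show ((if a = i then (1 : ℝ) else 0) - (if a = i then 1 else 0)) = 0
  simp

private theorem R2c_sub {n : ℕ} (i j k : Fin n) : (Hv i j : V0 n) = Hv i k - Hv j k := by
  apply Subtype.ext
  ext a
  show ((if a = i then (1 : ℝ) else 0) - (if a = j then 1 else 0)) =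
    ((if a = i then (1 : ℝ) else 0) - (if a = k then 1 else 0)) -
    ((if a = j then (1 : ℝ) else 0) - (if a = k then 1 else 0))
  ring

private theorem R2c_exp {n : ℕ} (k : Fin n) (v : V0 n) : v = ∑ i, v.1 i • (Hv i k : V0 n) := by
  apply Subtype.ext
  have h1 : ((∑ i, v.1 i • (Hv i k : V0 n) : V0 n) : EuclideanSpace ℝ (Fin n)) =
      ∑ i, v.1 i • ((Hv i k : V0 n) : EuclideanSpace ℝ (Fin n)) := by
    simp
  rw [h1]
  ext a
  have h2 : (∑ i, v.1 i • ((Hv i k : V0 n) : EuclideanSpace ℝ (Fin n))) a =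
      ∑ i, v.1 i * ((if a = i then (1 : ℝ) else 0) - (if a = k then 1 else 0)) := by
    rw [WithLp.ofLp_sum, Finset.sum_apply]
    apply Finset.sum_congr rfl
    intro i _
    rfl
  rw [h2]
  simp only [mul_sub, Finset.sum_sub_distrib, mul_ite, mul_one, mul_zero, Finset.sum_ite_eq,
    Finset.mem_univ, if_true]
  by_cases hak : a = k
  · simp only [hak, if_true]
    have := sum_V0 v
    rw [this]
    simp
  · simp [hak]

/-- Row R2c. A bilinear map that vanishes at `(H, H)` for all coroots vanishes on the diagonal: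
`T v v = -(1/2) ∑ i j, v i v j T (H_ij) (H_ij)` (as `∑ v = 0`; with `e_i = H_i0 + e_0` formally:
`v = ∑ i, v i • Hv i 0`, and `2 T(H_i0, H_j0)` symmetrized `= T(H_i0,H_i0) + T(H_j0,H_j0) -
T(H_ij,H_ij) = 0`). Also: the `Hv i j` span `V0 n`, so linear maps that agree on them are equal. -/
theorem diag_zero {n : ℕ} (hn : 2 ≤ n) {W : Type*} [AddCommGroup W] [Module ℝ W]
    (T : V0 n →ₗ[ℝ] V0 n →ₗ[ℝ] W) (hT : ∀ i j : Fin n, i ≠ j → T (Hv i j) (Hv i j) = 0)
    (v : V0 n) : T v v = 0 := by
  let k : Fin n := ⟨0, by omega⟩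
  have hT' : ∀ i j : Fin n, T (Hv i j) (Hv i j) = 0 := by
    intro i j
    by_cases h : i = j
    · subst h
      rw [R2c_self]
      simp
    · exact hT i j h
  have hanti : ∀ i j : Fin n, T (Hv i k) (Hv j k) + T (Hv j k) (Hv i k) = 0 := by
    intro i j
    have h1 := hT' i j
    rw [R2c_sub i j k] at h1
    simp only [map_sub, LinearMap.sub_apply] at h1
    rw [hT' i k, hT' j k] at h1
    have h2 : T (Hv i k) (Hv j k) + T (Hv j k) (Hv i k) =
      -((0 : W) - T (Hv j k) (Hv i k) - (T (Hv i k) (Hv j k) - 0)) := by abel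
    rw [h2, h1, neg_zero]
  have hexp : T v v = ∑ i, ∑ j, (v.1 i * v.1 j) • T (Hv i k) (Hv j k) := by
    conv_lhs => rw [R2c_exp k v]
    simp only [map_sum, map_smul, LinearMap.sum_apply, LinearMap.smul_apply, Finset.smul_sum,
      smul_smul]
    rw [Finset.sum_comm]
    apply Finset.sum_congr rfl
    intro i _
    apply Finset.sum_congr rfl
    intro j _
    rw [mul_comm]
  have hsw : T v v = ∑ i, ∑ j, (v.1 i * v.1 j) • T (Hv j k) (Hv i k) := by
    rw [hexp, Finset.sum_comm]
    apply Finset.sum_congr rfl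
    intro i _
    apply Finset.sum_congr rfl
    intro j _
    rw [mul_comm]
  have h2 : T v v + T v v = 0 := by
    conv_lhs =>
      congr
      · rw [hexp]
      · rw [hsw]
    rw [← Finset.sum_add_distrib]
    apply Finset.sum_eq_zero
    intro i _
    rw [← Finset.sum_add_distrib]
    apply Finset.sum_eq_zero
    intro j _
    rw [← smul_add, hanti, smul_zero]
  have h3 : (2 : ℝ) • T v v = 0 := by rw [two_smul]; exact h2
  exact (smul_eq_zero.mp h3).resolve_left (by norm_num)

theorem ext_Hv {n : ℕ} (hn : 2 ≤ n) {W : Type*} [AddCommGroup W] [Module ℝ W]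
    (L L' : V0 n →ₗ[ℝ] W) (h : ∀ i j : Fin n, i ≠ j → L (Hv i j) = L' (Hv i j)) : L = L' := by
  let k : Fin n := ⟨0, by omega⟩
  have h' : ∀ i : Fin n, L (Hv i k) = L' (Hv i k) := by
    intro i
    by_cases hi : i = k
    · rw [hi, R2c_self]
      simp
    · exact h i k hi
  apply LinearMap.ext
  intro v
  rw [R2c_exp k v]
  simp only [map_sum, map_smul]
  exact Finset.sum_congr rfl fun i _ => by rw [h' i]

end LibNC27
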