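import Pool.Agent.LibNC27.L1b
import Pool.Agent.LibNC27.L2
import Pool.Agent.LibNC27.R1
import Pool.Agent.LibNC27.R2a
import Pool.Agent.LibNC27.R2b
import Pool.Agent.LibNC27.R2c

set_option autoImplicit false

open Matrix MeasureTheory Topology Filter LibNC38

namespace LibNC27

/-- induction over linear combinations of coroots -/
private theorem R3_ind {n : ℕ} (hn : 2 ≤ n) (P : V0 n → Prop)
    (h0 : ∀ i j : Fin n, i ≠ j → P (Hv i j)) (ha : ∀ v w, P v → P w → P (v + w))
    (hs : ∀ (c : ℝ) (v : V0 n), P v → P (c • v)) (v : V0 n) : P v := by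
  have hz : P 0 := by
    have h1 : (⟨0, by omega⟩ : Fin n) ≠ ⟨1, by omega⟩ := by
      intro h
      have := congrArg Fin.val h
      simp at this
    have h2 := hs 0 _ (h0 _ _ h1)
    rwa [zero_smul] at h2
  let S : Submodule ℝ (V0 n) :=
    { carrier := {v | P v}
      add_mem' := fun {a b} h h' => ha a b h h'
      zero_mem' := hz
      smul_mem' := fun c v h => hs c v h }
  have h1 : S.mkQ = 0 := by
    refine ext_Hv hn S.mkQ 0 fun i j h => ?_
    rw [LinearMap.zero_apply, Submodule.mkQ_apply, Submodule.Quotient.mk_eq_zero]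
    exact h0 i j h
  have h2 : v ∈ S := by
    rw [← Submodule.Quotient.mk_eq_zero, ← Submodule.mkQ_apply, h1, LinearMap.zero_apply]
  exact h2

private theorem R3_inv_add {n : ℕ} {Γ : Subgroup (SL n)} {F G : Fn n} (h : Inv Γ F)
    (h' : Inv Γ G) : Inv Γ (F + G) :=
  ⟨h.cont.add h'.cont, fun γ hγ g => by
    rw [Pi.add_apply, Pi.add_apply, h.inv γ hγ g, h'.inv γ hγ g]⟩

private theorem R3_inv_smul {n : ℕ} {Γ : Subgroup (SL n)} {F : Fn n} (c : ℝ) (h : Inv Γ F) :
    Inv Γ (c • F) :=
  ⟨h.cont.const_smul c, fun γ hγ g => by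
    rw [Pi.smul_apply, Pi.smul_apply, h.inv γ hγ g]⟩

/-- Row R3 (assembly of the potentials). `theta_exists`, `u_exists` for every root (choice), R1 with
`ι = Fin N` for the relations, R2 `ext_roots` for `u` (`W = Fn n`) and for `θ` (`W = V0 n →ₗ[ℝ] Fn n`;
`T = L.flip`, so `T v (Hv i j) = θ_ij v`), `mult_eq`: all `m_ij = c`. The derivative formulas hold for
`v = Hv i j` (`l i - l j = ⟪l, Hv i j⟫`, A1a) and extend linearly (A3; every `v` is a combination
`∑ i, v i • Hv i 0` of coroots, or `Submodule.span_induction`). `diag`: `diag_zero` and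
`θ_ij (Hv i j) = 0`. -/
theorem pot_exists {n : ℕ} (hn : 3 ≤ n) (Γ : Subgroup (SL n)) (hc : Coc Γ)
    (J : V0 n →ₗ[ℝ] V0 n →ₗ[ℝ] Fn n) (J1 : V0 n →ₗ[ℝ] V0 n →ₗ[ℝ] V0 n →ₗ[ℝ] Fn n)
    (J2 : V0 n →ₗ[ℝ] V0 n →ₗ[ℝ] V0 n →ₗ[ℝ] V0 n →ₗ[ℝ] Fn n) (A : Ab Γ J J1 J2) (hS : Flat J2) :
    ∃ (u : V0 n →ₗ[ℝ] Fn n) (T : V0 n →ₗ[ℝ] V0 n →ₗ[ℝ] Fn n) (c : ℝ), Pot Γ J J1 u T c := by
  classical
  have hn2 : 2 ≤ n := by omega
  choose θ hθi hθd hθk hθ0 using fun (i j : Fin n) (h : i ≠ j) =>
    theta_exists hn Γ hc J J1 J2 A hS i j h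
  choose u m hui hud huk using fun (i j : Fin n) (h : i ≠ j) =>
    u_exists hn Γ hc J J1 J2 A i j h (θ i j h) (hθi i j h) (hθd i j h) (hθk i j h) (hθ0 i j h)
  have hrel : ∀ (N : ℕ) (i j : Fin N → Fin n) (h : ∀ a, i a ≠ j a) (c : Fin N → ℝ),
      ∑ a, c a • (Hv (i a) (j a) : V0 n) = 0 →
      (∑ a, c a • θ (i a) (j a) (h a) = 0) ∧
      (∀ l : V0 n, ∑ a, c a * (m (i a) (j a) (h a) * (l.1 (i a) - l.1 (j a))) = 0) ∧
      ∑ a, c a • u (i a) (j a) (h a) = 0 := fun N i j h c hr =>
    relations hn Γ hc J J1 i j h c hr (fun a => θ (i a) (j a) (h a))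
      (fun a => hθi (i a) (j a) (h a)) (fun a => hθd (i a) (j a) (h a))
      (fun a => hθk (i a) (j a) (h a)) (fun a => u (i a) (j a) (h a))
      (fun a => m (i a) (j a) (h a)) (fun a => hui (i a) (j a) (h a))
      (fun a => hud (i a) (j a) (h a)) (fun a => huk (i a) (j a) (h a))
  obtain ⟨U, hU⟩ := ext_roots hn2 u (fun N i j h c hr => (hrel N i j h c hr).2.2)
  obtain ⟨L, hL⟩ := ext_roots (W := V0 n →ₗ[ℝ] Fn n) hn2 θ
    (fun N i j h c hr => (hrel N i j h c hr).1)
  obtain ⟨c, hm⟩ := mult_eq hn m (fun N i j h c hr => (hrel N i j h c hr).2.1)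
  refine ⟨U, L.flip, c, ?_⟩
  refine
    { invu := ?_
      invT := ?_
      du := ?_
      dT := ?_
      antiu := ?_
      antiT := ?_
      diag := ?_ }
  · intro v
    refine R3_ind hn2 (fun v => Inv Γ (U v)) (fun i j h => ?_) (fun v w h h' => ?_)
      (fun a v h => ?_) v
    · rw [hU i j h]; exact hui i j h
    · rw [map_add]; exact R3_inv_add h h'
    · rw [map_smul]; exact R3_inv_smul a h
  · intro v w
    rw [LinearMap.flip_apply]
    refine R3_ind hn2 (fun w => Inv Γ (L w v)) (fun i j h => ?_) (fun w w' h h' => ?_)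
      (fun a w h => ?_) w
    · rw [hL i j h]; exact hθi i j h v
    · rw [map_add, LinearMap.add_apply]; exact R3_inv_add h h'
    · rw [map_smul, LinearMap.smul_apply]; exact R3_inv_smul a h
  · intro x v
    refine R3_ind hn2
      (fun v => Rd x (U v) (fun g => J x v g + L.flip x v g - c * inner ℝ x v))
      (fun i j h => ?_) (fun v w h h' => ?_) (fun a v h => ?_) v
    · have h1 := hud i j h x
      rw [hU i j h, (Hv_facts i j h).2.1 x, LinearMap.flip_apply, hL i j h]
      rw [hm i j h] at h1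
      exact h1
    · have h1 := Rd_add x _ _ _ _ h h'
      rw [map_add]
      convert h1 using 1
      funext g
      simp only [map_add, inner_add_right, Pi.add_apply]
      ring
    · have h1 := Rd_smul x _ _ a h
      rw [map_smul]
      convert h1 using 1
      funext g
      have h2 : inner ℝ x (a • v) = a * inner ℝ x v := real_inner_smul_right x v a
      simp only [map_smul, Pi.smul_apply, smul_eq_mul]
      rw [h2]
      ring
  · intro x v w
    rw [LinearMap.flip_apply]
    refine R3_ind hn2 (fun w => Rd x (L w v) (om J1 v w x))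
      (fun i j h => ?_) (fun w w' h h' => ?_) (fun a w h => ?_) w
    · rw [hL i j h]; exact hθd i j h v x
    · have h1 := Rd_add x _ _ _ _ h h'
      rw [map_add, LinearMap.add_apply]
      convert h1 using 1
      funext g
      rw [Pi.add_apply, om_apply, om_apply, om_apply]
      simp only [map_add, LinearMap.add_apply, Pi.add_apply]
      ring
    · have h1 := Rd_smul x _ _ a h
      rw [map_smul, LinearMap.smul_apply]
      convert h1 using 1
      funext g
      rw [Pi.smul_apply, om_apply, om_apply]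
      simp only [map_smul, LinearMap.smul_apply, Pi.smul_apply, smul_eq_mul]
      ring
  · intro i j h g
    rw [hU i j h]; exact huk i j h g
  · intro i j h v g
    rw [LinearMap.flip_apply, hL i j h]; exact hθk i j h v g
  · intro v g
    have h1 := diag_zero hn2 L.flip (fun i j h => by
      rw [LinearMap.flip_apply, hL i j h]; exact hθ0 i j h) v
    rw [h1]; rfl

end LibNC27
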