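import Pool.Agent.LibNC27.V9
import Pool.Agent.LibNC27.A1a
import Pool.Agent.LibNC27.A1b

set_option autoImplicit false

open Matrix MeasureTheory Topology Filter LibNC38

namespace LibNC27

/-- the vectors `e_l - 1/n` -/
private noncomputable def V10_el {n : ℕ} (hn : 3 ≤ n) (l : Fin n) : V0 n :=
  ⟨WithLp.toLp 2 fun a => (if a = l then (1 : ℝ) else 0) - 1 / n, by
    show ∑ a : Fin n, ((if a = l then (1 : ℝ) else 0) - 1 / n) = 0
    have h0 : (n : ℝ) ≠ 0 := by
      have : n ≠ 0 := by omega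
      exact_mod_cast this
    rw [Finset.sum_sub_distrib, Finset.sum_ite_eq', if_pos (Finset.mem_univ _), Finset.sum_const,
      Finset.card_univ, Fintype.card_fin, nsmul_eq_mul, mul_one_div_cancel h0, sub_self]⟩

private theorem V10_el_apply {n : ℕ} (hn : 3 ≤ n) (l a : Fin n) :
    (V10_el hn l).1 a = (if a = l then (1 : ℝ) else 0) - 1 / n := rfl

private theorem V10_dec {n : ℕ} (hn : 3 ≤ n) (l j : Fin n) (h : l ≠ j) :
    ∃ ν : V0 n, ν.1 l = ν.1 j ∧ V10_el hn l = ν + (1 / 2 : ℝ) • Hv l j ∧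
      V10_el hn j = ν - (1 / 2 : ℝ) • Hv l j := by
  have hH := (Hv_facts l j h).1
  have h' := h.symm
  have hj : V10_el hn j = V10_el hn l - Hv l j := by
    apply Subtype.ext
    ext a
    show (V10_el hn j).1 a = (V10_el hn l).1 a - (Hv l j).1 a
    rw [V10_el_apply, V10_el_apply, hH]
    ring
  refine ⟨V10_el hn l - (1 / 2 : ℝ) • Hv l j, ?_, (sub_add_cancel _ _).symm, ?_⟩
  · show (V10_el hn l).1 l - (1 / 2 : ℝ) * (Hv l j).1 l =
      (V10_el hn l).1 j - (1 / 2 : ℝ) * (Hv l j).1 j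
    rw [V10_el_apply, V10_el_apply, hH, hH, if_pos rfl, if_neg h, if_neg h', if_pos rfl]
    ring
  · rw [hj, sub_sub, ← add_smul]
    norm_num

private theorem V10_zero {n : ℕ} (D : Mt n) (hD : Dᵀ = D)
    (h : ∀ x : Fin n → ℝ, x ⬝ᵥ x = 1 → x ⬝ᵥ (D *ᵥ x) = 0) : D = 0 := by
  have hq : ∀ x : Fin n → ℝ, x ⬝ᵥ (D *ᵥ x) = 0 := by
    intro x
    by_cases hx : x ⬝ᵥ x = 0
    · rw [dotProduct_self_eq_zero.1 hx, zero_dotProduct]
    · have h0 : 0 ≤ x ⬝ᵥ x := Finset.sum_nonneg fun i _ => mul_self_nonneg (x i)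
      have h1 : 0 < x ⬝ᵥ x := lt_of_le_of_ne h0 (Ne.symm hx)
      have h2 : √(x ⬝ᵥ x) ≠ 0 := (Real.sqrt_pos.2 h1).ne'
      have h3 := h ((√(x ⬝ᵥ x))⁻¹ • x) (by
        rw [smul_dotProduct, dotProduct_smul, smul_eq_mul, smul_eq_mul]
        have h4 := Real.mul_self_sqrt h0
        field_simp
        rw [sq, h4])
      rw [Matrix.mulVec_smul, smul_dotProduct, dotProduct_smul, smul_eq_mul, smul_eq_mul] at h3
      have h5 := inv_ne_zero h2
      rcases mul_eq_zero.1 h3 with h6 | h6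
      · exact absurd h6 h5
      · rcases mul_eq_zero.1 h6 with h7 | h7
        · exact absurd h7 h5
        · exact h7
  have hb : ∀ a b, (Pi.single a (1 : ℝ) : Fin n → ℝ) ⬝ᵥ (D *ᵥ Pi.single b 1) = D a b := by
    intro a b
    rw [single_dotProduct, one_mul, Matrix.mulVec_single_one]
    rfl
  ext a b
  have h1 := hq (Pi.single a 1)
  have h2 := hq (Pi.single b 1)
  have h3 := hq (Pi.single a 1 + Pi.single b 1)
  have h4 : D b a = D a b := congrFun (congrFun hD a) b
  rw [Matrix.mulVec_add, add_dotProduct, dotProduct_add, dotProduct_add, hb, hb, hb, hb] at h3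
  rw [hb] at h1 h2
  rw [Matrix.zero_apply]
  linarith

private theorem V10_trace {n : ℕ} (S K : Mt n) (v : V0 n) :
    (S * (K * dM v * Kᵀ)).trace = ∑ l, v.1 l * ((fun a => K a l) ⬝ᵥ (S *ᵥ fun a => K a l)) := by
  have e : S * (K * dM v * Kᵀ) = (S * K * dM v) * Kᵀ := by simp only [Matrix.mul_assoc]
  have e' : Kᵀ * (S * K * dM v) = (Kᵀ * (S * K)) * dM v := by simp only [Matrix.mul_assoc]
  rw [e, Matrix.trace_mul_comm, e', Matrix.trace]
  refine Finset.sum_congr rfl fun l _ => ?_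
  rw [Matrix.diag_apply, dM, Matrix.mul_diagonal, mul_comm]
  rfl

/-- Row V10. `el l = e_l - 1/n ∈ V0 n`, `f_l = U (el l)`. `el l` has equal coordinates `i, j ≠ l` (`h1`), and
`el l = (1/2) • Hv l j + ν` with `ν l = ν j`, so `f_l (k * rot l j t) = U ν k + (1/2)(a cos 2t + b sin 2t)`
(`h1` for `ν`, `h2`). V9 gives `S_l`. With `t = π/2`: `U (Hv l j) (k kk) = - U (Hv l j) k`, so
`f_l (k * kk l j) = f_j k`, and the column `l` of `k * kk l j` is `-` (column `j` of `k`): so
`xᵀ S_l x = xᵀ S_j x` for all unit vectors `x` (V7), `S_l = S_j =: S'` (symmetric). `∑ el l = 0` gives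
`trace S' = ∑ f_l 1 = 0`; and `v = ∑ l, v l • el l`, `k dM v kᵀ = ∑ l, v l • (column l)(column l)ᵀ`. -/
theorem S_of_U {n : ℕ} (hn : 3 ≤ n) (U : V0 n →ₗ[ℝ] Fn n)
    (h1 : ∀ i j : Fin n, i ≠ j → ∀ v : V0 n, v.1 i = v.1 j → ∀ k, Ort k → ∀ t,
      U v (k * rot i j t) = U v k)
    (h2 : ∀ i j : Fin n, i ≠ j → ∀ k, Ort k → ∃ a b : ℝ, ∀ t : ℝ, U (Hv i j) (k * rot i j t) =
      a * Real.cos (2 * t) + b * Real.sin (2 * t)) :
    ∃ S : Mt n, Sᵀ = S ∧ S.trace = 0 ∧
      ∀ k, Ort k → ∀ v, U v k = (S * (k.1 * dM v * k.1ᵀ)).trace := by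
  have hkk : ∀ (l j : Fin n) (hlj : l ≠ j) (k : SL n), Ort k → Ort (k * kk l j hlj) := by
    intro l j hlj k hk
    have h3 := (kk_facts l j hlj).2.1
    show (k.1 * (kk l j hlj).1) * (k.1 * (kk l j hlj).1)ᵀ = 1
    rw [Matrix.transpose_mul, Matrix.mul_assoc, ← Matrix.mul_assoc (kk l j hlj).1, h3,
      Matrix.one_mul]
    exact hk
  have hS := fun l => frame_quad hn l (U (V10_el hn l)) (by
      intro i j hi hj hij k hk t
      refine h1 i j hij _ ?_ k hk t
      rw [V10_el_apply, V10_el_apply, if_neg hi, if_neg hj]) (by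
      intro j hj k hk
      obtain ⟨ν, hν1, hν2, -⟩ := V10_dec hn l j (Ne.symm hj)
      obtain ⟨a, b, hab⟩ := h2 l j (Ne.symm hj) k hk
      refine ⟨U ν k, a / 2, b / 2, fun t => ?_⟩
      rw [hν2, map_add, map_smul, Pi.add_apply, Pi.smul_apply, smul_eq_mul, hab t,
        h1 l j (Ne.symm hj) ν hν1 k hk t]
      ring)
  choose S hS1 hS2 using hS
  have hEq : ∀ l j : Fin n, l ≠ j → S l = S j := by
    intro l j hlj
    refine sub_eq_zero.1 (V10_zero _ (by rw [Matrix.transpose_sub, hS1, hS1]) fun x hx => ?_)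
    obtain ⟨k, hk, hkx⟩ := frame_one hn j x hx
    obtain ⟨ν, hν1, hν2, hν3⟩ := V10_dec hn l j hlj
    have R := rot_facts l j hlj
    obtain ⟨a, b, hab⟩ := h2 l j hlj k hk
    have e0 := hab 0
    rw [R.2.2.2.1, mul_one, mul_zero, Real.cos_zero, Real.sin_zero, mul_one, mul_zero,
      add_zero] at e0
    have e1 := hab (Real.pi / 2)
    rw [R.2.2.2.2.1, mul_div_cancel₀ _ (two_ne_zero' ℝ), Real.cos_pi, Real.sin_pi] at e1
    have e2 := h1 l j hlj ν hν1 k hk (Real.pi / 2)
    rw [R.2.2.2.2.1] at e2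
    have e3 : U (V10_el hn l) (k * kk l j hlj) = U (V10_el hn j) k := by
      rw [hν2, hν3, map_add, map_sub, map_smul, Pi.add_apply, Pi.sub_apply, Pi.smul_apply,
        Pi.smul_apply, smul_eq_mul, smul_eq_mul, e0, e1, e2]
      ring
    have e4 := hS2 l _ (hkk l j hlj k hk)
    have e5 := hS2 j k hk
    have ecol : (fun a => (k * kk l j hlj).1 a l) = -x := by
      funext a
      have K := (kk_facts l j hlj).1
      show (k.1 * (kk l j hlj).1) a l = -x a
      rw [Matrix.mul_apply, Finset.sum_eq_single j]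
      · rw [K, if_neg hlj.symm, if_pos rfl, if_pos rfl, hkx, mul_neg_one]
      · intro c _ hc
        rw [K]
        by_cases hcl : c = l
        · rw [if_pos hcl, if_neg hlj, mul_zero]
        · rw [if_neg hcl, if_neg hc, if_neg hcl, mul_zero]
      · intro hc; exact absurd (Finset.mem_univ _) hc
    have ecol' : (fun a => k.1 a j) = x := funext hkx
    rw [e3, e5, ecol, ecol', Matrix.mulVec_neg, neg_dotProduct_neg] at e4
    rw [Matrix.sub_mulVec, dotProduct_sub, e4, sub_self]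
  have hl0 : 0 < n := by omega
  have hEq' : ∀ l : Fin n, S l = S ⟨0, hl0⟩ := by
    intro l
    by_cases h : l = ⟨0, hl0⟩
    · rw [h]
    · exact hEq _ _ h
  have hv : ∀ v : V0 n, v = ∑ l, v.1 l • V10_el hn l := by
    intro v
    apply Subtype.ext
    ext a
    have e : (∑ l, v.1 l • V10_el hn l : V0 n).1 a = ∑ l, v.1 l * (V10_el hn l).1 a := by
      rw [AddSubmonoidClass.coe_finsetSum]
      simp
    rw [e]
    simp only [V10_el_apply, mul_sub, mul_ite, mul_one, mul_zero, Finset.sum_sub_distrib,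
      Finset.sum_ite_eq, Finset.mem_univ, if_true]
    rw [← Finset.sum_mul, sum_V0, zero_mul, sub_zero]
  refine ⟨S ⟨0, hl0⟩, hS1 _, ?_, fun k hk v => ?_⟩
  · have h3 : ∑ l, V10_el hn l = 0 := by
      apply Subtype.ext
      ext a
      have e : (∑ l, V10_el hn l : V0 n).1 a = ∑ l, (V10_el hn l).1 a := by
        rw [AddSubmonoidClass.coe_finsetSum]
        simp
      rw [e]
      have h0 : (n : ℝ) ≠ 0 := by
        have : n ≠ 0 := by omega
        exact_mod_cast this
      show ∑ l, (V10_el hn l).1 a = 0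
      simp only [V10_el_apply]
      rw [Finset.sum_sub_distrib, Finset.sum_ite_eq, if_pos (Finset.mem_univ _), Finset.sum_const,
        Finset.card_univ, Fintype.card_fin, nsmul_eq_mul, mul_one_div_cancel h0, sub_self]
    have h4 : ∑ l, U (V10_el hn l) 1 = 0 := by
      have h5 := congrArg (fun w => U w 1) h3
      simp only [map_sum, map_zero, Finset.sum_apply, Pi.zero_apply] at h5
      exact h5
    rw [← h4, Matrix.trace]
    refine Finset.sum_congr rfl fun l _ => ?_
    have h6 : Ort (1 : SL n) := by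
      show (1 : Mt n) * (1 : Mt n)ᵀ = 1
      rw [Matrix.transpose_one, Matrix.one_mul]
    rw [hS2 l 1 h6, hEq' l, Matrix.diag_apply]
    have h7 : (fun a => (1 : SL n).1 a l) = Pi.single l (1 : ℝ) := by
      funext a
      show (1 : Mt n) a l = _
      rw [Matrix.one_apply, Pi.single_apply]
    rw [h7, single_dotProduct, one_mul, Matrix.mulVec_single_one]
    rfl
  · rw [V10_trace]
    conv_lhs => rw [hv v]
    rw [map_sum, Finset.sum_apply]
    refine Finset.sum_congr rfl fun l _ => ?_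
    rw [map_smul, Pi.smul_apply, smul_eq_mul, hS2 l k hk, hEq' l]

end LibNC27
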