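import Pool.Agent.LibNC27.V3
import Pool.Agent.LibNC27.A1a

set_option autoImplicit false

open Matrix MeasureTheory Topology Filter LibNC38

namespace LibNC27

/-- Row V4. Same as V3 for `u H`: its derivative along some `v ≠ 0`, `v i = v j` (A1a, `n ≥ 3`) is
`A v H + T v H` (`⟪v, H⟫ = 0`), which satisfies the equation by `ort0`, V1 and V3; antisymmetric
under `kk i j` (`antiu`). -/
theorem u_weight {n : ℕ} (hn : 3 ≤ n) (Γ : Subgroup (SL n)) (hc : Coc Γ)
    (J : Mt n →ₗ[ℝ] Mt n →ₗ[ℝ] Fn n)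
    (J1 : Mt n →ₗ[ℝ] Mt n →ₗ[ℝ] Mt n →ₗ[ℝ] Fn n)
    (J2 : Mt n →ₗ[ℝ] Mt n →ₗ[ℝ] Mt n →ₗ[ℝ] Mt n →ₗ[ℝ] Fn n) (HJ : Jm Γ J J1 J2)
    (A : V0 n →ₗ[ℝ] V0 n →ₗ[ℝ] Fn n) (A1 : V0 n →ₗ[ℝ] V0 n →ₗ[ℝ] V0 n →ₗ[ℝ] Fn n)
    (hA : ∀ v w, A v w = J (dM v) (dM w)) (hA1 : ∀ x v w, A1 x v w = J1 (dM x) (dM v) (dM w))
    (u : V0 n →ₗ[ℝ] Fn n) (T : V0 n →ₗ[ℝ] V0 n →ₗ[ℝ] Fn n) (c : ℝ) (P : Pot Γ A A1 u T c)
    (i j : Fin n) (h : i ≠ j) (g : SL n) (t : ℝ) :
    u (Hv i j) (g * rot i j t) + u (Hv i j) (g * rot i j (-t)) =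
      2 * Real.cos (2 * t) * u (Hv i j) g := by
  obtain ⟨-, r2, r3, -, r5, -, r7, r8, r9⟩ := rot_facts i j h
  obtain ⟨-, f2, -, -, -, f6⟩ := Hv_facts i j h
  obtain ⟨v, hv0, hv⟩ := f6 hn
  have hvH : inner ℝ v (Hv i j) = (0 : ℝ) := by rw [f2, hv, sub_self]
  have hA0 : ∀ (s : ℝ) (x : SL n), A v (Hv i j) (x * rot i j s) =
      Real.cos (2 * s) * A v (Hv i j) x -
        Real.sin (2 * s) * J (dM v) (Matrix.single i j (1 : ℝ) + Matrix.single j i (1 : ℝ)) x := by
    intro s x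
    rw [hA, HJ.ort0 _ (r2 s), r8 s v hv, r9 s, map_sub, map_smul, map_smul]
    rfl
  have hF : Inv Γ (fun x => u (Hv i j) (x * rot i j t) + u (Hv i j) (x * rot i j (-t)) -
      2 * Real.cos (2 * t) * u (Hv i j) x) := by
    constructor
    · have c0 := (P.invu (Hv i j)).cont
      exact ((c0.comp (continuous_mul_const _)).add (c0.comp (continuous_mul_const _))).sub
        (continuous_const.mul c0)
    · intro γ hγ x
      have e := (P.invu (Hv i j)).inv γ hγ
      show u (Hv i j) (γ * x * rot i j t) + u (Hv i j) (γ * x * rot i j (-t)) -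
        2 * Real.cos (2 * t) * u (Hv i j) (γ * x) = _
      rw [mul_assoc γ x, mul_assoc γ x, e, e, e]
  have hRd : Rd v (fun x => u (Hv i j) (x * rot i j t) + u (Hv i j) (x * rot i j (-t)) -
      2 * Real.cos (2 * t) * u (Hv i j) x) (fun _ => 0) := by
    intro x
    have key : ∀ s : ℝ, HasDerivAt (fun τ : ℝ => u (Hv i j) (x * dgm (τ • v) * rot i j s))
        (A v (Hv i j) (x * rot i j s) + T v (Hv i j) (x * rot i j s)) 0 := by
      intro s
      have h1 := P.du v (Hv i j) (x * rot i j s)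
      have e1 : (fun τ : ℝ => u (Hv i j) (x * rot i j s * dgm (τ • v))) =
          fun τ : ℝ => u (Hv i j) (x * dgm (τ • v) * rot i j s) := by
        funext τ
        have hs : (τ • v).1 i = (τ • v).1 j := by
          show τ * v.1 i = τ * v.1 j
          rw [hv]
        rw [mul_assoc, r7 s (τ • v) hs, ← mul_assoc]
      rw [e1] at h1
      have e2 : A v (Hv i j) (x * rot i j s) + T v (Hv i j) (x * rot i j s) -
          c * inner ℝ v (Hv i j) =
          A v (Hv i j) (x * rot i j s) + T v (Hv i j) (x * rot i j s) := by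
        rw [hvH, mul_zero, sub_zero]
      rw [← e2]
      exact h1
    have k0 : HasDerivAt (fun τ : ℝ => u (Hv i j) (x * dgm (τ • v)))
        (A v (Hv i j) x + T v (Hv i j) x) 0 := by
      have h1 := P.du v (Hv i j) x
      have e2 : A v (Hv i j) x + T v (Hv i j) x - c * inner ℝ v (Hv i j) =
          A v (Hv i j) x + T v (Hv i j) x := by
        rw [hvH, mul_zero, sub_zero]
      rw [← e2]
      exact h1
    have hall := ((key t).add (key (-t))).sub (k0.const_mul (2 * Real.cos (2 * t)))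
    have e3 : A v (Hv i j) (x * rot i j t) + T v (Hv i j) (x * rot i j t) +
        (A v (Hv i j) (x * rot i j (-t)) + T v (Hv i j) (x * rot i j (-t))) -
        2 * Real.cos (2 * t) * (A v (Hv i j) x + T v (Hv i j) x) = 0 := by
      have w1 := T_weight Γ hc J J1 J2 HJ A A1 hA hA1 u T c P i j h v hv x t
      rw [hA0, hA0, mul_neg, Real.cos_neg, Real.sin_neg]
      linear_combination w1
    rw [e3] at hall
    exact hall
  have hanti : ∀ x, (fun x => u (Hv i j) (x * rot i j t) + u (Hv i j) (x * rot i j (-t)) -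
      2 * Real.cos (2 * t) * u (Hv i j) x) (x * kk i j h) =
      - (fun x => u (Hv i j) (x * rot i j t) + u (Hv i j) (x * rot i j (-t)) -
      2 * Real.cos (2 * t) * u (Hv i j) x) x := by
    intro x
    have com : ∀ s, kk i j h * rot i j s = rot i j s * kk i j h := by
      intro s
      rw [← r5, ← r3, ← r3, add_comm]
    show u (Hv i j) (x * kk i j h * rot i j t) + u (Hv i j) (x * kk i j h * rot i j (-t)) -
      2 * Real.cos (2 * t) * u (Hv i j) (x * kk i j h) =
      -(u (Hv i j) (x * rot i j t) + u (Hv i j) (x * rot i j (-t)) -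
      2 * Real.cos (2 * t) * u (Hv i j) x)
    have com' : ∀ s, x * kk i j h * rot i j s = x * rot i j s * kk i j h := by
      intro s
      rw [mul_assoc, com, ← mul_assoc]
    rw [com', com', P.antiu, P.antiu, P.antiu]
    ring
  have h0 := zero_of_anti Γ hc _ hF v hv0 hRd (kk i j h) hanti g
  have h1 : u (Hv i j) (g * rot i j t) + u (Hv i j) (g * rot i j (-t)) -
      2 * Real.cos (2 * t) * u (Hv i j) g = 0 := h0
  linarith

end LibNC27
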