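import Mathlib

set_option autoImplicit false

namespace LibNC27

/-- Row V5 (d'Alembert). `t = π/2`: `φ (s + π/2) + φ (s - π/2) = - 2 φ s`; with `s = 0` and general `t`,
`φ t + φ (-t) = 2 cos 2t φ 0`. Put `ψ t = φ t - cos 2t φ 0`: odd, same equation; exchanging `s, t` and
adding: `ψ (s + t) = cos 2t ψ s + cos 2s ψ t`; `s = π/4`: `ψ (t + π/4) = cos 2t ψ (π/4)`. -/
theorem dalembert (φ : ℝ → ℝ)
    (h : ∀ s t : ℝ, φ (s + t) + φ (s - t) = 2 * Real.cos (2 * t) * φ s) (t : ℝ) :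
    φ t = Real.cos (2 * t) * φ 0 + Real.sin (2 * t) * φ (Real.pi / 4) := by
  have h1 := h (t - Real.pi / 4) (Real.pi / 4)
  have h2 := h (Real.pi / 4) (t - Real.pi / 4)
  have h3 := h 0 (t - Real.pi / 2)
  have c1 : Real.cos (2 * (Real.pi / 4)) = 0 := by
    rw [show 2 * (Real.pi / 4) = Real.pi / 2 by ring, Real.cos_pi_div_two]
  have c2 : Real.cos (2 * (t - Real.pi / 4)) = Real.sin (2 * t) := by
    rw [show 2 * (t - Real.pi / 4) = 2 * t - Real.pi / 2 by ring, Real.cos_sub_pi_div_two]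
  have c3 : Real.cos (2 * (t - Real.pi / 2)) = -Real.cos (2 * t) := by
    rw [show 2 * (t - Real.pi / 2) = 2 * t - Real.pi by ring, Real.cos_sub_pi]
  rw [c1, show t - Real.pi / 4 + Real.pi / 4 = t by ring,
    show t - Real.pi / 4 - Real.pi / 4 = t - Real.pi / 2 by ring] at h1
  rw [c2, show Real.pi / 4 + (t - Real.pi / 4) = t by ring,
    show Real.pi / 4 - (t - Real.pi / 4) = 0 - (t - Real.pi / 2) by ring] at h2
  rw [c3, zero_add] at h3
  linear_combination (h1 + h2 - h3) / 2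

end LibNC27
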