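import Pool.Agent.LibNC27.V2
import Pool.Agent.LibNC27.V4
import Pool.Agent.LibNC27.V5
import Pool.Agent.LibNC27.V10

set_option autoImplicit false

open Matrix MeasureTheory Topology Filter LibNC38

namespace LibNC27

/-- Row V11. For fixed `g` apply V10 to `U v k = u v (g * k)` (linear in `v`); `h1` is V2, `h2` is V4
with V5 for `φ t = u (Hv i j) (g * k * rot i j t)`. -/
theorem S_exists {n : ℕ} (hn : 3 ≤ n) (Γ : Subgroup (SL n)) (hc : Coc Γ)
    (J : Mt n →ₗ[ℝ] Mt n →ₗ[ℝ] Fn n)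
    (J1 : Mt n →ₗ[ℝ] Mt n →ₗ[ℝ] Mt n →ₗ[ℝ] Fn n)
    (J2 : Mt n →ₗ[ℝ] Mt n →ₗ[ℝ] Mt n →ₗ[ℝ] Mt n →ₗ[ℝ] Fn n) (HJ : Jm Γ J J1 J2)
    (A : V0 n →ₗ[ℝ] V0 n →ₗ[ℝ] Fn n) (A1 : V0 n →ₗ[ℝ] V0 n →ₗ[ℝ] V0 n →ₗ[ℝ] Fn n)
    (hA : ∀ v w, A v w = J (dM v) (dM w)) (hA1 : ∀ x v w, A1 x v w = J1 (dM x) (dM v) (dM w))
    (u : V0 n →ₗ[ℝ] Fn n) (T : V0 n →ₗ[ℝ] V0 n →ₗ[ℝ] Fn n) (c : ℝ) (P : Pot Γ A A1 u T c) :
    ∃ S : SL n → Mt n, (∀ g, (S g)ᵀ = S g ∧ (S g).trace = 0) ∧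
      ∀ g k, Ort k → ∀ v, u v (g * k) = (S g * (k.1 * dM v * k.1ᵀ)).trace := by
  have key : ∀ g : SL n, ∃ S : Mt n, Sᵀ = S ∧ S.trace = 0 ∧
      ∀ k, Ort k → ∀ v, u v (g * k) = (S * (k.1 * dM v * k.1ᵀ)).trace := by
    intro g
    refine S_of_U hn ((LinearMap.funLeft ℝ ℝ (fun k : SL n => g * k)).comp u) ?_ ?_
    · intro i j hij v hv k _ t
      change u v (g * (k * rot i j t)) = u v (g * k)
      rw [← mul_assoc]
      exact u_ker Γ hc J J1 J2 HJ A A1 hA hA1 u T c P i j hij v hv (g * k) t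
    · intro i j hij k _
      refine ⟨u (Hv i j) (g * k), u (Hv i j) (g * (k * rot i j (Real.pi / 4))), fun t => ?_⟩
      change u (Hv i j) (g * (k * rot i j t)) = _
      have hd := dalembert (fun t => u (Hv i j) (g * (k * rot i j t))) (by
        intro s t
        have hw := u_weight hn Γ hc J J1 J2 HJ A A1 hA hA1 u T c P i j hij
          (g * (k * rot i j s)) t
        have hadd := (rot_facts i j hij).2.2.1
        have e1 : g * (k * rot i j (s + t)) = g * (k * rot i j s) * rot i j t := by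
          rw [hadd]
          simp only [mul_assoc]
        have e2 : g * (k * rot i j (s - t)) = g * (k * rot i j s) * rot i j (-t) := by
          rw [sub_eq_add_neg, hadd]
          simp only [mul_assoc]
        change u (Hv i j) (g * (k * rot i j (s + t))) + u (Hv i j) (g * (k * rot i j (s - t))) =
          2 * Real.cos (2 * t) * u (Hv i j) (g * (k * rot i j s))
        rw [e1, e2]
        exact hw) t
      have h0 : rot i j (0 : ℝ) = 1 := (rot_facts i j hij).2.2.2.1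
      simp only [h0, mul_one] at hd
      rw [hd]
      ring
  choose S hS using key
  exact ⟨S, fun g => ⟨(hS g).1, (hS g).2.1⟩, fun g k hk v => (hS g).2.2 k hk v⟩

end LibNC27
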