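import Pool.Agent.LibNC27.Defs

set_option autoImplicit false

open Matrix MeasureTheory Topology Filter LibNC38

namespace LibNC27

private theorem A2b_add {n : ℕ} (y z : V0 n) : dgm (y + z) = dgm y * dgm z :=
  flat_facts.2.1 y z

private theorem A2b_cont {n : ℕ} : Continuous (dgm : V0 n → SL n) := by
  obtain ⟨-, -, -, -, -, -, -, -, -, h, -⟩ := flat_facts (n := n)
  exact h

private theorem A2b_comm {n : ℕ} (y z : V0 n) : dgm y * dgm z = dgm z * dgm y := by
  rw [← A2b_add, ← A2b_add, add_comm]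

private theorem A2b_zero {n : ℕ} (l : V0 n) : dgm ((0 : ℝ) • l) = 1 := by
  obtain ⟨-, -, -, -, -, -, -, -, -, -, -, h⟩ := flat_facts (n := n)
  rw [zero_smul]
  exact h

private theorem A2b_cs {n : ℕ} (l : V0 n) : Continuous fun t : ℝ => dgm (t • l) :=
  A2b_cont.comp (continuous_id.smul continuous_const)

private theorem A2b_deriv {n : ℕ} (φ φ' : Fn n) (l : V0 n) (h1 : Rd l φ φ') (g : SL n) (s : ℝ) :
    HasDerivAt (fun t : ℝ => φ (g * dgm (t • l))) (φ' (g * dgm (s • l))) s := by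
  have h' : HasDerivAt (fun t : ℝ => φ (g * dgm (s • l) * dgm (t • l)))
      (φ' (g * dgm (s • l))) (s - s) := by
    rw [sub_self]
    exact h1 (g * dgm (s • l))
  have h2 := h'.comp_sub_const s s
  have e : (fun t : ℝ => φ (g * dgm (t • l))) =
      fun t : ℝ => φ (g * dgm (s • l) * dgm ((t - s) • l)) := by
    funext t
    rw [mul_assoc, ← A2b_add, ← add_smul]
    congr 4
    ring
  rw [e]
  exact h2

private theorem A2b_int {n : ℕ} (φ φ' : Fn n) (hφ' : Continuous φ') (l : V0 n)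
    (h1 : Rd l φ φ') (g : SL n) (L : ℝ) :
    ∫ s in (0 : ℝ)..L, φ' (g * dgm (s • l)) = φ (g * dgm (L • l)) - φ g := by
  have hc : Continuous fun s : ℝ => φ' (g * dgm (s • l)) :=
    hφ'.comp (continuous_const.mul (A2b_cs l))
  have h := intervalIntegral.integral_eq_sub_of_hasDerivAt
    (fun s _ => A2b_deriv φ φ' l h1 g s) (hc.intervalIntegrable 0 L)
  rw [h, A2b_zero, mul_one]

private theorem A2b_bd {n : ℕ} (φ φ' : Fn n) (hφ' : Continuous φ') (l m : V0 n)
    (h1 : Rd l φ φ') (B : ℝ) (hB : ∀ g, |φ g| ≤ B) (L : ℝ) (hL : 0 < L) :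
    |∫ t in (0 : ℝ)..L, ∫ s in (0 : ℝ)..L, φ' (dgm (t • m) * dgm (s • l))| ≤ 2 * B * L := by
  have e : (fun t : ℝ => ∫ s in (0 : ℝ)..L, φ' (dgm (t • m) * dgm (s • l))) =
      fun t : ℝ => φ (dgm (t • m) * dgm (L • l)) - φ (dgm (t • m)) := by
    funext t
    exact A2b_int φ φ' hφ' l h1 _ L
  rw [e]
  have h := intervalIntegral.norm_integral_le_of_norm_le_const (a := 0) (b := L) (C := 2 * B)
    (f := fun t : ℝ => φ (dgm (t • m) * dgm (L • l)) - φ (dgm (t • m))) (fun t _ => by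
      rw [Real.norm_eq_abs]
      have a1 := hB (dgm (t • m) * dgm (L • l))
      have a2 := hB (dgm (t • m))
      calc |φ (dgm (t • m) * dgm (L • l)) - φ (dgm (t • m))|
          ≤ |φ (dgm (t • m) * dgm (L • l))| + |φ (dgm (t • m))| := abs_sub _ _
        _ ≤ 2 * B := by linarith)
  rw [Real.norm_eq_abs, sub_zero, abs_of_pos hL] at h
  exact h

/-- Row A2b (box averages). If the sum of a derivative along `l` and a derivative along `m` of
bounded functions is a constant `c` then `c = 0`. Integrate over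
`{dgm (s • l) * dgm (t • m) : 0 ≤ s, t ≤ L}` at `g = 1`: by the fundamental theorem of calculus in `s`
the first term gives `∫ t in 0..L, (φ (dgm (L • l) * dgm (t • m)) - φ (dgm (t • m)))` (the diagonal
matrices commute), at most `2 L sup |φ|`; the same for the second (Fubini,
`intervalIntegral_integral_swap` or `MeasureTheory.integral_integral_swap`), so
`|c| L² ≤ 2 L (sup |φ| + sup |ψ|)` for all `L > 0`. (Bounded: `LibNC38.unif`.) -/
theorem box_zero {n : ℕ} (Γ : Subgroup (SL n)) (hc : Coc Γ) (φ ψ φ' ψ' : Fn n) (hφ : Inv Γ φ)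
    (hψ : Inv Γ ψ) (hφ' : Continuous φ') (hψ' : Continuous ψ') (l m : V0 n) (h1 : Rd l φ φ')
    (h2 : Rd m ψ ψ') (c : ℝ) (h : ∀ g, φ' g + ψ' g = c) : c = 0 := by
  obtain ⟨⟨B1, hB1⟩, -⟩ := unif Γ hc φ hφ.cont hφ.inv
  obtain ⟨⟨B2, hB2⟩, -⟩ := unif Γ hc ψ hψ.cont hψ.inv
  have key : ∀ L : ℝ, 0 < L → |c| * L ^ 2 ≤ 2 * (B1 + B2) * L := by
    intro L hL
    have hco : Continuous fun x : ℝ × ℝ => dgm (x.1 • m) * dgm (x.2 • l) :=
      ((A2b_cs m).comp continuous_fst).mul ((A2b_cs l).comp continuous_snd)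
    have hcφ : Continuous fun x : ℝ × ℝ => φ' (dgm (x.1 • m) * dgm (x.2 • l)) := hφ'.comp hco
    have hcψ : Continuous fun x : ℝ × ℝ => ψ' (dgm (x.1 • m) * dgm (x.2 • l)) := hψ'.comp hco
    have hsl : ∀ f : ℝ × ℝ → ℝ, Continuous f → ∀ t : ℝ,
        IntervalIntegrable (fun s : ℝ => f (t, s)) volume 0 L := fun f hf t =>
      (hf.comp (continuous_const.prodMk continuous_id)).intervalIntegrable 0 L
    have hou : ∀ f : ℝ × ℝ → ℝ, Continuous f →
        IntervalIntegrable (fun t : ℝ => ∫ s in (0 : ℝ)..L, f (t, s)) volume 0 L := fun f hf =>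
      (intervalIntegral.continuous_parametric_intervalIntegral_of_continuous'
        (f := fun t s => f (t, s)) hf 0 L).intervalIntegrable 0 L
    have hsum : (∫ t in (0 : ℝ)..L, ∫ s in (0 : ℝ)..L, φ' (dgm (t • m) * dgm (s • l))) +
        (∫ t in (0 : ℝ)..L, ∫ s in (0 : ℝ)..L, ψ' (dgm (t • m) * dgm (s • l))) = c * L ^ 2 := by
      rw [← intervalIntegral.integral_add (hou _ hcφ) (hou _ hcψ)]
      have e : (fun t : ℝ => (∫ s in (0 : ℝ)..L, φ' (dgm (t • m) * dgm (s • l))) +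
          ∫ s in (0 : ℝ)..L, ψ' (dgm (t • m) * dgm (s • l))) = fun _ => c * L := by
        funext t
        rw [← intervalIntegral.integral_add (hsl _ hcφ t) (hsl _ hcψ t)]
        simp only [h]
        rw [intervalIntegral.integral_const, smul_eq_mul, sub_zero, mul_comm]
      rw [e, intervalIntegral.integral_const, smul_eq_mul, sub_zero]
      ring
    have b1 := A2b_bd φ φ' hφ' l m h1 B1 hB1 L hL
    have b2 := A2b_bd ψ ψ' hψ' m l h2 B2 hB2 L hL
    have hsw : (∫ t in (0 : ℝ)..L, ∫ s in (0 : ℝ)..L, ψ' (dgm (t • m) * dgm (s • l))) =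
        ∫ s in (0 : ℝ)..L, ∫ t in (0 : ℝ)..L, ψ' (dgm (s • l) * dgm (t • m)) := by
      rw [intervalIntegral_intervalIntegral_swap
        (F := fun t s : ℝ => ψ' (dgm (t • m) * dgm (s • l)))]
      · simp only [A2b_comm]
      · have hc2 : Continuous (Function.uncurry
            fun t s : ℝ => ψ' (dgm (t • m) * dgm (s • l))) := hcψ
        refine (hc2.continuousOn.integrableOn_compact
          ((isCompact_uIcc (a := (0 : ℝ)) (b := L)).prod
            (isCompact_uIcc (a := (0 : ℝ)) (b := L)))).mono_set ?_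
        exact Set.prod_mono Set.uIoc_subset_uIcc Set.uIoc_subset_uIcc
    rw [hsw] at hsum
    have hL2 : |c * L ^ 2| = |c| * L ^ 2 := by
      rw [abs_mul, abs_of_nonneg (sq_nonneg L)]
    rw [← hL2, ← hsum]
    refine (abs_add_le _ _).trans ?_
    linarith
  by_contra hne
  have hcp : 0 < |c| := abs_pos.mpr hne
  have hB1' : 0 ≤ B1 := (abs_nonneg _).trans (hB1 1)
  have hB2' : 0 ≤ B2 := (abs_nonneg _).trans (hB2 1)
  have hLp : 0 < 2 * (B1 + B2) / |c| + 1 := by positivity
  have hk := key _ hLp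
  have e1 : |c| * (2 * (B1 + B2) / |c| + 1) ^ 2 =
      (2 * (B1 + B2) + |c|) * (2 * (B1 + B2) / |c| + 1) := by
    field_simp
  rw [e1] at hk
  have := le_of_mul_le_mul_right hk hLp
  linarith

end LibNC27
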