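import Pool.Agent.LibNC27.Defs

set_option autoImplicit false

open Matrix MeasureTheory Topology Filter LibNC38

namespace LibNC27

private lemma A4_alg {V : Type*} [AddCommGroup V] (f : V → V → V → V → ℝ)
    (a1 : ∀ x x' y v w, f (x + x') y v w = f x y v w + f x' y v w)
    (a2 : ∀ x y y' v w, f x (y + y') v w = f x y v w + f x y' v w)
    (a3 : ∀ x y v v' w, f x y (v + v') w = f x y v w + f x y v' w)
    (a4 : ∀ x y v w w', f x y v (w + w') = f x y v w + f x y v w')
    (s : ∀ x y v w, f x y v w = f x y w v) (c : ∀ x y v w, f x y v w = f y x v w)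
    (hS : ∀ v w, f w w v v - 2 * f w v v w + f v v w w = 0) (l m v w : V) :
    f m v l w - f m w l v = f l v m w - f l w m v := by
  obtain ⟨Q, hQ⟩ : ∃ Q : V → V → V → V → ℝ, ∀ a b x d,
      Q a b x d = f b d a x - f b x a d - f a d b x + f a x b d := ⟨_, fun _ _ _ _ => rfl⟩
  have q0 : ∀ a b, Q a b a b = 0 := by
    intro a b
    rw [hQ]
    linarith [hS a b, c a b b a, s b a b a]
  have q1 : ∀ a a' b x d, Q (a + a') b x d = Q a b x d + Q a' b x d := by
    intro a a' b x d
    rw [hQ, hQ, hQ, a3, a3, a1, a1]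
    ring
  have q2 : ∀ a b b' x d, Q a (b + b') x d = Q a b x d + Q a b' x d := by
    intro a b b' x d
    rw [hQ, hQ, hQ, a3, a3, a1, a1]
    ring
  have q3 : ∀ a b x x' d, Q a b (x + x') d = Q a b x d + Q a b x' d := by
    intro a b x x' d
    rw [hQ, hQ, hQ, a2, a2, a4, a4]
    ring
  have q4 : ∀ a b x d d', Q a b x (d + d') = Q a b x d + Q a b x d' := by
    intro a b x d d'
    rw [hQ, hQ, hQ, a2, a2, a4, a4]
    ring
  have t12 : ∀ a b x d, Q a b x d = - Q b a x d := by
    intro a b x d
    rw [hQ, hQ]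
    ring
  have t34 : ∀ a b x d, Q a b x d = - Q a b d x := by
    intro a b x d
    rw [hQ, hQ]
    ring
  have pr : ∀ a b x d, Q a b x d = Q x d a b := by
    intro a b x d
    rw [hQ, hQ, c d b, s b d x a, c d a, s a d x b, c x b, s b x d a, c x a, s a x d b]
    ring
  have bi : ∀ a b x d, Q a b x d + Q b x a d + Q x a b d = 0 := by
    intro a b x d
    rw [hQ, hQ, hQ, s b d x a, c x b a d, s a d x b, c x a b d, s x d b a, c b a x d]
    ring
  have h1 : ∀ a b x, Q a b x b = 0 := by
    intro a b x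
    have h := q0 (a + x) b
    rw [q1, q3, q3, q0, q0, pr x b a b] at h
    linarith
  have t24 : ∀ a b x d, Q a b x d = - Q a d x b := by
    intro a b x d
    have h := h1 a (b + d) x
    rw [q2, q4, q4, h1, h1] at h
    linarith
  have h3 : Q l m w v = 0 := by
    have e1 : Q m w l v = Q l m w v := by
      rw [t34 m w l v, t24 m w v l, t12 m l v w, t34 l m v w]
      ring
    have e2 : Q w l m v = Q l m w v := by
      rw [t12 w l m v, t24 l w m v, t34 l v m w, t24 l v w m]
      ring
    have h := bi l m w v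
    rw [e1, e2] at h
    linarith
  rw [hQ] at h3
  linarith

/-- Row A4 (algebra). Put `Q(a,b,c,d) = J2 b d a c - J2 b c a d - J2 a d b c + J2 a c b d` (as numbers
at the point `g`). By the symmetries of `J2` it is antisymmetric in `a, b`, antisymmetric in `c, d`,
symmetric under the exchange of the pairs, satisfies the Bianchi identity, and
`Q(a,b,a,b) = J2 b b a a - 2 J2 b a a b + J2 a a b b = 0` (`Flat`). An algebraic curvature tensor with
zero sectional curvature vanishes (polarize twice: `Q(a,b,a,d) = 0`, then `Q(a,b,c,d) = - Q(c,b,a,d)`,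
so `Q` is antisymmetric in all arguments and Bianchi gives `3 Q = 0`). The statement is
`Q(l,m,w,v) = 0`. -/
theorem om_symm {n : ℕ} (J2 : V0 n →ₗ[ℝ] V0 n →ₗ[ℝ] V0 n →ₗ[ℝ] V0 n →ₗ[ℝ] Fn n)
    (sym2 : ∀ x y v w, J2 x y v w = J2 x y w v) (com2 : ∀ x y v w, J2 x y v w = J2 y x v w)
    (hS : Flat J2) (l m v w : V0 n) (g : SL n) :
    J2 m v l w g - J2 m w l v g = J2 l v m w g - J2 l w m v g := by
  refine A4_alg (fun x y v w => J2 x y v w g) ?_ ?_ ?_ ?_ ?_ ?_ ?_ l m v w
  · intro x x' y v w
    show J2 (x + x') y v w g = J2 x y v w g + J2 x' y v w g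
    rw [map_add]
    rfl
  · intro x y y' v w
    show J2 x (y + y') v w g = J2 x y v w g + J2 x y' v w g
    rw [map_add]
    rfl
  · intro x y v v' w
    show J2 x y (v + v') w g = J2 x y v w g + J2 x y v' w g
    rw [map_add]
    rfl
  · intro x y v w w'
    show J2 x y v (w + w') g = J2 x y v w g + J2 x y v w' g
    rw [map_add]
    rfl
  · intro x y v w
    show J2 x y v w g = J2 x y w v g
    rw [sym2]
  · intro x y v w
    show J2 x y v w g = J2 y x v w g
    rw [com2]
  · intro v w
    exact hS v w g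

end LibNC27
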