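import Pool.Agent.LibNC38.J4

set_option autoImplicit false

open Matrix MeasureTheory Topology Filter LibNC38

namespace LibNC27

/-- `n × n` matrices -/
abbrev Mt (n : ℕ) : Type := Matrix (Fin n) (Fin n) ℝ

/-- functions on `SL_n(ℝ)` -/
abbrev Fn (n : ℕ) : Type := SL n → ℝ

/-- the coroot `e_i - e_j` -/
noncomputable def Hv {n : ℕ} (i j : Fin n) : V0 n :=
  ⟨WithLp.toLp 2 fun a => (if a = i then (1 : ℝ) else 0) - (if a = j then 1 else 0), by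
    show ∑ a, ((if a = i then (1 : ℝ) else 0) - (if a = j then 1 else 0)) = 0
    simp⟩

/-- the Weyl element `k_ij = U_ij(1) U_ji(-1) U_ij(1)`: `k e_i = - e_j`, `k e_j = e_i` -/
noncomputable def kk {n : ℕ} (i j : Fin n) (h : i ≠ j) : SL n :=
  tv i j h 1 * tv j i h.symm (-1) * tv i j h 1

/-- the reflection of the Cartan subspace: exchange of the coordinates `i, j` -/
noncomputable def sw {n : ℕ} (i j : Fin n) (v : V0 n) : V0 n :=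
  ⟨WithLp.toLp 2 fun a => v.1 (Equiv.swap i j a), by
    show ∑ a, v.1 (Equiv.swap i j a) = 0
    rw [Equiv.sum_comp (Equiv.swap i j) (fun a => v.1 a)]
    exact sum_V0 v⟩

/-- continuous left `Γ`-invariant functions -/
structure Inv {n : ℕ} (Γ : Subgroup (SL n)) (F : Fn n) : Prop where
  cont : Continuous F
  inv : ∀ γ ∈ Γ, ∀ g, F (γ * g) = F g

/-- `F'` is the derivative of `F` along the flow `g ↦ g e^(t w)` -/
def Rd {n : ℕ} (w : V0 n) (F F' : Fn n) : Prop :=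
  ∀ g, HasDerivAt (fun t : ℝ => F (g * dgm (t • w))) (F' g) 0

/-- the 2-jet along the flats of a tensor: `J v w`, `J1 x v w = R_x J(v,w)`,
`J2 x y v w = R_x R_y J(v,w)` for `x, y, v, w` in the Cartan subspace. -/
structure Ab {n : ℕ} (Γ : Subgroup (SL n)) (J : V0 n →ₗ[ℝ] V0 n →ₗ[ℝ] Fn n)
    (J1 : V0 n →ₗ[ℝ] V0 n →ₗ[ℝ] V0 n →ₗ[ℝ] Fn n)
    (J2 : V0 n →ₗ[ℝ] V0 n →ₗ[ℝ] V0 n →ₗ[ℝ] V0 n →ₗ[ℝ] Fn n) : Prop where
  inv0 : ∀ v w, Inv Γ (J v w)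
  inv1 : ∀ x v w, Inv Γ (J1 x v w)
  inv2 : ∀ x y v w, Inv Γ (J2 x y v w)
  sym0 : ∀ v w, J v w = J w v
  sym1 : ∀ x v w, J1 x v w = J1 x w v
  sym2 : ∀ x y v w, J2 x y v w = J2 x y w v
  com2 : ∀ x y v w, J2 x y v w = J2 y x v w
  d1 : ∀ x v w, Rd x (J v w) (J1 x v w)
  d2 : ∀ x y v w, Rd x (J1 y v w) (J2 x y v w)
  k0 : ∀ (i j : Fin n) (h : i ≠ j) (v w : V0 n) (g : SL n),
    J v w (g * kk i j h) = J (sw i j v) (sw i j w) g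
  k1 : ∀ (i j : Fin n) (h : i ≠ j) (x v w : V0 n) (g : SL n),
    J1 x v w (g * kk i j h) = J1 (sw i j x) (sw i j v) (sw i j w) g
  lip0 : ∀ (v w : V0 n) (i j : Fin n) (h : i ≠ j), ∃ C : ℝ, ∀ (g : SL n) (r : ℝ),
    |J v w (g * tv i j h r) - J v w g| ≤ C * |r|
  lip1 : ∀ (x v w : V0 n) (i j : Fin n) (h : i ≠ j), ∃ C : ℝ, ∀ (g : SL n) (r : ℝ),
    |J1 x v w (g * tv i j h r) - J1 x v w g| ≤ C * |r|

/-- the linearized curvature of the flats vanishes -/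
def Flat {n : ℕ} (J2 : V0 n →ₗ[ℝ] V0 n →ₗ[ℝ] V0 n →ₗ[ℝ] V0 n →ₗ[ℝ] Fn n) : Prop :=
  ∀ (v w : V0 n) (g : SL n), J2 w w v v g - 2 * J2 w v v w g + J2 v v w w g = 0

/-- `om J1 v w l = R_v J(l,w) - R_w J(l,v)`, linear in `l` -/
noncomputable def om {n : ℕ} (J1 : V0 n →ₗ[ℝ] V0 n →ₗ[ℝ] V0 n →ₗ[ℝ] Fn n) (v w : V0 n) :
    V0 n →ₗ[ℝ] Fn n := (J1 v).flip w - (J1 w).flip v

theorem om_apply {n : ℕ} (J1 : V0 n →ₗ[ℝ] V0 n →ₗ[ℝ] V0 n →ₗ[ℝ] Fn n) (v w l : V0 n) (g : SL n) :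
    om J1 v w l g = J1 v l w g - J1 w l v g := rfl

/-- the hypotheses of the potential lemma for the root `(i, j)` -/
structure Clo {n : ℕ} (Γ : Subgroup (SL n)) (i j : Fin n) (h : i ≠ j)
    (e : V0 n →ₗ[ℝ] Fn n) : Prop where
  inv : ∀ v, Inv Γ (e v)
  clo : ∃ E : V0 n → V0 n → Fn n, (∀ x v, Continuous (E x v)) ∧ (∀ x v, Rd x (e v) (E x v)) ∧
    ∀ x v, E x v = E v x
  lip : ∃ C : ℝ, ∀ (g : SL n) (r : ℝ), |e (Hv i j) (g * tv i j h r) - e (Hv i j) g| ≤ C * |r|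
  lip' : ∃ C : ℝ, ∀ (g : SL n) (r : ℝ),
    |e (Hv i j) (g * tv j i h.symm r) - e (Hv i j) g| ≤ C * |r|
  anti : ∀ v : V0 n, v.1 i = v.1 j → ∀ g, e v (g * kk i j h) = - e v g

/-- `P(g, r) = - ∫_0^∞ [f (g U_ij(r) e^(s H)) - f (g e^(s H))] ds` -/
noncomputable def Pf {n : ℕ} (i j : Fin n) (h : i ≠ j) (f : Fn n) (g : SL n) (r : ℝ) : ℝ :=
  - ∫ s in Set.Ioi (0 : ℝ), (f (g * tv i j h r * dgm (s • Hv i j)) - f (g * dgm (s • Hv i j)))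

/-- the potential: half the integral over the broken path from `g k` to `g`; here
`f = e (Hv i j)`, so `- f = e (Hv j i)` -/
noncomputable def tau {n : ℕ} (i j : Fin n) (h : i ≠ j) (f : Fn n) (g : SL n) : ℝ :=
  -(1 / 2) * (Pf i j h f g 1 + Pf j i h.symm (fun x => - f x) (g * tv i j h 1) (-1) +
    Pf i j h f (g * tv i j h 1 * tv j i h.symm (-1)) 1)

/-- the potentials `u` (linear on the Cartan subspace), with the correction `Θ` -/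
structure Pot {n : ℕ} (Γ : Subgroup (SL n)) (J : V0 n →ₗ[ℝ] V0 n →ₗ[ℝ] Fn n)
    (J1 : V0 n →ₗ[ℝ] V0 n →ₗ[ℝ] V0 n →ₗ[ℝ] Fn n) (u : V0 n →ₗ[ℝ] Fn n)
    (T : V0 n →ₗ[ℝ] V0 n →ₗ[ℝ] Fn n) (c : ℝ) : Prop where
  invu : ∀ v, Inv Γ (u v)
  invT : ∀ v w, Inv Γ (T v w)
  du : ∀ x v, Rd x (u v) (fun g => J x v g + T x v g - c * inner ℝ x v)
  dT : ∀ x v w, Rd x (T v w) (om J1 v w x)
  antiu : ∀ (i j : Fin n) (h : i ≠ j) (g : SL n), u (Hv i j) (g * kk i j h) = - u (Hv i j) g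
  antiT : ∀ (i j : Fin n) (h : i ≠ j) (v : V0 n) (g : SL n),
    T v (Hv i j) (g * kk i j h) = - T v (Hv i j) g
  diag : ∀ v g, T v v g = 0

end LibNC27
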