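import Pool.Agent.LibNC27.P7
import Pool.Agent.LibNC27.A4
import Pool.Agent.LibNC27.A1b

set_option autoImplicit false

open Matrix MeasureTheory Topology Filter LibNC38

namespace LibNC27

/-- Row L1a. `v i = v j`, `H = Hv i j`: `e = om J1 v H` satisfies `Clo`. `E x l g = J2 x v l H g -
J2 x H l v g`, symmetric in `(x, l)` by A4 (`om_symm` with `m = x`, `l`, `v`, `w = H`) and `com2`;
Lipschitz bounds from `lip1` (a difference of two), `anti`: `k1` with `sw i j l = l`, `sw i j v = v`,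
`sw i j H = - H` (A1b). -/
theorem clo_om {n : ℕ} (Γ : Subgroup (SL n)) (J : V0 n →ₗ[ℝ] V0 n →ₗ[ℝ] Fn n)
    (J1 : V0 n →ₗ[ℝ] V0 n →ₗ[ℝ] V0 n →ₗ[ℝ] Fn n)
    (J2 : V0 n →ₗ[ℝ] V0 n →ₗ[ℝ] V0 n →ₗ[ℝ] V0 n →ₗ[ℝ] Fn n) (A : Ab Γ J J1 J2) (hS : Flat J2)
    (i j : Fin n) (h : i ≠ j) (v : V0 n) (hv : v.1 i = v.1 j) :
    Clo Γ i j h (om J1 v (Hv i j)) := by
  refine ⟨?_, ?_, ?_, ?_, ?_⟩
  · intro l
    refine ⟨?_, ?_⟩
    · exact (A.inv1 v l (Hv i j)).cont.sub (A.inv1 (Hv i j) l v).cont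
    · intro γ hγ g
      rw [om_apply, om_apply, (A.inv1 v l (Hv i j)).inv γ hγ g, (A.inv1 (Hv i j) l v).inv γ hγ g]
  · refine ⟨fun x l g => J2 x v l (Hv i j) g - J2 x (Hv i j) l v g, ?_, ?_, ?_⟩
    · intro x l
      exact (A.inv2 x v l (Hv i j)).cont.sub (A.inv2 x (Hv i j) l v).cont
    · intro x l g
      exact (A.d2 x v l (Hv i j) g).sub (A.d2 x (Hv i j) l v g)
    · intro x l
      funext g
      exact om_symm J2 A.sym2 A.com2 hS l x v (Hv i j) g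
  · obtain ⟨C1, h1⟩ := A.lip1 v (Hv i j) (Hv i j) i j h
    obtain ⟨C2, h2⟩ := A.lip1 (Hv i j) (Hv i j) v i j h
    refine ⟨C1 + C2, fun g r => ?_⟩
    rw [om_apply, om_apply]
    have e1 := h1 g r
    have e2 := h2 g r
    rw [abs_le] at e1 e2 ⊢
    constructor <;> linarith
  · obtain ⟨C1, h1⟩ := A.lip1 v (Hv i j) (Hv i j) j i h.symm
    obtain ⟨C2, h2⟩ := A.lip1 (Hv i j) (Hv i j) v j i h.symm
    refine ⟨C1 + C2, fun g r => ?_⟩
    rw [om_apply, om_apply]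
    have e1 := h1 g r
    have e2 := h2 g r
    rw [abs_le] at e1 e2 ⊢
    constructor <;> linarith
  · intro l hl g
    obtain ⟨-, -, s3, s4, -, -⟩ := sw_facts i j h
    rw [om_apply, om_apply, A.k1, A.k1, s3 v hv, s3 l hl, s4]
    have e1 : J1 v l (-Hv i j) g = -J1 v l (Hv i j) g := by
      rw [map_neg]
      rfl
    have e2 : J1 (-Hv i j) l v g = -J1 (Hv i j) l v g := by
      rw [map_neg]
      rfl
    rw [e1, e2]
    ring

end LibNC27
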