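import Pool.Agent.LibNC27.L1a
import Pool.Agent.LibNC27.A2a
import Pool.Agent.LibNC27.A2b

set_option autoImplicit false

open Matrix MeasureTheory Topology Filter LibNC38

namespace LibNC27

private theorem L1b_om_add {n : ℕ} (J1 : V0 n →ₗ[ℝ] V0 n →ₗ[ℝ] V0 n →ₗ[ℝ] Fn n)
    (v w H l : V0 n) : om J1 (v + w) H l = om J1 v H l + om J1 w H l := by
  funext g
  rw [Pi.add_apply, om_apply, om_apply, om_apply]
  simp only [map_add, LinearMap.add_apply, Pi.add_apply]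
  ring

private theorem L1b_om_smul {n : ℕ} (J1 : V0 n →ₗ[ℝ] V0 n →ₗ[ℝ] V0 n →ₗ[ℝ] Fn n)
    (c : ℝ) (v H l : V0 n) : om J1 (c • v) H l = c • om J1 v H l := by
  funext g
  rw [Pi.smul_apply, om_apply, om_apply]
  simp only [map_smul, LinearMap.smul_apply, Pi.smul_apply, smul_eq_mul]
  ring

private theorem L1b_om_self {n : ℕ} (J1 : V0 n →ₗ[ℝ] V0 n →ₗ[ℝ] V0 n →ₗ[ℝ] Fn n)
    (H l : V0 n) : om J1 H H l = 0 := by
  funext g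
  rw [om_apply, sub_self]
  rfl

private theorem L1b_Hij {n : ℕ} (i j : Fin n) (h : i ≠ j) :
    (Hv i j : V0 n).1 i - (Hv i j : V0 n).1 j = 2 := by
  have h1 := (Hv_facts i j h).1
  rw [h1, h1, if_pos rfl, if_neg h, if_neg h.symm, if_pos rfl]
  norm_num

/-- The properties of the potential for `v`. -/
private def L1b_Good {n : ℕ} (Γ : Subgroup (SL n)) (J1 : V0 n →ₗ[ℝ] V0 n →ₗ[ℝ] V0 n →ₗ[ℝ] Fn n)
    (i j : Fin n) (h : i ≠ j) (v : V0 n) (τ : Fn n) : Prop :=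
  Inv Γ τ ∧ (∀ l, Rd l τ (om J1 v (Hv i j) l)) ∧ ∀ g, τ (g * kk i j h) = - τ g

private theorem L1b_add {n : ℕ} {Γ : Subgroup (SL n)}
    {J1 : V0 n →ₗ[ℝ] V0 n →ₗ[ℝ] V0 n →ₗ[ℝ] Fn n} {i j : Fin n} {h : i ≠ j} {v w : V0 n}
    {τ σ : Fn n} (h1 : L1b_Good Γ J1 i j h v τ) (h2 : L1b_Good Γ J1 i j h w σ) :
    L1b_Good Γ J1 i j h (v + w) (τ + σ) := by
  refine ⟨⟨h1.1.cont.add h2.1.cont, fun γ hγ g => ?_⟩, fun l => ?_, fun g => ?_⟩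
  · rw [Pi.add_apply, Pi.add_apply, h1.1.inv γ hγ, h2.1.inv γ hγ]
  · rw [L1b_om_add]
    exact fun g => (h1.2.1 l g).add (h2.2.1 l g)
  · rw [Pi.add_apply, Pi.add_apply, h1.2.2, h2.2.2]
    ring

private theorem L1b_smul {n : ℕ} {Γ : Subgroup (SL n)}
    {J1 : V0 n →ₗ[ℝ] V0 n →ₗ[ℝ] V0 n →ₗ[ℝ] Fn n} {i j : Fin n} {h : i ≠ j} {v : V0 n}
    {τ : Fn n} (c : ℝ) (h1 : L1b_Good Γ J1 i j h v τ) :
    L1b_Good Γ J1 i j h (c • v) (c • τ) := by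
  refine ⟨⟨h1.1.cont.const_smul c, fun γ hγ g => ?_⟩, fun l => ?_, fun g => ?_⟩
  · rw [Pi.smul_apply, Pi.smul_apply, h1.1.inv γ hγ]
  · rw [L1b_om_smul]
    exact fun g => (h1.2.1 l g).const_smul c
  · rw [Pi.smul_apply, Pi.smul_apply, h1.2.2, smul_neg]

private theorem L1b_uniq {n : ℕ} {Γ : Subgroup (SL n)} (hc : Coc Γ)
    {J1 : V0 n →ₗ[ℝ] V0 n →ₗ[ℝ] V0 n →ₗ[ℝ] Fn n} {i j : Fin n} {h : i ≠ j} {v : V0 n}
    {τ σ : Fn n} (h1 : L1b_Good Γ J1 i j h v τ) (h2 : L1b_Good Γ J1 i j h v σ) : τ = σ := by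
  funext g
  have hF : Inv Γ (fun g => τ g - σ g) :=
    ⟨h1.1.cont.sub h2.1.cont, fun γ hγ g => by
      show τ (γ * g) - σ (γ * g) = τ g - σ g
      rw [h1.1.inv γ hγ, h2.1.inv γ hγ]⟩
  have hR : Rd (Hv i j) (fun g => τ g - σ g) (fun _ => 0) := by
    intro g
    have h3 := (h1.2.1 (Hv i j) g).sub (h2.2.1 (Hv i j) g)
    rw [sub_self] at h3
    exact h3
  have h3 := zero_of_anti Γ hc _ hF (Hv i j) (Hv_facts i j h).2.2.2.1 hR (kk i j h) (fun g => by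
    show τ (g * kk i j h) - σ (g * kk i j h) = -(τ g - σ g)
    rw [h1.2.2, h2.2.2]
    ring) g
  exact sub_eq_zero.1 h3

private theorem L1b_zero {n : ℕ} {Γ : Subgroup (SL n)}
    {J1 : V0 n →ₗ[ℝ] V0 n →ₗ[ℝ] V0 n →ₗ[ℝ] Fn n} {i j : Fin n} {h : i ≠ j} :
    L1b_Good Γ J1 i j h (Hv i j) 0 := by
  refine ⟨⟨continuous_const, fun γ hγ g => rfl⟩, fun l => ?_, fun g => ?_⟩
  · rw [L1b_om_self]
    exact fun g => hasDerivAt_const _ _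
  · rw [Pi.zero_apply, Pi.zero_apply, neg_zero]

private theorem L1b_ker {n : ℕ} (hn : 3 ≤ n) (Γ : Subgroup (SL n)) (hc : Coc Γ)
    (J : V0 n →ₗ[ℝ] V0 n →ₗ[ℝ] Fn n) (J1 : V0 n →ₗ[ℝ] V0 n →ₗ[ℝ] V0 n →ₗ[ℝ] Fn n)
    (J2 : V0 n →ₗ[ℝ] V0 n →ₗ[ℝ] V0 n →ₗ[ℝ] V0 n →ₗ[ℝ] Fn n) (A : Ab Γ J J1 J2) (hS : Flat J2)
    (i j : Fin n) (h : i ≠ j) (v : V0 n) (hv : v.1 i = v.1 j) :
    ∃ τ, L1b_Good Γ J1 i j h v τ := by
  obtain ⟨τ, m, hτ, hd, ha⟩ := potential_all hn Γ hc i j h _ (clo_om Γ J J1 J2 A hS i j h v hv)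
  have hH := L1b_Hij (n := n) i j h
  have hm : 2 * m = 0 := by
    refine box_zero Γ hc (J (Hv i j) (Hv i j)) (fun g => - J (Hv i j) v g - τ g)
      (J1 v (Hv i j) (Hv i j)) (fun g => - J1 (Hv i j) (Hv i j) v g -
        (om J1 v (Hv i j) (Hv i j) g - m * ((Hv i j : V0 n).1 i - (Hv i j : V0 n).1 j)))
      (A.inv0 _ _) ⟨(A.inv0 _ _).cont.neg.sub hτ.cont, fun γ hγ g => ?_⟩ (A.inv1 _ _ _).cont ?_
      v (Hv i j) (A.d1 v (Hv i j) (Hv i j)) (fun g => (A.d1 (Hv i j) (Hv i j) v g).neg.sub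
        (hd (Hv i j) g)) (2 * m) (fun g => ?_)
    · show - J (Hv i j) v (γ * g) - τ (γ * g) = - J (Hv i j) v g - τ g
      rw [(A.inv0 _ _).inv γ hγ, hτ.inv γ hγ]
    · have h1 : Continuous (om J1 v (Hv i j) (Hv i j)) :=
        ((A.inv1 v (Hv i j) (Hv i j)).cont.sub (A.inv1 (Hv i j) (Hv i j) v).cont)
      exact (A.inv1 (Hv i j) (Hv i j) v).cont.neg.sub (h1.sub continuous_const)
    · show J1 v (Hv i j) (Hv i j) g + (- J1 (Hv i j) (Hv i j) v g -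
        (om J1 v (Hv i j) (Hv i j) g - m * ((Hv i j : V0 n).1 i - (Hv i j : V0 n).1 j))) = 2 * m
      rw [om_apply, hH]
      ring
  have hm0 : m = 0 := by linarith
  refine ⟨τ, hτ, fun l g => ?_, ha⟩
  have h1 := hd l g
  rw [hm0] at h1
  simp only [zero_mul, sub_zero] at h1
  exact h1

private theorem L1b_all {n : ℕ} (hn : 3 ≤ n) (Γ : Subgroup (SL n)) (hc : Coc Γ)
    (J : V0 n →ₗ[ℝ] V0 n →ₗ[ℝ] Fn n) (J1 : V0 n →ₗ[ℝ] V0 n →ₗ[ℝ] V0 n →ₗ[ℝ] Fn n)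
    (J2 : V0 n →ₗ[ℝ] V0 n →ₗ[ℝ] V0 n →ₗ[ℝ] V0 n →ₗ[ℝ] Fn n) (A : Ab Γ J J1 J2) (hS : Flat J2)
    (i j : Fin n) (h : i ≠ j) (v : V0 n) : ∃ τ, L1b_Good Γ J1 i j h v τ := by
  obtain ⟨v', hv', hvv⟩ := (Hv_facts i j h).2.2.2.2.1 v
  obtain ⟨τ, hτ⟩ := L1b_ker hn Γ hc J J1 J2 A hS i j h v' hv'
  have h1 := L1b_add hτ (L1b_smul ((v.1 i - v.1 j) / 2)
    (L1b_zero (Γ := Γ) (J1 := J1) (i := i) (j := j) (h := h)))
  rw [← hvv] at h1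
  exact ⟨_, h1⟩

/-- Row L1b. The first potentials. For `v i = v j`: `potential_all` gives `τ, m`; `m = 0` by
`box_zero`: at `l = Hv i j`, `2 m = om J1 v H H - (derivative of τ along H)
= J1 v H H - (J1 H H v + τ')`: derivative of `J H H` along `v` plus derivative of `-(J H v + τ)` along `H`.
For general `v = v' + ((v i - v j)/2) • H` use `om J1 v H = om J1 v' H` (`om J1 H H = 0`). So for every
`v` there is `τ_v` with the properties; it is unique (A2a `zero_of_anti`), hence linear in `v`. -/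
theorem theta_exists {n : ℕ} (hn : 3 ≤ n) (Γ : Subgroup (SL n)) (hc : Coc Γ)
    (J : V0 n →ₗ[ℝ] V0 n →ₗ[ℝ] Fn n) (J1 : V0 n →ₗ[ℝ] V0 n →ₗ[ℝ] V0 n →ₗ[ℝ] Fn n)
    (J2 : V0 n →ₗ[ℝ] V0 n →ₗ[ℝ] V0 n →ₗ[ℝ] V0 n →ₗ[ℝ] Fn n) (A : Ab Γ J J1 J2) (hS : Flat J2)
    (i j : Fin n) (h : i ≠ j) :
    ∃ θ : V0 n →ₗ[ℝ] Fn n, (∀ v, Inv Γ (θ v)) ∧ (∀ v l, Rd l (θ v) (om J1 v (Hv i j) l)) ∧
      (∀ v g, θ v (g * kk i j h) = - θ v g) ∧ θ (Hv i j) = 0 := by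
  choose f hf using L1b_all hn Γ hc J J1 J2 A hS i j h
  refine ⟨{ toFun := f
            map_add' := fun v w => L1b_uniq hc (hf (v + w)) (L1b_add (hf v) (hf w))
            map_smul' := fun c v => L1b_uniq hc (hf (c • v)) (L1b_smul c (hf v)) },
    fun v => (hf v).1, fun v l => (hf v).2.1 l, fun v g => (hf v).2.2 g, ?_⟩
  exact L1b_uniq hc (hf (Hv i j)) L1b_zero

end LibNC27
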