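import Pool.Agent.LibNC27.A1a
import Pool.Agent.LibNC27.A3

set_option autoImplicit false

open Matrix MeasureTheory Topology Filter LibNC38

namespace LibNC27

/-- Row P2 (closedness on rectangles). Both sides are the double integral of `E m l = E l m` over the
rectangle. -/
theorem rect {n : ℕ} (l m : V0 n) (e e' E : Fn n) (he : Continuous e) (he' : Continuous e')
    (hE : Continuous E) (h1 : Rd m e E) (h2 : Rd l e' E) (g : SL n) (s t : ℝ) :
    ∫ r in (0 : ℝ)..s, (e (g * dgm (t • m) * dgm (r • l)) - e (g * dgm (r • l))) =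
      ∫ r in (0 : ℝ)..t, (e' (g * dgm (s • l) * dgm (r • m)) - e' (g * dgm (r • m))) := by
  obtain ⟨-, hcomm, -, -, -, hcont⟩ := dgm_facts (n := n)
  have hL : ∀ r : ℝ, e (g * dgm (t • m) * dgm (r • l)) - e (g * dgm (r • l)) =
      ∫ q in (0 : ℝ)..t, E (g * dgm (r • l) * dgm (q • m)) := by
    intro r
    rw [Rd_ftc m e E h1 hE (g * dgm (r • l)) t, mul_assoc g, mul_assoc g, hcomm (t • m) (r • l)]
  have hR : ∀ q : ℝ, e' (g * dgm (s • l) * dgm (q • m)) - e' (g * dgm (q • m)) =
      ∫ r in (0 : ℝ)..s, E (g * dgm (r • l) * dgm (q • m)) := by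
    intro q
    have h3 : ∀ r : ℝ, E (g * dgm (r • l) * dgm (q • m)) = E (g * dgm (q • m) * dgm (r • l)) := by
      intro r
      rw [mul_assoc g, mul_assoc g, hcomm (r • l) (q • m)]
    simp only [h3]
    rw [Rd_ftc l e' E h2 hE (g * dgm (q • m)) s, mul_assoc g, mul_assoc g, hcomm (s • l) (q • m)]
  simp only [hL, hR]
  apply MeasureTheory.intervalIntegral_intervalIntegral_swap
  have hc : Continuous (Function.uncurry fun r q : ℝ => E (g * dgm (r • l) * dgm (q • m))) := by
    have h4 : Continuous fun z : ℝ × ℝ => dgm (z.1 • l) := hcont.comp (continuous_fst.smul continuous_const)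
    have h5 : Continuous fun z : ℝ × ℝ => dgm (z.2 • m) := hcont.comp (continuous_snd.smul continuous_const)
    exact hE.comp ((continuous_const.mul h4).mul h5)
  have h6 : IsCompact (Set.uIcc (0 : ℝ) s ×ˢ Set.uIcc (0 : ℝ) t) := isCompact_uIcc.prod isCompact_uIcc
  exact (hc.continuousOn.integrableOn_compact h6).mono_set
    (Set.prod_mono Set.uIoc_subset_uIcc Set.uIoc_subset_uIcc)

end LibNC27
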