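import Pool.Agent.LibNC27.P1
import Pool.Agent.LibNC27.P2

set_option autoImplicit false

open Matrix MeasureTheory Topology Filter LibNC38

namespace LibNC27

private theorem P3_err {n : ℕ} (Γ : Subgroup (SL n)) (hc : Coc Γ) (i j : Fin n) (h : i ≠ j) (l : V0 n)
    (hl : l.1 i = l.1 j) (f' : Fn n) (hf' : Inv Γ f') (g : SL n) (r t : ℝ) :
    Tendsto (fun T : ℝ => ∫ q in (0 : ℝ)..t, (f' (g * tv i j h r * dgm (T • Hv i j) * dgm (q • l)) -
      f' (g * dgm (T • Hv i j) * dgm (q • l)))) atTop (𝓝 0) := by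
  obtain ⟨-, htl, -, htv0, htv, htc⟩ := tv_facts i j h
  obtain ⟨-, hunif⟩ := unif Γ hc f' hf'.cont hf'.inv
  have hl' : ∀ q : ℝ, (q • l).1 i = (q • l).1 j := by
    intro q
    show q * l.1 i = q * l.1 j
    rw [hl]
  have hrw : ∀ T q : ℝ, g * tv i j h r * dgm (T • Hv i j) * dgm (q • l) =
      g * dgm (T • Hv i j) * dgm (q • l) * tv i j h (Real.exp (-(2 * T)) * r) := by
    intro T q
    rw [mul_assoc g, htv, ← mul_assoc g, mul_assoc (g * dgm (T • Hv i j)), htl _ _ (hl' q),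
      ← mul_assoc]
  have he0 : Tendsto (fun T : ℝ => Real.exp (-(2 * T)) * r) atTop (𝓝 0) := by
    have h1 : Tendsto (fun T : ℝ => 2 * T) atTop atTop :=
      tendsto_id.const_mul_atTop (by norm_num)
    have h2 : Tendsto (fun T : ℝ => Real.exp (-(2 * T))) atTop (𝓝 0) :=
      Real.tendsto_exp_neg_atTop_nhds_zero.comp h1
    have h3 := h2.mul_const r
    rw [zero_mul] at h3
    exact h3
  have hu : Tendsto (fun T : ℝ => tv i j h (Real.exp (-(2 * T)) * r)) atTop (𝓝 1) := by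
    have h1 : Tendsto (fun r : ℝ => tv i j h r) (𝓝 0) (𝓝 1) := by
      have h2 := htc.tendsto 0
      rw [htv0] at h2
      exact h2
    exact h1.comp he0
  rw [Metric.tendsto_nhds]
  intro ε hε
  have ht : 0 < |t| + 1 := by
    have h1 := abs_nonneg t
    linarith
  obtain ⟨U, hU, hUF⟩ := hunif (ε / (|t| + 1) / 2) (by positivity)
  filter_upwards [hu.eventually_mem hU] with T hT
  rw [Real.dist_eq, sub_zero]
  have h2 : ‖∫ q in (0 : ℝ)..t, (f' (g * tv i j h r * dgm (T • Hv i j) * dgm (q • l)) -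
      f' (g * dgm (T • Hv i j) * dgm (q • l)))‖ ≤ ε / (|t| + 1) / 2 * |t - 0| := by
    apply intervalIntegral.norm_integral_le_of_norm_le_const
    intro q _
    rw [hrw T q, Real.norm_eq_abs]
    exact hUF _ _ hT
  rw [Real.norm_eq_abs, sub_zero] at h2
  refine h2.trans_lt ?_
  have h3 : ε / (|t| + 1) * (|t| + 1) = ε := div_mul_cancel₀ _ ht.ne'
  have h4 : 0 < ε / (|t| + 1) := by positivity
  have h5 := abs_nonneg t
  nlinarith

/-- Row P3. `Pf` along the centralizer of the root group. Let `g' = g * tv r` (so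
`g * dgm (t • l) * tv r = g' * dgm (t • l)` as `l i = l j`), `f = e H`. By P1 the left side is the
limit for `T → ∞` of
`- ∫ s in 0..T, [(f (g' e^(tl) e^(sH)) - f (g' e^(sH))) - (f (g e^(tl) e^(sH)) - f (g e^(sH)))]`,
which by P2 (`rect` with `e = f = e H`, `e' = e l`, directions `l := H`, `m := l`) is
`- ∫ q in 0..t, [(e l (g' e^(TH) e^(ql)) - e l (g' e^(ql))) - (e l (g e^(TH) e^(ql)) - e l (g e^(ql)))]`.
The terms at `T` tend to zero uniformly in `q`: `g' e^(TH) e^(ql) = g e^(TH) e^(ql) tv (e^(-2T) r)`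
and `LibNC38.unif`. `f` is `e (Hv i j)`; `f' = e l`. -/
theorem Pf_ker {n : ℕ} (Γ : Subgroup (SL n)) (hc : Coc Γ) (i j : Fin n) (h : i ≠ j) (l : V0 n)
    (hl : l.1 i = l.1 j) (f f' E : Fn n) (hf : Inv Γ f) (hf' : Inv Γ f') (hE : Continuous E)
    (h1 : Rd l f E) (h2 : Rd (Hv i j) f' E) (C : ℝ)
    (hC : ∀ (g : SL n) (r : ℝ), |f (g * tv i j h r) - f g| ≤ C * |r|) (g : SL n) (r t : ℝ) :
    Pf i j h f (g * dgm (t • l)) r - Pf i j h f g r =
      ∫ s in (0 : ℝ)..t, (f' (g * tv i j h r * dgm (s • l)) - f' (g * dgm (s • l))) := by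
  obtain ⟨-, htl, -, -, -, -⟩ := tv_facts i j h
  obtain ⟨-, -, -, -, -, hdc⟩ := dgm_facts (n := n)
  obtain ⟨-, -, -, -, hlim⟩ := Pf_facts Γ i j h f hf C hC
  have hl' : (t • l).1 i = (t • l).1 j := by
    show t * l.1 i = t * l.1 j
    rw [hl]
  have hcs : ∀ w : V0 n, Continuous fun s : ℝ => dgm (s • w) :=
    fun w => hdc.comp (continuous_id.smul continuous_const)
  have hint : ∀ (F : Fn n) (x : SL n) (w : V0 n) (a b : ℝ), Continuous F →
      IntervalIntegrable (fun s : ℝ => F (x * dgm (s • w))) volume a b := by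
    intro F x w a b hF
    exact (hF.comp (continuous_const.mul (hcs w))).intervalIntegrable a b
  have hsub : ∀ (F : Fn n) (x y : SL n) (w : V0 n) (b : ℝ), Continuous F →
      ∫ s in (0 : ℝ)..b, (F (x * dgm (s • w)) - F (y * dgm (s • w))) =
      (∫ s in (0 : ℝ)..b, F (x * dgm (s • w))) - ∫ s in (0 : ℝ)..b, F (y * dgm (s • w)) := by
    intro F x y w b hF
    exact intervalIntegral.integral_sub (hint F x w 0 b hF) (hint F y w 0 b hF)
  have hrw : g * dgm (t • l) * tv i j h r = g * tv i j h r * dgm (t • l) := by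
    rw [mul_assoc, ← htl r _ hl', ← mul_assoc]
  have key : ∀ T : ℝ,
      (- ∫ s in (0 : ℝ)..T, (f (g * dgm (t • l) * tv i j h r * dgm (s • Hv i j)) -
        f (g * dgm (t • l) * dgm (s • Hv i j)))) -
      (- ∫ s in (0 : ℝ)..T, (f (g * tv i j h r * dgm (s • Hv i j)) - f (g * dgm (s • Hv i j)))) =
      (∫ q in (0 : ℝ)..t, (f' (g * tv i j h r * dgm (q • l)) - f' (g * dgm (q • l)))) -
      ∫ q in (0 : ℝ)..t, (f' (g * tv i j h r * dgm (T • Hv i j) * dgm (q • l)) -
        f' (g * dgm (T • Hv i j) * dgm (q • l))) := by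
    intro T
    have R1 := rect (Hv i j) l f f' E hf.cont hf'.cont hE h1 h2 (g * tv i j h r) T t
    have R2 := rect (Hv i j) l f f' E hf.cont hf'.cont hE h1 h2 g T t
    rw [hsub f _ _ _ _ hf.cont, hsub f' _ _ _ _ hf'.cont] at R1 R2
    rw [hrw, hsub f _ _ _ _ hf.cont, hsub f _ _ _ _ hf.cont, hsub f' _ _ _ _ hf'.cont,
      hsub f' _ _ _ _ hf'.cont]
    linarith
  have L1 := (hlim (g * dgm (t • l)) r).sub (hlim g r)
  have L2 := (tendsto_const_nhds (x := ∫ q in (0 : ℝ)..t,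
    (f' (g * tv i j h r * dgm (q • l)) - f' (g * dgm (q • l)))) (f := (atTop : Filter ℝ))).sub
    (P3_err Γ hc i j h l hl f' hf' g r t)
  rw [sub_zero] at L2
  exact tendsto_nhds_unique L1 (L2.congr fun T => (key T).symm)

end LibNC27
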