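import Pool.Agent.LibNC27.P3
import Pool.Agent.LibNC27.A1b
import Pool.Agent.LibNC27.A3

set_option autoImplicit false

open Matrix MeasureTheory Topology Filter LibNC38

namespace LibNC27

private theorem P4_mul {n : ℕ} {Γ : Subgroup (SL n)} {F : Fn n} (hF : Inv Γ F) (k : SL n) :
    Inv Γ fun g => F (g * k) := by
  refine ⟨hF.cont.comp (continuous_id.mul continuous_const), fun γ hγ g => ?_⟩
  show F (γ * g * k) = F (g * k)
  rw [mul_assoc]
  exact hF.inv γ hγ _

/-- Row P4. `tau` is continuous and invariant (P1), and along `l` with `l i = l j` its derivative is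
`e l`: by P3 for the three terms of `tau` (the middle term with `j, i`, the function `- e H`, which is
`e (Hv j i)`, and `f' = e l`; `g * dgm (t • l) * tv 1 = g * tv 1 * dgm (t • l)`) the sum
telescopes: `tau (g e^(tl)) - tau g = -(1/2) ∫ s in 0..t, (e l (g k e^(sl)) - e l (g e^(sl)))`,
`k = kk i j h`, `g k e^(sl) = g e^(sl) k` (A1b, `sw i j l = l`) and `e l (g k) = - e l g`; A3
`Rd_of_int`. -/
theorem tau_ker {n : ℕ} (Γ : Subgroup (SL n)) (hc : Coc Γ) (i j : Fin n) (h : i ≠ j)
    (e : V0 n →ₗ[ℝ] Fn n) (H : Clo Γ i j h e) :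
    Inv Γ (tau i j h (e (Hv i j))) ∧
    ∀ l : V0 n, l.1 i = l.1 j → Rd l (tau i j h (e (Hv i j))) (e l) := by
  obtain ⟨C, hC⟩ := H.lip
  obtain ⟨C', hC'⟩ := H.lip'
  obtain ⟨E, hEc, hEd, hEs⟩ := H.clo
  have hneg : (fun x => - e (Hv i j) x) = e (Hv j i) := by
    rw [(Hv_facts i j h).2.2.1, map_neg]
    rfl
  have hC2 : ∀ (g : SL n) (r : ℝ),
      |e (Hv j i) (g * tv j i h.symm r) - e (Hv j i) g| ≤ C' * |r| := by
    intro g r
    rw [← hneg]
    show |- e (Hv i j) (g * tv j i h.symm r) - - e (Hv i j) g| ≤ C' * |r|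
    rw [neg_sub_neg, abs_sub_comm]
    exact hC' g r
  have htau : ∀ g, tau i j h (e (Hv i j)) g = -(1 / 2) * (Pf i j h (e (Hv i j)) g 1 +
      Pf j i h.symm (e (Hv j i)) (g * tv i j h 1) (-1) +
      Pf i j h (e (Hv i j)) (g * tv i j h 1 * tv j i h.symm (-1)) 1) := by
    intro g
    unfold tau
    rw [hneg]
  have hP1 := (Pf_facts Γ i j h _ (H.inv (Hv i j)) C hC).2.2.1
  have hP2 := (Pf_facts Γ j i h.symm _ (H.inv (Hv j i)) C' hC2).2.2.1
  refine ⟨?_, fun l hl => ?_⟩
  · have h1 := hP1 1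
    have h2 := P4_mul (hP2 (-1)) (tv i j h 1)
    have h3 := P4_mul (P4_mul (hP1 1) (tv j i h.symm (-1))) (tv i j h 1)
    refine ⟨?_, fun γ hγ g => ?_⟩
    · rw [show tau i j h (e (Hv i j)) = _ from funext htau]
      exact continuous_const.mul ((h1.cont.add h2.cont).add h3.cont)
    · rw [htau, htau]
      have e1 := h1.inv γ hγ g
      have e2 := h2.inv γ hγ g
      have e3 := h3.inv γ hγ g
      rw [e1, e2, e3]
  · have hq : ∀ g : SL n, Continuous fun s : ℝ => e l (g * dgm (s • l)) := by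
      intro g
      refine (H.inv l).cont.comp (continuous_const.mul ?_)
      exact (dgm_facts (n := n)).2.2.2.2.2.comp (continuous_id.smul continuous_const)
    have hcomm : ∀ (s r : ℝ), dgm (s • l) * tv i j h r = tv i j h r * dgm (s • l) := by
      intro s r
      exact ((tv_facts i j h).2.1 r (s • l) (by
        show s * l.1 i = s * l.1 j
        rw [hl])).symm
    have hcomm' : ∀ (s r : ℝ), dgm (s • l) * tv j i h.symm r = tv j i h.symm r * dgm (s • l) := by
      intro s r
      exact ((tv_facts j i h.symm).2.1 r (s • l) (by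
        show s * l.1 j = s * l.1 i
        rw [hl])).symm
    refine Rd_of_int l _ _ (H.inv l).cont fun g t => ?_
    have k1 := Pf_ker Γ hc i j h l hl (e (Hv i j)) (e l) (E l (Hv i j)) (H.inv _) (H.inv l)
      (hEc _ _) (hEd _ _) (by rw [hEs l (Hv i j)]; exact hEd _ _) C hC
    have k2 := Pf_ker Γ hc j i h.symm l hl.symm (e (Hv j i)) (e l) (E l (Hv j i)) (H.inv _) (H.inv l)
      (hEc _ _) (hEd _ _) (by rw [hEs l (Hv j i)]; exact hEd _ _) C' hC2
    have m1 := k1 g 1 t
    have m2 := k2 (g * tv i j h 1) (-1) t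
    have m3 := k1 (g * tv i j h 1 * tv j i h.symm (-1)) 1 t
    rw [intervalIntegral.integral_sub ((hq _).intervalIntegrable _ _)
      ((hq _).intervalIntegrable _ _)] at m1 m2 m3
    have hk : ∀ s : ℝ, e l (g * tv i j h 1 * tv j i h.symm (-1) * tv i j h 1 * dgm (s • l)) =
        - e l (g * dgm (s • l)) := by
      intro s
      rw [← H.anti l hl]
      unfold kk
      have e1 : dgm (s • l) * (tv i j h 1 * tv j i h.symm (-1) * tv i j h 1) =
          tv i j h 1 * tv j i h.symm (-1) * tv i j h 1 * dgm (s • l) := by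
        rw [mul_assoc (tv i j h 1) (tv j i h.symm (-1)), ← mul_assoc (dgm (s • l)) (tv i j h 1),
          hcomm, mul_assoc (tv i j h 1) (dgm (s • l)), ← mul_assoc (dgm (s • l)) (tv j i h.symm (-1)),
          hcomm', mul_assoc (tv j i h.symm (-1)) (dgm (s • l)), hcomm]
        simp only [mul_assoc]
      rw [mul_assoc g (dgm (s • l)), e1]
      simp only [mul_assoc]
    have hint : ∫ s in (0 : ℝ)..t, e l (g * tv i j h 1 * tv j i h.symm (-1) * tv i j h 1 *
        dgm (s • l)) = - ∫ s in (0 : ℝ)..t, e l (g * dgm (s • l)) := by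
      rw [← intervalIntegral.integral_neg]
      exact intervalIntegral.integral_congr fun s _ => hk s
    rw [hint] at m3
    rw [htau, htau]
    have c2 : g * dgm (t • l) * tv i j h 1 = g * tv i j h 1 * dgm (t • l) := by
      rw [mul_assoc, hcomm, mul_assoc]
    have c3 : g * tv i j h 1 * dgm (t • l) * tv j i h.symm (-1) =
        g * tv i j h 1 * tv j i h.symm (-1) * dgm (t • l) := by
      rw [mul_assoc, hcomm', ← mul_assoc]
    rw [c2, c3]
    linarith

end LibNC27
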