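import Pool.Agent.LibNC27.P2
import Pool.Agent.LibNC27.A2a
import Pool.Agent.LibNC27.A1a

set_option autoImplicit false

open Matrix MeasureTheory Topology Filter LibNC38

namespace LibNC27

private noncomputable def P5_D {n : ℕ} (τ f : Fn n) (x : V0 n) (t : ℝ) (g : SL n) : ℝ :=
  τ (g * dgm (t • x)) - τ g - ∫ s in (0 : ℝ)..t, f (g * dgm (s • x))

private theorem P5_cont_line {n : ℕ} (f : Fn n) (hf : Continuous f) (x : V0 n) (g : SL n) :
    Continuous fun s : ℝ => f (g * dgm (s • x)) := by
  have hd : Continuous fun v : V0 n => dgm v := (dgm_facts (n := n)).2.2.2.2.2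
  exact hf.comp (continuous_const.mul (hd.comp (continuous_id.smul continuous_const)))

private theorem P5_cont_g {n : ℕ} (τ f : Fn n) (hτ : Continuous τ) (hf : Continuous f) (x : V0 n)
    (t : ℝ) : Continuous fun g : SL n => P5_D τ f x t g := by
  have hd : Continuous fun v : V0 n => dgm v := (dgm_facts (n := n)).2.2.2.2.2
  unfold P5_D
  refine ((hτ.comp (continuous_id.mul continuous_const)).sub hτ).sub ?_
  refine intervalIntegral.continuous_parametric_intervalIntegral_of_continuous' ?_ 0 t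
  exact hf.comp (continuous_fst.mul (hd.comp (continuous_snd.smul continuous_const)))

private theorem P5_inv {n : ℕ} (τ f f' E : Fn n) (hf : Continuous f) (hf' : Continuous f')
    (hE : Continuous E) (l x : V0 n) (h1 : Rd l f E) (h2 : Rd x f' E) (h3 : Rd l τ f')
    (t s : ℝ) (g : SL n) : P5_D τ f x t (g * dgm (s • l)) = P5_D τ f x t g := by
  have hcomm : ∀ v w : V0 n, dgm v * dgm w = dgm w * dgm v := (dgm_facts (n := n)).2.1
  have e1 := Rd_ftc l τ f' h3 hf' (g * dgm (t • x)) s
  have e2 := Rd_ftc l τ f' h3 hf' g s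
  have e3 := rect l x f' f E hf' hf hE h2 h1 g s t
  rw [intervalIntegral.integral_sub ((P5_cont_line f' hf' l _).intervalIntegrable _ _)
    ((P5_cont_line f' hf' l _).intervalIntegrable _ _),
    intervalIntegral.integral_sub ((P5_cont_line f hf x _).intervalIntegrable _ _)
    ((P5_cont_line f hf x _).intervalIntegrable _ _), e1, e2] at e3
  have e4 : g * dgm (s • l) * dgm (t • x) = g * dgm (t • x) * dgm (s • l) := by
    rw [mul_assoc, mul_assoc, hcomm]
  unfold P5_D
  rw [e4]
  linarith

private theorem P5_add {n : ℕ} (τ f : Fn n) (hf : Continuous f) (x : V0 n) (t s : ℝ) (g : SL n) :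
    P5_D τ f x (t + s) g = P5_D τ f x t g + P5_D τ f x s (g * dgm (t • x)) := by
  have hadd : ∀ (s t : ℝ) (v : V0 n), dgm ((s + t) • v) = dgm (s • v) * dgm (t • v) :=
    (dgm_facts (n := n)).2.2.2.2.1
  have e1 : ∫ r in (0 : ℝ)..(t + s), f (g * dgm (r • x)) =
      (∫ r in (0 : ℝ)..t, f (g * dgm (r • x))) + ∫ r in t..(t + s), f (g * dgm (r • x)) :=
    (intervalIntegral.integral_add_adjacent_intervals
      ((P5_cont_line f hf x _).intervalIntegrable _ _)
      ((P5_cont_line f hf x _).intervalIntegrable _ _)).symm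
  have e2 : ∫ r in t..(t + s), f (g * dgm (r • x)) =
      ∫ r in (0 : ℝ)..s, f (g * dgm (t • x) * dgm (r • x)) := by
    have := intervalIntegral.integral_comp_add_left (a := (0 : ℝ)) (b := s)
      (fun r => f (g * dgm (r • x))) t
    rw [add_zero] at this
    rw [← this]
    refine intervalIntegral.integral_congr fun r _ => ?_
    show f (g * dgm ((t + r) • x)) = f (g * dgm (t • x) * dgm (r • x))
    rw [hadd, mul_assoc]
  unfold P5_D
  rw [e1, e2, hadd, ← mul_assoc]
  ring

private theorem P5_cont_t {n : ℕ} (τ f : Fn n) (hτ : Continuous τ) (hf : Continuous f) (x : V0 n)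
    (g : SL n) : Continuous fun t : ℝ => P5_D τ f x t g := by
  unfold P5_D
  refine ((P5_cont_line τ hτ x g).sub continuous_const).sub ?_
  exact intervalIntegral.continuous_primitive
    (fun a b => (P5_cont_line f hf x g).intervalIntegrable a b) 0

/-- Row P5. Let `τ` be continuous and invariant with derivative `f' = e l` along `l ≠ 0`, and
`f = e H`. `D t g = τ (g e^(tH)) - τ g - ∫ s in 0..t, f (g e^(sH))` is invariant under
`g ↦ g e^(rl)` (A3 `Rd_ftc` for `τ`, P2 `rect`), so constant in `g` (`LibNC38.const_of_inv`; it is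
`Inv`), additive in `t` (`D (t + s) g = D t (g e^(sH)) + D s g`) and continuous in `t`, so
`D t = - m t` with a constant `m`; `Rd_of_int`. -/
theorem der_H {n : ℕ} (Γ : Subgroup (SL n)) (hc : Coc Γ) (τ : Fn n) (hτ : Inv Γ τ) (l x : V0 n)
    (hl : l ≠ 0) (f f' E : Fn n) (hf : Inv Γ f) (hf' : Inv Γ f') (hE : Continuous E)
    (h1 : Rd l f E) (h2 : Rd x f' E) (h3 : Rd l τ f') :
    ∃ m : ℝ, Rd x τ (fun g => f g - m) := by
  classical
  have hinv : ∀ t, ∀ γ ∈ Γ, ∀ g, P5_D τ f x t (γ * g) = P5_D τ f x t g := by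
    intro t γ hγ g
    unfold P5_D
    simp only [mul_assoc]
    rw [hτ.inv γ hγ, hτ.inv γ hγ]
    congr 1
    exact intervalIntegral.integral_congr fun r _ => hf.inv γ hγ _
  have hconst : ∀ t g, P5_D τ f x t g = P5_D τ f x t 1 := by
    intro t g
    refine const_of_inv Γ hc (fun g => P5_D τ f x t g) (P5_cont_g τ f hτ.cont hf.cont x t)
      (hinv t) l ?_ hl g
    intro g
    have := P5_inv τ f f' E hf.cont hf'.cont hE l x h1 h2 h3 t 1 g
    rwa [one_smul] at this
  let d : ℝ →+ ℝ := AddMonoidHom.mk' (fun t => P5_D τ f x t 1) (by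
    intro t s
    show P5_D τ f x (t + s) 1 = P5_D τ f x t 1 + P5_D τ f x s 1
    rw [P5_add τ f hf.cont x t s 1, hconst s (1 * dgm (t • x))])
  have hdc : Continuous d := P5_cont_t τ f hτ.cont hf.cont x 1
  have hlin : ∀ t : ℝ, P5_D τ f x t 1 = t * P5_D τ f x 1 1 := by
    intro t
    have h : d.toRealLinearMap hdc (t • (1 : ℝ)) = t • d.toRealLinearMap hdc 1 := map_smul _ _ _
    rw [smul_eq_mul, mul_one, smul_eq_mul] at h
    exact h
  refine ⟨- P5_D τ f x 1 1, Rd_of_int x τ _ (hf.cont.sub continuous_const) ?_⟩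
  intro g t
  have h := hconst t g
  rw [hlin t] at h
  have e1 : ∫ s in (0 : ℝ)..t, (f (g * dgm (s • x)) - -P5_D τ f x 1 1) =
      (∫ s in (0 : ℝ)..t, f (g * dgm (s • x))) - t * -P5_D τ f x 1 1 := by
    rw [intervalIntegral.integral_sub ((P5_cont_line f hf.cont x _).intervalIntegrable _ _)
      intervalIntegrable_const, intervalIntegral.integral_const, sub_zero, smul_eq_mul]
  rw [e1]
  have h' : τ (g * dgm (t • x)) - τ g - ∫ s in (0 : ℝ)..t, f (g * dgm (s • x)) =
      t * P5_D τ f x 1 1 := h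
  linarith

end LibNC27
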