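import Pool.Agent.LibNC27.A3
import Pool.Agent.LibNC27.P1

set_option autoImplicit false

open Matrix MeasureTheory Topology Filter LibNC38

namespace LibNC27

/-- Row P6. `τ (g u) - τ g = P (g, u)` for `u = tv i j h r`, if the derivative of `τ` along `H = Hv i j`
is `f - m`: by `Rd_ftc`, `τ (g u) - τ g = [τ (g u e^(TH)) - τ (g e^(TH))] -
∫ s in 0..T, (f (g u e^(sH)) - f (g e^(sH)))` (the constants cancel), `g u e^(TH) = g e^(TH) tv (e^(-2T) r)`,
so the bracket tends to `0` (`LibNC38.unif`) and the integral to `- Pf` (P1). -/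
theorem tau_root {n : ℕ} (Γ : Subgroup (SL n)) (hc : Coc Γ) (i j : Fin n) (h : i ≠ j) (τ f : Fn n)
    (hτ : Inv Γ τ) (hf : Inv Γ f) (m : ℝ) (h1 : Rd (Hv i j) τ (fun g => f g - m)) (C : ℝ)
    (hC : ∀ (g : SL n) (r : ℝ), |f (g * tv i j h r) - f g| ≤ C * |r|) (g : SL n) (r : ℝ) :
    τ (g * tv i j h r) - τ g = Pf i j h f g r := by
  obtain ⟨-, -, -, t0, tc, tcont⟩ := tv_facts i j h
  obtain ⟨-, -, -, -, hlim⟩ := Pf_facts Γ i j h f hf C hC
  obtain ⟨-, -, -, -, -, dcont⟩ := @dgm_facts n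
  have hfc : Continuous (fun g => f g - m) := hf.cont.sub continuous_const
  have hpath : Continuous fun s : ℝ => dgm (s • Hv i j) :=
    dcont.comp (continuous_id.smul continuous_const)
  have hint : ∀ (g' : SL n) (T : ℝ), IntervalIntegrable (fun s : ℝ => f (g' * dgm (s • Hv i j)) - m)
      volume 0 T := by
    intro g' T
    apply Continuous.intervalIntegrable
    exact hfc.comp (continuous_const.mul hpath)
  have key : ∀ T : ℝ, (τ (g * tv i j h r * dgm (T • Hv i j)) - τ (g * dgm (T • Hv i j))) +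
      (- ∫ s in (0 : ℝ)..T, (f (g * tv i j h r * dgm (s • Hv i j)) - f (g * dgm (s • Hv i j)))) =
      τ (g * tv i j h r) - τ g := by
    intro T
    have e1 := Rd_ftc _ _ _ h1 hfc (g * tv i j h r) T
    have e2 := Rd_ftc _ _ _ h1 hfc g T
    have e3 : ∫ s in (0 : ℝ)..T, (f (g * tv i j h r * dgm (s • Hv i j)) - f (g * dgm (s • Hv i j))) =
        (∫ s in (0 : ℝ)..T, (f (g * tv i j h r * dgm (s • Hv i j)) - m)) -
          ∫ s in (0 : ℝ)..T, (f (g * dgm (s • Hv i j)) - m) := by
      rw [← intervalIntegral.integral_sub (hint _ T) (hint _ T)]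
      congr 1
      ext s
      ring
    rw [e3, e1, e2]
    ring
  have hz : Tendsto (fun T : ℝ => τ (g * tv i j h r * dgm (T • Hv i j)) - τ (g * dgm (T • Hv i j)))
      atTop (𝓝 0) := by
    obtain ⟨-, hu⟩ := unif Γ hc τ hτ.cont hτ.inv
    rw [Metric.tendsto_nhds]
    intro ε hε
    obtain ⟨U, hU, hU'⟩ := hu (ε / 2) (by positivity)
    have h0 : Tendsto (fun T : ℝ => Real.exp (-(2 * T)) * r) atTop (𝓝 0) := by
      have h2 : Tendsto (fun T : ℝ => 2 * T) atTop atTop :=
        tendsto_id.const_mul_atTop (by norm_num : (0 : ℝ) < 2)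
      have h3 := (Real.tendsto_exp_neg_atTop_nhds_zero.comp h2).mul_const r
      rw [zero_mul] at h3
      exact h3
    have ht : Tendsto (fun T : ℝ => tv i j h (Real.exp (-(2 * T)) * r)) atTop (𝓝 1) := by
      have h2 := (tcont.tendsto 0).comp h0
      rw [t0] at h2
      exact h2
    filter_upwards [ht hU] with T hT
    have e : g * tv i j h r * dgm (T • Hv i j) =
        g * dgm (T • Hv i j) * tv i j h (Real.exp (-(2 * T)) * r) := by
      rw [mul_assoc, tc, ← mul_assoc]
    rw [Real.dist_eq, sub_zero, e]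
    exact lt_of_le_of_lt (hU' _ _ hT) (by linarith)
  have hsum := hz.add (hlim g r)
  rw [zero_add] at hsum
  have hc2 : Tendsto (fun _ : ℝ => τ (g * tv i j h r) - τ g) atTop (𝓝 (Pf i j h f g r)) := by
    refine hsum.congr fun T => ?_
    exact key T
  exact tendsto_nhds_unique tendsto_const_nhds hc2

end LibNC27
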