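import Pool.Agent.LibNC27.P4
import Pool.Agent.LibNC27.P5
import Pool.Agent.LibNC27.P6

set_option autoImplicit false

open Matrix MeasureTheory Topology Filter LibNC38

namespace LibNC27

private theorem P7_Rd_neg {n : ℕ} (w : V0 n) (F F' : Fn n) (h : Rd w F F') :
    Rd (-w) F (fun g => - F' g) := by
  intro g
  have h1 := h g
  have h2 : HasDerivAt (fun t : ℝ => F (g * dgm (t • w))) (F' g) (-(0 : ℝ)) := by
    simpa using h1
  have h3 := HasDerivAt.comp (0 : ℝ) h2 (hasDerivAt_neg (0 : ℝ))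
  have h4 : ((fun t : ℝ => F (g * dgm (t • w))) ∘ fun x : ℝ => -x) =
      fun t : ℝ => F (g * dgm (t • (-w))) := by
    funext t
    simp only [Function.comp_apply, neg_smul, smul_neg]
  have h5 : F' g * (-1 : ℝ) = - F' g := by ring
  rw [h5] at h3
  have h6 : ((fun t : ℝ => F (g * dgm (t • w))) ∘ Neg.neg) =
      fun t : ℝ => F (g * dgm (t • (-w))) := h4
  rw [h6] at h3
  exact h3

/-- Row P7 (potential lemma). `τ = tau i j h (e (Hv i j))`. P4; P5 with `x = Hv i j`, some `l ≠ 0`,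
`l i = l j` (A1a), `f = e (Hv i j)`, `f' = e l`. For the last statement: P6 for `(i, j)` and for
`(j, i)` (`Hv j i = - Hv i j`, the derivative of `τ` along `- H` is `- e H + m`; function
`fun x => - e (Hv i j) x`), used three times along `k = tv i j 1 * tv j i (-1) * tv i j 1`:
`τ (g k) - τ g` is the sum in the definition of `tau`, i.e. `- 2 τ g`. -/
theorem potential {n : ℕ} (hn : 3 ≤ n) (Γ : Subgroup (SL n)) (hc : Coc Γ) (i j : Fin n)
    (h : i ≠ j) (e : V0 n →ₗ[ℝ] Fn n) (H : Clo Γ i j h e) :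
    ∃ (τ : Fn n) (m : ℝ), Inv Γ τ ∧ (∀ l : V0 n, l.1 i = l.1 j → Rd l τ (e l)) ∧
      Rd (Hv i j) τ (fun g => e (Hv i j) g - m) ∧ ∀ g, τ (g * kk i j h) = - τ g := by
  obtain ⟨hτ, hker⟩ := tau_ker Γ hc i j h e H
  obtain ⟨-, -, hneg, -, -, hex⟩ := Hv_facts i j h
  obtain ⟨l, hl0, hl⟩ := hex hn
  obtain ⟨E, hE1, hE2, hE3⟩ := H.clo
  obtain ⟨C, hC⟩ := H.lip
  obtain ⟨C', hC'⟩ := H.lip'
  have hx : Rd (Hv i j) (e l) (E l (Hv i j)) := by
    rw [hE3 l (Hv i j)]
    exact hE2 (Hv i j) l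
  obtain ⟨m, hm⟩ := der_H Γ hc (tau i j h (e (Hv i j))) hτ l (Hv i j) hl0 (e (Hv i j)) (e l)
    (E l (Hv i j)) (H.inv _) (H.inv _) (hE1 _ _) (hE2 _ _) hx (hker l hl)
  refine ⟨tau i j h (e (Hv i j)), m, hτ, hker, hm, ?_⟩
  intro g
  have hnf : Inv Γ (fun x => - e (Hv i j) x) := by
    refine ⟨(H.inv (Hv i j)).cont.neg, ?_⟩
    intro γ hγ x
    show - e (Hv i j) (γ * x) = - e (Hv i j) x
    rw [(H.inv (Hv i j)).inv γ hγ x]
  have hm' : Rd (Hv j i) (tau i j h (e (Hv i j)))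
      (fun g => (fun x => - e (Hv i j) x) g - (-m)) := by
    have h1 := P7_Rd_neg (Hv i j) _ _ hm
    rw [hneg]
    have h2 : (fun g : SL n => -(e (Hv i j) g - m)) =
        (fun g => (fun x => - e (Hv i j) x) g - (-m)) := by
      funext g
      show -(e (Hv i j) g - m) = - e (Hv i j) g - (-m)
      ring
    rw [← h2]
    exact h1
  have hCn : ∀ (g : SL n) (r : ℝ),
      |(fun x => - e (Hv i j) x) (g * tv j i h.symm r) - (fun x => - e (Hv i j) x) g| ≤
        C' * |r| := by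
    intro g r
    have h1 := hC' g r
    have h2 : (fun x => - e (Hv i j) x) (g * tv j i h.symm r) - (fun x => - e (Hv i j) x) g =
        -(e (Hv i j) (g * tv j i h.symm r) - e (Hv i j) g) := by
      show - e (Hv i j) (g * tv j i h.symm r) - (- e (Hv i j) g) = _
      ring
    rw [h2, abs_neg]
    exact h1
  have e1 := tau_root Γ hc i j h (tau i j h (e (Hv i j))) (e (Hv i j)) hτ (H.inv _) m hm C hC g 1
  have e2 := tau_root Γ hc j i h.symm (tau i j h (e (Hv i j))) (fun x => - e (Hv i j) x) hτ hnf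
    (-m) hm' C' hCn (g * tv i j h 1) (-1)
  have e3 := tau_root Γ hc i j h (tau i j h (e (Hv i j))) (e (Hv i j)) hτ (H.inv _) m hm C hC
    (g * tv i j h 1 * tv j i h.symm (-1)) 1
  have e4 : tau i j h (e (Hv i j)) g = -(1 / 2) * (Pf i j h (e (Hv i j)) g 1 +
      Pf j i h.symm (fun x => - e (Hv i j) x) (g * tv i j h 1) (-1) +
      Pf i j h (e (Hv i j)) (g * tv i j h 1 * tv j i h.symm (-1)) 1) := rfl
  have e5 : g * kk i j h = g * tv i j h 1 * tv j i h.symm (-1) * tv i j h 1 := by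
    unfold kk
    simp only [mul_assoc]
  rw [e5]
  linarith

/-- Row P7, all directions (A3 `Rd_dir`, `l = l' + ((l i - l j)/2) • Hv i j`, A1a). -/
theorem potential_all {n : ℕ} (hn : 3 ≤ n) (Γ : Subgroup (SL n)) (hc : Coc Γ) (i j : Fin n)
    (h : i ≠ j) (e : V0 n →ₗ[ℝ] Fn n) (H : Clo Γ i j h e) :
    ∃ (τ : Fn n) (m : ℝ), Inv Γ τ ∧ (∀ l : V0 n, Rd l τ (fun g => e l g - m * (l.1 i - l.1 j))) ∧
      ∀ g, τ (g * kk i j h) = - τ g := by
  obtain ⟨τ, m, h1, h2, h3, h4⟩ := potential hn Γ hc i j h e H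
  obtain ⟨-, -, -, -, hdec, -⟩ := Hv_facts i j h
  refine ⟨τ, m / 2, h1, ?_, h4⟩
  intro l
  obtain ⟨l', hl', hdl⟩ := hdec l
  have hcont : Continuous (fun g : SL n => e (Hv i j) g - m) :=
    (H.inv (Hv i j)).cont.sub continuous_const
  have h5 := Rd_dir l' (Hv i j) τ (e l') (fun g => e (Hv i j) g - m) (h2 l' hl') h3
    (H.inv l').cont hcont 1 ((l.1 i - l.1 j) / 2)
  rw [one_smul, ← hdl] at h5
  have h6 : e l = e l' + ((l.1 i - l.1 j) / 2) • e (Hv i j) := by
    have h7 := congrArg e hdl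
    rw [map_add, map_smul] at h7
    exact h7
  have h8 : ((1 : ℝ) • e l' + ((l.1 i - l.1 j) / 2) • fun g : SL n => e (Hv i j) g - m) =
      fun g => e l g - m / 2 * (l.1 i - l.1 j) := by
    funext g
    have h9 : e l g = e l' g + ((l.1 i - l.1 j) / 2) * e (Hv i j) g := by
      have := congrFun h6 g
      simpa [Pi.add_apply, Pi.smul_apply, smul_eq_mul] using this
    rw [h9]
    simp only [Pi.add_apply, Pi.smul_apply, smul_eq_mul, one_mul]
    ring
  rw [h8] at h5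
  exact h5

end LibNC27
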