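import Pool.Agent.LibNC27.RDefs
import Pool.Agent.LibNC27.V1
import Pool.Agent.LibNC27.A2a
import Pool.Agent.LibNC27.A3
import Pool.Agent.LibNC38.J1

set_option autoImplicit false

open Matrix MeasureTheory Topology Filter LibNC38

namespace LibNC27

/-- a bounded function with constant increments under a right multiplication is invariant -/
private theorem V2_step {G : Type*} [Group G] (F : G → ℝ) (k : G) (a B : ℝ)
    (hB : ∀ g, |F g| ≤ B) (h : ∀ g, F (g * k) = F g + a) : a = 0 := by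
  have h1 : ∀ m : ℕ, F (1 * k ^ m) = F 1 + m * a := by
    intro m
    induction m with
    | zero => simp
    | succ m ih =>
      rw [pow_succ, ← mul_assoc, h, ih]
      push_cast
      ring
  by_contra ha
  have ha' : 0 < |a| := abs_pos.2 ha
  obtain ⟨m, hm⟩ := exists_nat_gt (2 * B / |a|)
  rw [div_lt_iff₀ ha'] at hm
  have h2 : (m : ℝ) * |a| = |F (1 * k ^ m) - F 1| := by
    rw [h1, add_sub_cancel_left, abs_mul, Nat.abs_cast]
  have h3 : |F (1 * k ^ m) - F 1| ≤ |F (1 * k ^ m)| + |F 1| := abs_sub _ _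
  have h4 := hB (1 * k ^ m)
  have h5 := hB 1
  linarith

/-- Row V2. `v i = v j`. `Δ t g = u v (g k_t) - u v g`, `k_t = rot i j t`, is `Inv`; its derivative along
`v` is `0` (`du` with `x = v`: `A v v + T v v - c |v|²`, `T v v = 0`; `k_t` commutes with `dgm`;
`A v v (g k_t) = J (dM v) (dM v) (g k_t) = A v v g` by `ort0` and V1), so it is constant (A2a; if
`v = 0` everything is `0`), additive in `t` and bounded (`LibNC38.unif`), so zero. -/
theorem u_ker {n : ℕ} (Γ : Subgroup (SL n)) (hc : Coc Γ) (J : Mt n →ₗ[ℝ] Mt n →ₗ[ℝ] Fn n)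
    (J1 : Mt n →ₗ[ℝ] Mt n →ₗ[ℝ] Mt n →ₗ[ℝ] Fn n)
    (J2 : Mt n →ₗ[ℝ] Mt n →ₗ[ℝ] Mt n →ₗ[ℝ] Mt n →ₗ[ℝ] Fn n) (HJ : Jm Γ J J1 J2)
    (A : V0 n →ₗ[ℝ] V0 n →ₗ[ℝ] Fn n) (A1 : V0 n →ₗ[ℝ] V0 n →ₗ[ℝ] V0 n →ₗ[ℝ] Fn n)
    (hA : ∀ v w, A v w = J (dM v) (dM w)) (hA1 : ∀ x v w, A1 x v w = J1 (dM x) (dM v) (dM w))
    (u : V0 n →ₗ[ℝ] Fn n) (T : V0 n →ₗ[ℝ] V0 n →ₗ[ℝ] Fn n) (c : ℝ) (P : Pot Γ A A1 u T c)
    (i j : Fin n) (h : i ≠ j) (v : V0 n) (hv : v.1 i = v.1 j) (g : SL n) (t : ℝ) :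
    u v (g * rot i j t) = u v g := by
  obtain ⟨-, hort, -, -, -, -, hcom, hdM, -⟩ := rot_facts i j h
  by_cases hv0 : v = 0
  · rw [hv0, map_zero]
    rfl
  have hI := P.invu v
  have hF : Inv Γ (fun x => u v (x * rot i j t) - u v x) := by
    refine ⟨(hI.cont.comp (continuous_mul_const _)).sub hI.cont, fun γ hγ x => ?_⟩
    show u v (γ * x * rot i j t) - u v (γ * x) = u v (x * rot i j t) - u v x
    rw [mul_assoc, hI.inv γ hγ, hI.inv γ hγ]
  have hR : Rd v (fun x => u v (x * rot i j t) - u v x) (fun _ => 0) := by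
    intro x
    have h1 := (P.du v v (x * rot i j t)).sub (P.du v v x)
    have h2 : A v v (x * rot i j t) = A v v x := by
      rw [hA, HJ.ort0 _ (hort t), hdM t v hv]
    have h3 : (A v v (x * rot i j t) + T v v (x * rot i j t) - c * inner ℝ v v) -
        (A v v x + T v v x - c * inner ℝ v v) = 0 := by
      rw [h2, P.diag, P.diag]
      ring
    have h4 : (fun s : ℝ => u v (x * dgm (s • v) * rot i j t) - u v (x * dgm (s • v))) =
        fun s : ℝ => u v (x * rot i j t * dgm (s • v)) - u v (x * dgm (s • v)) := by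
      funext s
      have h5 : (s • v : V0 n).1 i = (s • v : V0 n).1 j := by
        show s * v.1 i = s * v.1 j
        rw [hv]
      rw [mul_assoc, mul_assoc, hcom t (s • v) h5]
    show HasDerivAt (fun s : ℝ => u v (x * dgm (s • v) * rot i j t) - u v (x * dgm (s • v))) 0 0
    rw [h4]
    rw [h3] at h1
    exact h1
  have hconst := const_of_Rd Γ hc _ hF v hv0 hR
  obtain ⟨⟨B, hB⟩, -⟩ := unif Γ hc (u v) hI.cont hI.inv
  have h0 := V2_step (u v) (rot i j t) (u v (1 * rot i j t) - u v 1) B hB (fun x => by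
    have h1 : u v (x * rot i j t) - u v x = u v (1 * rot i j t) - u v 1 := hconst x
    linarith)
  have h1 : u v (g * rot i j t) - u v g = u v (1 * rot i j t) - u v 1 := hconst g
  linarith

end LibNC27
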