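import Pool.Agent.LibNC27.RDefs
import Pool.Agent.LibNC27.V1
import Pool.Agent.LibNC27.A2a
import Pool.Agent.LibNC27.A3
import Pool.Agent.LibNC27.A1b

set_option autoImplicit false

open Matrix MeasureTheory Topology Filter LibNC38

namespace LibNC27

private theorem V3_mul {n : ℕ} {Γ : Subgroup (SL n)} {F : Fn n} (hF : Inv Γ F) (k : SL n) :
    Inv Γ fun g => F (g * k) := by
  refine ⟨hF.cont.comp (continuous_id.mul continuous_const), fun γ hγ g => ?_⟩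
  show F (γ * g * k) = F (g * k)
  rw [mul_assoc]
  exact hF.inv γ hγ _

/-- the derivative of `T v H` along `v` under a rotation -/
private theorem V3_rot {n : ℕ} (Γ : Subgroup (SL n)) (J : Mt n →ₗ[ℝ] Mt n →ₗ[ℝ] Fn n)
    (J1 : Mt n →ₗ[ℝ] Mt n →ₗ[ℝ] Mt n →ₗ[ℝ] Fn n)
    (J2 : Mt n →ₗ[ℝ] Mt n →ₗ[ℝ] Mt n →ₗ[ℝ] Mt n →ₗ[ℝ] Fn n) (HJ : Jm Γ J J1 J2)
    (A1 : V0 n →ₗ[ℝ] V0 n →ₗ[ℝ] V0 n →ₗ[ℝ] Fn n)
    (hA1 : ∀ x v w, A1 x v w = J1 (dM x) (dM v) (dM w))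
    (i j : Fin n) (h : i ≠ j) (v : V0 n) (hv : v.1 i = v.1 j) (g : SL n) (t : ℝ) :
    om A1 v (Hv i j) v (g * rot i j t) = Real.cos (2 * t) * om A1 v (Hv i j) v g -
      Real.sin (2 * t) * (J1 (dM v) (dM v) (Matrix.single i j (1 : ℝ) + Matrix.single j i (1 : ℝ)) g -
        J1 (Matrix.single i j (1 : ℝ) + Matrix.single j i (1 : ℝ)) (dM v) (dM v) g) := by
  have h1 := (rot_facts i j h).2.1 t
  have h2 := (rot_facts i j h).2.2.2.2.2.2.2.1 t v hv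
  have h3 := (rot_facts i j h).2.2.2.2.2.2.2.2 t
  rw [om_apply, om_apply, hA1, hA1, HJ.ort1 _ h1, HJ.ort1 _ h1, h2, h3]
  simp only [map_sub, map_smul, LinearMap.sub_apply, LinearMap.smul_apply, Pi.sub_apply, Pi.smul_apply,
    smul_eq_mul]
  ring

/-- Row V3. `v i = v j`, `H = Hv i j`, `k_t = rot i j t`. The function
`F g = T v H (g k_t) + T v H (g k_(-t)) - 2 cos 2t T v H g` is `Inv` and its derivative along `v` is the
same combination of `om A1 v H v = A1 v v H - A1 H v v`, which vanishes by `ort1` and V1: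
`J1 (dM v) (dM v) (dM H) (g k_t) = J1 (dM v) (dM v) (cos 2t dM H - sin 2t S) g`, and
`J1 (dM H) (dM v) (dM v) (g k_t) = J1 (cos 2t dM H - sin 2t S) (dM v) (dM v) g`. So `F` is constant (A2a,
`v ≠ 0`) and antisymmetric under `kk i j` (`antiT`; `kk = rot (π/2)` commutes with `k_t`), so `0`. -/
theorem T_weight {n : ℕ} (Γ : Subgroup (SL n)) (hc : Coc Γ) (J : Mt n →ₗ[ℝ] Mt n →ₗ[ℝ] Fn n)
    (J1 : Mt n →ₗ[ℝ] Mt n →ₗ[ℝ] Mt n →ₗ[ℝ] Fn n)
    (J2 : Mt n →ₗ[ℝ] Mt n →ₗ[ℝ] Mt n →ₗ[ℝ] Mt n →ₗ[ℝ] Fn n) (HJ : Jm Γ J J1 J2)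
    (A : V0 n →ₗ[ℝ] V0 n →ₗ[ℝ] Fn n) (A1 : V0 n →ₗ[ℝ] V0 n →ₗ[ℝ] V0 n →ₗ[ℝ] Fn n)
    (hA : ∀ v w, A v w = J (dM v) (dM w)) (hA1 : ∀ x v w, A1 x v w = J1 (dM x) (dM v) (dM w))
    (u : V0 n →ₗ[ℝ] Fn n) (T : V0 n →ₗ[ℝ] V0 n →ₗ[ℝ] Fn n) (c : ℝ) (P : Pot Γ A A1 u T c)
    (i j : Fin n) (h : i ≠ j) (v : V0 n) (hv : v.1 i = v.1 j) (g : SL n) (t : ℝ) :
    T v (Hv i j) (g * rot i j t) + T v (Hv i j) (g * rot i j (-t)) =
      2 * Real.cos (2 * t) * T v (Hv i j) g := by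
  rcases eq_or_ne v 0 with rfl | hv0
  · simp
  obtain ⟨-, -, hadd, -, hpi, -, hcom, -, -⟩ := rot_facts i j h
  have hT := P.invT v (Hv i j)
  obtain ⟨F, hF⟩ : ∃ F : Fn n, F = fun g => T v (Hv i j) (g * rot i j t) +
      T v (Hv i j) (g * rot i j (-t)) - 2 * Real.cos (2 * t) * T v (Hv i j) g := ⟨_, rfl⟩
  have hFi : Inv Γ F := by
    have a1 := V3_mul hT (rot i j t)
    have a2 := V3_mul hT (rot i j (-t))
    rw [hF]
    refine ⟨(a1.cont.add a2.cont).sub (continuous_const.mul hT.cont), fun γ hγ g => ?_⟩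
    have b1 := a1.inv γ hγ g
    have b2 := a2.inv γ hγ g
    have b3 := hT.inv γ hγ g
    show T v (Hv i j) (γ * g * rot i j t) + T v (Hv i j) (γ * g * rot i j (-t)) -
      2 * Real.cos (2 * t) * T v (Hv i j) (γ * g) = _
    rw [b1, b2, b3]
  have hFd : Rd v F (fun _ => 0) := by
    intro g
    have c1 : ∀ (r s : ℝ), g * dgm (s • v) * rot i j r = g * rot i j r * dgm (s • v) := by
      intro r s
      rw [mul_assoc, mul_assoc, hcom r (s • v) (by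
        show s * v.1 i = s * v.1 j
        rw [hv])]
    have d1 := P.dT v v (Hv i j) (g * rot i j t)
    have d2 := P.dT v v (Hv i j) (g * rot i j (-t))
    have d3 := P.dT v v (Hv i j) g
    have d4 := (d1.add d2).sub (d3.const_mul (2 * Real.cos (2 * t)))
    have d5 : om A1 v (Hv i j) v (g * rot i j t) + om A1 v (Hv i j) v (g * rot i j (-t)) -
        2 * Real.cos (2 * t) * om A1 v (Hv i j) v g = 0 := by
      rw [V3_rot Γ J J1 J2 HJ A1 hA1 i j h v hv, V3_rot Γ J J1 J2 HJ A1 hA1 i j h v hv,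
        show 2 * -t = -(2 * t) by ring, Real.cos_neg, Real.sin_neg]
      ring
    rw [d5] at d4
    refine d4.congr_of_eventuallyEq (Eventually.of_forall fun s => ?_)
    rw [hF]
    show T v (Hv i j) (g * dgm (s • v) * rot i j t) + T v (Hv i j) (g * dgm (s • v) * rot i j (-t)) -
      2 * Real.cos (2 * t) * T v (Hv i j) (g * dgm (s • v)) = _
    rw [c1, c1]
    rfl
  have hk : ∀ g, F (g * kk i j h) = - F g := by
    intro g
    have c1 : ∀ r : ℝ, kk i j h * rot i j r = rot i j r * kk i j h := by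
      intro r
      rw [← hpi, ← hadd, ← hadd, add_comm]
    rw [hF]
    show T v (Hv i j) (g * kk i j h * rot i j t) + T v (Hv i j) (g * kk i j h * rot i j (-t)) -
      2 * Real.cos (2 * t) * T v (Hv i j) (g * kk i j h) = -(T v (Hv i j) (g * rot i j t) +
      T v (Hv i j) (g * rot i j (-t)) - 2 * Real.cos (2 * t) * T v (Hv i j) g)
    rw [mul_assoc g, c1, mul_assoc g, c1, ← mul_assoc, ← mul_assoc, P.antiT i j h, P.antiT i j h,
      P.antiT i j h]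
    ring
  have hz := zero_of_anti Γ hc F hFi v hv0 hFd (kk i j h) hk g
  rw [hF] at hz
  dsimp only at hz
  linarith

end LibNC27
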