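import Pool.Agent.LibNC27.RDefs

set_option autoImplicit false

open Matrix MeasureTheory Topology Filter LibNC38

namespace LibNC27

private theorem V7_gen {n : ℕ} (s : Set (Fin n)) (i0 : Fin n) (h0 : i0 ∉ s)
    (v : Fin n → Fin n → ℝ)
    (hv : ∀ i ∈ s, ∀ j ∈ s, v i ⬝ᵥ v j = if i = j then 1 else 0) :
    ∃ k : Matrix.SpecialLinearGroup (Fin n) ℝ, k.1 * k.1ᵀ = 1 ∧ ∀ i ∈ s, ∀ a, k.1 a i = v i a := by
  classical
  have ho : Orthonormal ℝ (s.domRestrict (fun i => (WithLp.toLp 2 (v i) : EuclideanSpace ℝ (Fin n)))) := by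
    rw [orthonormal_iff_ite]
    rintro ⟨i, hi⟩ ⟨j, hj⟩
    have h1 := hv j hj i hi
    rw [Set.domRestrict_apply, Set.domRestrict_apply, EuclideanSpace.inner_toLp_toLp, star_trivial, h1]
    simp only [Subtype.mk.injEq, eq_comm]
  obtain ⟨b, hb⟩ := ho.exists_orthonormalBasis_extension_of_card_eq
    (by rw [finrank_euclideanSpace])
  obtain ⟨M, hM⟩ : ∃ M : Matrix (Fin n) (Fin n) ℝ, M = Matrix.of fun a i => b i a := ⟨_, rfl⟩
  have hMM : Mᵀ * M = 1 := by
    ext i j
    have h1 := orthonormal_iff_ite.1 b.orthonormal j i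
    rw [EuclideanSpace.inner_eq_star_dotProduct, star_trivial] at h1
    rw [Matrix.mul_apply, Matrix.one_apply, hM]
    simp only [Matrix.transpose_apply, Matrix.of_apply]
    rw [show (if i = j then (1 : ℝ) else 0) = if j = i then 1 else 0 by simp only [eq_comm], ← h1]
    rfl
  have hMM' : M * Mᵀ = 1 := mul_eq_one_comm.1 hMM
  have hdet : M.det = 1 ∨ M.det = -1 := by
    have h1 := congrArg Matrix.det hMM'
    rw [Matrix.det_mul, Matrix.det_transpose, Matrix.det_one] at h1
    exact mul_self_eq_one_iff.1 h1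
  have hcol : ∀ i ∈ s, ∀ a, M a i = v i a := by
    intro i hi a
    rw [hM, Matrix.of_apply, hb i hi]
  rcases hdet with hd | hd
  · exact ⟨⟨M, hd⟩, hMM', hcol⟩
  · obtain ⟨e, he⟩ : ∃ e : Fin n → ℝ, e = fun i => if i = i0 then -1 else 1 := ⟨_, rfl⟩
    have hee : Matrix.diagonal e * Matrix.diagonal e = (1 : Matrix (Fin n) (Fin n) ℝ) := by
      rw [Matrix.diagonal_mul_diagonal, ← Matrix.diagonal_one]
      congr 1
      funext i
      rw [he]
      by_cases h : i = i0 <;> simp [h]
    have hdd : (Matrix.diagonal e).det = -1 := by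
      rw [Matrix.det_diagonal, he, Finset.prod_ite_eq']
      simp
    refine ⟨⟨M * Matrix.diagonal e, ?_⟩, ?_, ?_⟩
    · rw [Matrix.det_mul, hd, hdd]
      norm_num
    · show M * Matrix.diagonal e * (M * Matrix.diagonal e)ᵀ = 1
      rw [Matrix.transpose_mul, Matrix.diagonal_transpose, Matrix.mul_assoc,
        ← Matrix.mul_assoc (Matrix.diagonal e), hee, Matrix.one_mul, hMM']
    · intro i hi a
      show (M * Matrix.diagonal e) a i = v i a
      have h1 : i ≠ i0 := fun h => h0 (h ▸ hi)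
      rw [Matrix.mul_diagonal, hcol i hi, he]
      simp [h1]

/-- Row V7 (frames). Two orthonormal vectors are the columns `l, j` of an orthogonal matrix of
determinant one, `n ≥ 3`: extend to an orthonormal basis
(`Orthonormal.exists_orthonormalBasis_extension_of_card_eq` or
`exists_orthonormalBasis_extension`, in `EuclideanSpace ℝ (Fin n)`); if the determinant is `-1` change
the sign of a third column. -/
theorem frame {n : ℕ} (hn : 3 ≤ n) (l j : Fin n) (hlj : l ≠ j) (x y : Fin n → ℝ)
    (hx : x ⬝ᵥ x = 1) (hy : y ⬝ᵥ y = 1) (hxy : x ⬝ᵥ y = 0) :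
    ∃ k : SL n, Ort k ∧ (∀ a, k.1 a l = x a) ∧ ∀ a, k.1 a j = y a := by
  obtain ⟨i0, hi0⟩ : ∃ i0 : Fin n, i0 ∉ ({l, j} : Finset (Fin n)) := by
    by_contra hcon
    push Not at hcon
    have h1 : (Finset.univ : Finset (Fin n)) ⊆ {l, j} := fun i _ => hcon i
    have h2 := Finset.card_le_card h1
    have h3 := Finset.card_le_two (a := l) (b := j)
    rw [Finset.card_univ, Fintype.card_fin] at h2
    omega
  obtain ⟨k, hk, hk'⟩ := V7_gen ({l, j} : Set (Fin n)) i0 (by simpa using hi0)
    (fun i => if i = l then x else y) (by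
      intro i hi i' hi'
      have hjl : j ≠ l := hlj.symm
      have hyx : y ⬝ᵥ x = 0 := by rw [dotProduct_comm]; exact hxy
      rcases hi with rfl | hi <;> rcases hi' with rfl | hi'
      · simpa using hx
      · rw [Set.mem_singleton_iff] at hi'
        subst hi'
        simpa [hjl, hlj] using hxy
      · rw [Set.mem_singleton_iff] at hi
        subst hi
        simpa [hjl, hlj] using hyx
      · rw [Set.mem_singleton_iff] at hi hi'
        subst hi
        subst hi'
        simpa [hjl] using hy)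
  refine ⟨k, hk, fun a => ?_, fun a => ?_⟩
  · have := hk' l (by simp) a
    simpa using this
  · have := hk' j (by simp) a
    simpa [hlj.symm] using this

theorem frame_one {n : ℕ} (hn : 3 ≤ n) (l : Fin n) (x : Fin n → ℝ) (hx : x ⬝ᵥ x = 1) :
    ∃ k : SL n, Ort k ∧ ∀ a, k.1 a l = x a := by
  obtain ⟨i0, hi0⟩ : ∃ i0 : Fin n, i0 ≠ l := by
    have : Nontrivial (Fin n) := Fin.nontrivial_iff_two_le.2 (by omega)
    exact exists_ne l
  obtain ⟨k, hk, hk'⟩ := V7_gen ({l} : Set (Fin n)) i0 (by simpa using hi0) (fun _ => x) (by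
      intro i hi i' hi'
      rw [Set.mem_singleton_iff] at hi hi'
      rw [hi, hi']
      simpa using hx)
  exact ⟨k, hk, fun a => hk' l rfl a⟩

end LibNC27
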