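import Mathlib

set_option autoImplicit false

open Matrix

namespace LibNC27

private theorem V8_pos {n : ℕ} {w : Fin n → ℝ} (hw : w ≠ 0) : 0 < w ⬝ᵥ w := by
  have h0 : 0 ≤ w ⬝ᵥ w := by
    unfold dotProduct
    exact Finset.sum_nonneg fun i _ => mul_self_nonneg _
  rcases h0.lt_or_eq with h | h
  · exact h
  · exact absurd (dotProduct_self_eq_zero.1 h.symm) hw

private theorem V8_norm {n : ℕ} {w : Fin n → ℝ} (hw : w ≠ 0) :
    ((√(w ⬝ᵥ w))⁻¹ • w) ⬝ᵥ ((√(w ⬝ᵥ w))⁻¹ • w) = 1 := by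
  have hp := V8_pos hw
  have hs : √(w ⬝ᵥ w) * √(w ⬝ᵥ w) = w ⬝ᵥ w := Real.mul_self_sqrt hp.le
  have hs0 : √(w ⬝ᵥ w) ≠ 0 := (Real.sqrt_pos.2 hp).ne'
  rw [smul_dotProduct, dotProduct_smul, smul_eq_mul, smul_eq_mul]
  field_simp
  rw [pow_two, hs]

private theorem V8_unit {n : ℕ} (hn : 2 ≤ n) (w : Fin n → ℝ) :
    ∃ (x : Fin n → ℝ) (r : ℝ), x ⬝ᵥ x = 1 ∧ w = r • x := by
  by_cases hw : w = 0
  · refine ⟨Pi.single ⟨0, by omega⟩ 1, 0, ?_, ?_⟩
    · simp
    · rw [hw, zero_smul]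
  · refine ⟨(√(w ⬝ᵥ w))⁻¹ • w, √(w ⬝ᵥ w), V8_norm hw, ?_⟩
    rw [smul_smul, mul_inv_cancel₀ (Real.sqrt_pos.2 (V8_pos hw)).ne', one_smul]

private theorem V8_perp {n : ℕ} (hn : 2 ≤ n) (x : Fin n → ℝ) :
    ∃ y : Fin n → ℝ, y ⬝ᵥ y = 1 ∧ x ⬝ᵥ y = 0 := by
  have h01 : (⟨0, by omega⟩ : Fin n) ≠ ⟨1, by omega⟩ := by
    intro h; simp at h
  set i : Fin n := ⟨0, by omega⟩
  set j : Fin n := ⟨1, by omega⟩
  by_cases h : x i = 0
  · exact ⟨Pi.single i 1, by simp, by simp [h]⟩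
  · set v : Fin n → ℝ := x i • Pi.single j 1 - x j • Pi.single i 1 with hv
    have hv0 : v ≠ 0 := by
      intro h0
      have := congrFun h0 j
      simp [hv, h01.symm] at this
      exact h this
    have hxv : x ⬝ᵥ v = 0 := by
      rw [hv, dotProduct_sub, dotProduct_smul, dotProduct_smul]
      simp [mul_comm]
    refine ⟨(√(v ⬝ᵥ v))⁻¹ • v, V8_norm hv0, ?_⟩
    rw [dotProduct_smul, hxv, smul_zero]

private theorem V8_plane {n : ℕ} (hn : 2 ≤ n) (z w : Fin n → ℝ) :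
    ∃ (x y : Fin n → ℝ) (s t s' t' : ℝ), x ⬝ᵥ x = 1 ∧ y ⬝ᵥ y = 1 ∧ x ⬝ᵥ y = 0 ∧
      z = s • x + t • y ∧ w = s' • x + t' • y := by
  obtain ⟨x, r, hx, hz⟩ := V8_unit hn z
  set w' : Fin n → ℝ := w - (x ⬝ᵥ w) • x with hw'
  have hxw : x ⬝ᵥ w' = 0 := by
    rw [hw', dotProduct_sub, dotProduct_smul, hx, smul_eq_mul, mul_one, sub_self]
  by_cases h : w' = 0
  · obtain ⟨y, hy, hxy⟩ := V8_perp hn x
    refine ⟨x, y, r, 0, x ⬝ᵥ w, 0, hx, hy, hxy, ?_, ?_⟩
    · rw [zero_smul, add_zero]; exact hz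
    · rw [zero_smul, add_zero]
      rw [hw', sub_eq_zero] at h
      exact h
  · refine ⟨x, (√(w' ⬝ᵥ w'))⁻¹ • w', r, 0, x ⬝ᵥ w, √(w' ⬝ᵥ w'), hx, V8_norm h, ?_, ?_, ?_⟩
    · rw [dotProduct_smul, hxw, smul_zero]
    · rw [zero_smul, add_zero]; exact hz
    · rw [smul_smul, mul_inv_cancel₀ (Real.sqrt_pos.2 (V8_pos h)).ne', one_smul, hw']
      abel

/-- the homogeneous extension -/
private noncomputable def V8_Q {n : ℕ} (q : (Fin n → ℝ) → ℝ) (z : Fin n → ℝ) : ℝ :=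
  (z ⬝ᵥ z) * q ((√(z ⬝ᵥ z))⁻¹ • z)

private theorem V8_quad {n : ℕ} (q : (Fin n → ℝ) → ℝ)
    (hq : ∀ x y : Fin n → ℝ, x ⬝ᵥ x = 1 → y ⬝ᵥ y = 1 → x ⬝ᵥ y = 0 →
      ∃ a b c : ℝ, ∀ t : ℝ, q (Real.cos t • x + Real.sin t • y) =
        a + b * Real.cos (2 * t) + c * Real.sin (2 * t))
    (x y : Fin n → ℝ) (hx : x ⬝ᵥ x = 1) (hy : y ⬝ᵥ y = 1) (hxy : x ⬝ᵥ y = 0) :
    ∃ A B C : ℝ, ∀ s t : ℝ, V8_Q q (s • x + t • y) = A * s ^ 2 + B * (s * t) + C * t ^ 2 := by
  obtain ⟨a, b, c, h⟩ := hq x y hx hy hxy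
  refine ⟨a + b, 2 * c, a - b, fun s t => ?_⟩
  have hyx : y ⬝ᵥ x = 0 := by rw [dotProduct_comm]; exact hxy
  have hdot : (s • x + t • y) ⬝ᵥ (s • x + t • y) = s ^ 2 + t ^ 2 := by
    simp only [add_dotProduct, dotProduct_add, smul_dotProduct, dotProduct_smul, smul_eq_mul,
      hx, hy, hxy, hyx]
    ring
  unfold V8_Q
  rw [hdot]
  by_cases h0 : s ^ 2 + t ^ 2 = 0
  · have hs : s = 0 := by nlinarith [sq_nonneg s, sq_nonneg t]
    have ht : t = 0 := by nlinarith [sq_nonneg s, sq_nonneg t]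
    rw [h0, hs, ht]; ring
  · have hpos : 0 < s ^ 2 + t ^ 2 := lt_of_le_of_ne (by positivity) (Ne.symm h0)
    set r : ℝ := √(s ^ 2 + t ^ 2) with hr
    have hr0 : 0 < r := Real.sqrt_pos.2 hpos
    have hr2 : r ^ 2 = s ^ 2 + t ^ 2 := Real.sq_sqrt hpos.le
    set z : ℂ := ⟨s, t⟩ with hz
    have hz0 : z ≠ 0 := by
      intro h1
      have e1 : s = 0 := by have := congrArg Complex.re h1; simpa [hz] using this
      have e2 : t = 0 := by have := congrArg Complex.im h1; simpa [hz] using this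
      apply h0; rw [e1, e2]; ring
    have hnz : ‖z‖ = r := by
      have h1 : ‖z‖ ^ 2 = r ^ 2 := by
        rw [← Complex.normSq_eq_norm_sq, Complex.normSq_apply, hr2]; simp only [hz]; ring
      exact (pow_left_inj₀ (norm_nonneg _) hr0.le two_ne_zero).1 h1
    set θ : ℝ := Complex.arg z with hθ
    have hc : Real.cos θ = s / r := by
      rw [hθ, Complex.cos_arg hz0, hnz]
    have hsn : Real.sin θ = t / r := by
      rw [hθ, Complex.sin_arg, hnz]
    have hvec : r⁻¹ • (s • x + t • y) = Real.cos θ • x + Real.sin θ • y := by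
      rw [smul_add, smul_smul, smul_smul, hc, hsn]
      congr 2 <;> ring
    rw [hvec, h θ, Real.cos_two_mul', Real.sin_two_mul, hc, hsn]
    have hrne : r ≠ 0 := hr0.ne'
    have hinv : (s ^ 2 + t ^ 2) / r ^ 2 = 1 := by rw [hr2]; exact div_self hpos.ne'
    have key : (s ^ 2 + t ^ 2) * (a + b * ((s / r) ^ 2 - (t / r) ^ 2) + c * (2 * (t / r) * (s / r)))
        = a * (s ^ 2 + t ^ 2) + ((s ^ 2 + t ^ 2) / r ^ 2) * (b * (s ^ 2 - t ^ 2) + c * (2 * t * s)) := by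
      field_simp
      ring
    rw [key, hinv]; ring

/-- Row V8 (Jordan - von Neumann). Put `Q z = |z|² q (z/|z|)`, `Q 0 = 0`. On the plane of orthonormal
`x, y`: `Q (r cos t x + r sin t y) = r² (a + b cos 2t + c sin 2t)`, i.e.
`Q (s x + t y) = α s² + β s t + γ t²`. So `Q` satisfies the parallelogram identity and
`Q (r z) = r² Q z`, and `B z w = (Q (z + w) - Q (z - w)) / 4` satisfies `B (r z) w = r B z w`
(every two vectors lie in such a plane, `n ≥ 2`) and, by the parallelogram identity for `z + w, z' + w`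
and `z - w, z' - w`, `B z w + B z' w = (Q (z + z' + 2w) - Q (z + z' - 2w)) / 8 = B (z + z') w`.
`S a b = B e_a e_b`. -/
theorem sphere_quad {n : ℕ} (hn : 2 ≤ n) (q : (Fin n → ℝ) → ℝ)
    (hq : ∀ x y : Fin n → ℝ, x ⬝ᵥ x = 1 → y ⬝ᵥ y = 1 → x ⬝ᵥ y = 0 →
      ∃ a b c : ℝ, ∀ t : ℝ, q (Real.cos t • x + Real.sin t • y) =
        a + b * Real.cos (2 * t) + c * Real.sin (2 * t)) :
    ∃ S : Matrix (Fin n) (Fin n) ℝ, Sᵀ = S ∧ ∀ x : Fin n → ℝ, x ⬝ᵥ x = 1 → q x = x ⬝ᵥ (S *ᵥ x) := by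
  have hF := V8_quad q hq
  set Q : (Fin n → ℝ) → ℝ := V8_Q q with hQ
  -- homogeneity
  have hH : ∀ (r : ℝ) (z : Fin n → ℝ), Q (r • z) = r ^ 2 * Q z := by
    intro r z
    obtain ⟨x, y, s, t, s', t', hx, hy, hxy, hz, -⟩ := V8_plane hn z z
    obtain ⟨A, B, C, h⟩ := hF x y hx hy hxy
    have e : r • z = (r * s) • x + (r * t) • y := by
      rw [hz, smul_add, smul_smul, smul_smul]
    rw [e, h, hz, h]; ring
  -- parallelogram
  have hP : ∀ z w : Fin n → ℝ, Q (z + w) + Q (z - w) = 2 * Q z + 2 * Q w := by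
    intro z w
    obtain ⟨x, y, s, t, s', t', hx, hy, hxy, hz, hw⟩ := V8_plane hn z w
    obtain ⟨A, B, C, h⟩ := hF x y hx hy hxy
    have e1 : z + w = (s + s') • x + (t + t') • y := by
      rw [hz, hw, add_smul, add_smul]; abel
    have e2 : z - w = (s - s') • x + (t - t') • y := by
      rw [hz, hw, sub_smul, sub_smul]; abel
    rw [e1, e2, h, h, hz, h, hw, h]; ring
  set B : (Fin n → ℝ) → (Fin n → ℝ) → ℝ := fun z w => (Q (z + w) - Q (z - w)) / 4 with hB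
  have hneg : ∀ z : Fin n → ℝ, Q (-z) = Q z := by
    intro z
    have := hH (-1) z
    rw [neg_one_smul] at this
    rw [this]; ring
  have hsymm : ∀ z w, B z w = B w z := by
    intro z w
    simp only [hB]
    rw [add_comm z w, ← neg_sub w z, hneg]
  have hsmul : ∀ (r : ℝ) (z w : Fin n → ℝ), B (r • z) w = r * B z w := by
    intro r z w
    obtain ⟨x, y, s, t, s', t', hx, hy, hxy, hz, hw⟩ := V8_plane hn z w
    obtain ⟨A, B', C, h⟩ := hF x y hx hy hxy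
    have e1 : z + w = (s + s') • x + (t + t') • y := by
      rw [hz, hw, add_smul, add_smul]; abel
    have e2 : z - w = (s - s') • x + (t - t') • y := by
      rw [hz, hw, sub_smul, sub_smul]; abel
    have e3 : r • z + w = (r * s + s') • x + (r * t + t') • y := by
      rw [hz, hw, add_smul, add_smul, smul_add, smul_smul, smul_smul]; abel
    have e4 : r • z - w = (r * s - s') • x + (r * t - t') • y := by
      rw [hz, hw, sub_smul, sub_smul, smul_add, smul_smul, smul_smul]; abel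
    simp only [hB]
    rw [e1, e2, e3, e4, h, h, h, h]; ring
  have hadd : ∀ z z' w : Fin n → ℝ, B (z + z') w = B z w + B z' w := by
    intro z z' w
    have h1 := hP (z + w) (z' + w)
    have h2 := hP (z - w) (z' - w)
    have e1 : z + w + (z' + w) = (z + z') + (2 : ℝ) • w := by rw [two_smul]; abel
    have e2 : z + w - (z' + w) = z - z' := by abel
    have e3 : z - w + (z' - w) = (z + z') - (2 : ℝ) • w := by rw [two_smul]; abel
    have e4 : z - w - (z' - w) = z - z' := by abel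
    rw [e1, e2] at h1
    rw [e3, e4] at h2
    have h3 : B (z + z') ((2 : ℝ) • w) = 2 * B (z + z') w := by
      rw [hsymm, hsmul, hsymm]
    have h4 : B (z + z') ((2 : ℝ) • w) =
        (Q (z + z' + (2 : ℝ) • w) - Q (z + z' - (2 : ℝ) • w)) / 4 := rfl
    have h5 : B z w = (Q (z + w) - Q (z - w)) / 4 := rfl
    have h6 : B z' w = (Q (z' + w) - Q (z' - w)) / 4 := rfl
    rw [h4] at h3
    rw [h5, h6]
    linarith
  have hself : ∀ z : Fin n → ℝ, B z z = Q z := by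
    intro z
    have h0 : Q 0 = 0 := by
      have := hH 0 0
      rw [zero_smul] at this
      rw [this]; ring
    have h2 : Q (z + z) = 4 * Q z := by
      have := hH 2 z
      rw [two_smul] at this
      rw [this]; ring
    simp only [hB]
    rw [h2, sub_self, h0]; ring
  set bil : (Fin n → ℝ) →ₗ[ℝ] (Fin n → ℝ) →ₗ[ℝ] ℝ := LinearMap.mk₂ ℝ B hadd
    (fun r z w => by rw [hsmul, smul_eq_mul])
    (fun z w w' => by rw [hsymm, hadd, hsymm w, hsymm w'])
    (fun r z w => by rw [hsymm, hsmul, hsymm, smul_eq_mul]) with hbil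
  have hba : ∀ z w, bil z w = B z w := fun z w => rfl
  refine ⟨LinearMap.toMatrix₂' ℝ bil, ?_, ?_⟩
  · ext i j
    rw [Matrix.transpose_apply, LinearMap.toMatrix₂'_apply, LinearMap.toMatrix₂'_apply,
      hba, hba, hsymm]
  · intro x hx
    have h1 : Q x = q x := by
      rw [hQ]; unfold V8_Q
      rw [hx, Real.sqrt_one, inv_one, one_smul, one_mul]
    have h2 : Matrix.toLinearMap₂' ℝ (LinearMap.toMatrix₂' ℝ bil) x x = bil x x := by
      rw [Matrix.toLinearMap₂'_toMatrix']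
    rw [Matrix.toLinearMap₂'_apply'] at h2
    rw [h2, hba, hself, h1]

end LibNC27
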