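import Pool.Agent.LibNC27.V6
import Pool.Agent.LibNC27.V7
import Pool.Agent.LibNC27.V8

set_option autoImplicit false

open Matrix MeasureTheory Topology Filter LibNC38

namespace LibNC27

private theorem V9_col {n : ℕ} (k : SL n) (hk : Ort k) (l : Fin n) :
    (fun a => k.1 a l) ⬝ᵥ (fun a => k.1 a l) = 1 := by
  have h1 : k.1ᵀ * k.1 = 1 := mul_eq_one_comm.mp hk
  have h2 : (k.1ᵀ * k.1) l l = 1 := by rw [h1, Matrix.one_apply_eq]
  rw [Matrix.mul_apply] at h2
  exact h2

private theorem V9_ort {n : ℕ} (k r : SL n) (hk : Ort k) (hr : Ort r) : Ort (k * r) := by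
  have h0 : (k * r).1 = k.1 * r.1 := rfl
  unfold Ort at *
  rw [h0, Matrix.transpose_mul, Matrix.mul_assoc, ← Matrix.mul_assoc r.1, hr, Matrix.one_mul, hk]

private theorem V9_rotcol {n : ℕ} (k : SL n) (l j : Fin n) (hlj : l ≠ j) (t : ℝ) (a : Fin n) :
    (k * rot l j t).1 a l = Real.cos t * k.1 a l - Real.sin t * k.1 a j := by
  have h0 : (k * rot l j t).1 = k.1 * (rot l j t).1 := rfl
  rw [h0, (rot_facts l j hlj).1 t, Matrix.mul_apply]
  have h1 : ∀ b, k.1 a b * rotM l j t b l =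
      (if b = l then k.1 a b * Real.cos t else 0) + (if b = j then k.1 a b * (-Real.sin t) else 0) := by
    intro b
    unfold rotM
    by_cases hb : b = l
    · subst hb
      rw [if_pos rfl, if_pos rfl, if_pos rfl, if_neg hlj, add_zero]
    · rw [if_neg hb, if_neg hb, if_neg hb, zero_add]
      by_cases hb2 : b = j
      · subst hb2
        rw [if_pos rfl, if_pos rfl, if_neg hlj, if_pos rfl]
      · rw [if_neg hb2, if_neg hb2, mul_zero]
  rw [Finset.sum_congr rfl fun b _ => h1 b, Finset.sum_add_distrib, Finset.sum_ite_eq',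
    Finset.sum_ite_eq', if_pos (Finset.mem_univ _), if_pos (Finset.mem_univ _)]
  ring

/-- Row V9. `f` depends only on the column `l` (V6): `q x = f k` for any `k` (V7 `frame_one`) with
column `l` equal to the unit vector `x` (choice; well defined by V6). The column `l` of
`k * rot l j t` is `cos t • (column l) - sin t • (column j)`; so for orthonormal `x, y` take `k` with
columns `l, j` equal to `x, -y` (V7 `frame`, any `j ≠ l`) and V8 applies. -/
theorem frame_quad {n : ℕ} (hn : 3 ≤ n) (l : Fin n) (f : Fn n)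
    (hf : ∀ i j : Fin n, i ≠ l → j ≠ l → i ≠ j → ∀ k, Ort k → ∀ t, f (k * rot i j t) = f k)
    (hf2 : ∀ j : Fin n, j ≠ l → ∀ k, Ort k → ∃ a b c : ℝ, ∀ t : ℝ, f (k * rot l j t) =
      a + b * Real.cos (2 * t) + c * Real.sin (2 * t)) :
    ∃ S : Mt n, Sᵀ = S ∧ ∀ k, Ort k → f k = (fun a => k.1 a l) ⬝ᵥ (S *ᵥ fun a => k.1 a l) := by
  classical
  set q : (Fin n → ℝ) → ℝ := fun x =>
    if hx : x ⬝ᵥ x = 1 then f (Classical.choose (frame_one hn l x hx)) else 0 with hq
  have hqf : ∀ k, Ort k → q (fun a => k.1 a l) = f k := by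
    intro k hk
    have hx := V9_col k hk l
    have h1 : q (fun a => k.1 a l) =
        f (Classical.choose (frame_one hn l (fun a => k.1 a l) hx)) := dif_pos hx
    rw [h1]
    obtain ⟨h2, h3⟩ := Classical.choose_spec (frame_one hn l (fun a => k.1 a l) hx)
    exact stab l f hf _ k h2 hk h3
  obtain ⟨j, hj⟩ : ∃ j : Fin n, j ≠ l := by
    have : Nontrivial (Fin n) := Fin.nontrivial_iff_two_le.mpr (by omega)
    exact exists_ne l
  obtain ⟨S, hS, hSq⟩ := sphere_quad (by omega : 2 ≤ n) q (by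
    intro x y hx hy hxy
    obtain ⟨k, hk, hkx, hky⟩ := frame hn l j (Ne.symm hj) x (-y) hx
      (by rw [neg_dotProduct_neg]; exact hy) (by rw [dotProduct_neg, hxy, neg_zero])
    obtain ⟨a, b, c, habc⟩ := hf2 j hj k hk
    refine ⟨a, b, c, fun t => ?_⟩
    rw [← habc t, ← hqf _ (V9_ort k _ hk ((rot_facts l j (Ne.symm hj)).2.1 t))]
    congr 1
    ext d
    rw [V9_rotcol k l j (Ne.symm hj) t d, hkx, hky]
    simp only [Pi.add_apply, Pi.smul_apply, smul_eq_mul, Pi.neg_apply]
    ring)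
  exact ⟨S, hS, fun k hk => by rw [← hqf k hk]; exact hSq _ (V9_col k hk l)⟩

end LibNC27
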